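import Mathlib

set_option autoImplicit false

/-!
Cyclic Steiner triple systems as third-point functions on `ZMod n`, and the bound
an isomorphism class contains at most `n` shift-invariant systems.
-/

namespace Pool.Agent.H24R3.CSTS

open Finset

section core

variable {n : ℕ}

/-- `f` is the third-point function of a cyclic Steiner triple system:
the block through `x` and `x + d` is `{x, x + d, x + f d}`. -/
structure Good (f : ZMod n → ZMod n) : Prop where
  zero : f 0 = 0
  ne0 : ∀ d, d ≠ 0 → f d ≠ 0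
  ned : ∀ d, d ≠ 0 → f d ≠ d
  inv : ∀ d, d ≠ 0 → f (f d) = d
  neg : ∀ d, d ≠ 0 → f (-d) = f d - d

def blk (f : ZMod n → ZMod n) (x d : ZMod n) : Finset (ZMod n) := {x, x + d, x + f d}

def blocks [NeZero n] (f : ZMod n → ZMod n) : Finset (Finset (ZMod n)) :=
  ((Finset.univ : Finset (ZMod n × ZMod n)).filter (fun p => p.2 ≠ 0)).image
    (fun p => blk f p.1 p.2)

lemma mem_blocks [NeZero n] {f : ZMod n → ZMod n} {b : Finset (ZMod n)} :
    b ∈ blocks f ↔ ∃ x d, d ≠ 0 ∧ b = blk f x d := by
  unfold blocks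
  simp only [Finset.mem_image, Finset.mem_filter, Finset.mem_univ, true_and, Prod.exists]
  constructor
  · rintro ⟨x, d, hd, rfl⟩
    exact ⟨x, d, hd, rfl⟩
  · rintro ⟨x, d, hd, rfl⟩
    exact ⟨x, d, hd, rfl⟩

lemma third [NeZero n] {f : ZMod n → ZMod n} (hf : Good f) {b : Finset (ZMod n)}
    (hb : b ∈ blocks f) {x y : ZMod n} (hx : x ∈ b) (hy : y ∈ b) (hxy : x ≠ y) :
    b = blk f x (y - x) := by
  obtain ⟨z, d, hd, rfl⟩ := mem_blocks.1 hb
  have h1 := hf.inv d hd
  have h2 := hf.neg d hd
  have hd' : f d ≠ 0 := hf.ne0 d hd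
  have h3 := hf.neg (f d) hd'
  rw [h1] at h3
  have h4 : f (d - f d) = - f d := by
    have := hf.inv (-f d) (neg_ne_zero.2 hd')
    rw [h3] at this; exact this
  have h5 : f (f d - d) = -d := by
    have := hf.inv (-d) (neg_ne_zero.2 hd)
    rw [h2] at this; exact this
  simp only [blk, Finset.mem_insert, Finset.mem_singleton] at hx hy
  rcases hx with rfl | rfl | rfl <;> rcases hy with rfl | rfl | rfl
  · exact absurd rfl hxy
  · unfold blk
    rw [add_sub_cancel_left]
  · unfold blk
    rw [add_sub_cancel_left, h1]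
    ext w; simp only [Finset.mem_insert, Finset.mem_singleton]; tauto
  · unfold blk
    rename_i z
    rw [show y - (y + d) = -d by ring, h2, show y + d + -d = y by ring,
      show y + d + (f d - d) = y + f d by ring]
    ext w; simp only [Finset.mem_insert, Finset.mem_singleton]; tauto
  · exact absurd rfl hxy
  · unfold blk
    rw [show z + f d - (z + d) = f d - d by ring, h5, show z + d + (f d - d) = z + f d by ring,
      show z + d + -d = z by ring]
    ext w; simp only [Finset.mem_insert, Finset.mem_singleton]; tauto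
  · unfold blk
    rw [show y - (y + f d) = -f d by ring, h3, show y + f d + -f d = y by ring,
      show y + f d + (d - f d) = y + d by ring]
    ext w; simp only [Finset.mem_insert, Finset.mem_singleton]; tauto
  · unfold blk
    rw [show z + d - (z + f d) = d - f d by ring, h4, show z + f d + (d - f d) = z + d by ring,
      show z + f d + -f d = z by ring]
    ext w; simp only [Finset.mem_insert, Finset.mem_singleton]; tauto
  · exact absurd rfl hxy

lemma blocks_card [NeZero n] {f : ZMod n → ZMod n} (hf : Good f) :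
    ∀ b ∈ blocks f, b.card = 3 := by
  intro b hb
  obtain ⟨z, d, hd, rfl⟩ := mem_blocks.1 hb
  unfold blk
  rw [Finset.card_eq_three]
  refine ⟨z, z + d, z + f d, ?_, ?_, ?_, rfl⟩
  · intro h; apply hd; simpa using h.symm
  · intro h; apply hf.ne0 d hd; simpa using h.symm
  · intro h; apply hf.ned d hd; exact (add_left_cancel h).symm

lemma blocks_unique [NeZero n] {f : ZMod n → ZMod n} (hf : Good f) (x y : ZMod n) (hxy : x ≠ y) :
    ∃! b : Finset (ZMod n), b ∈ blocks f ∧ x ∈ b ∧ y ∈ b := by
  refine ⟨blk f x (y - x), ⟨mem_blocks.2 ⟨x, y - x, sub_ne_zero.2 (Ne.symm hxy), rfl⟩, ?_, ?_⟩, ?_⟩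
  · simp [blk]
  · simp [blk]
  · rintro b ⟨hb, hx, hy⟩
    exact third hf hb hx hy hxy

lemma blk_image_add [NeZero n] (f : ZMod n → ZMod n) (x d : ZMod n) :
    (blk f x d).image (fun x => x + 1) = blk f (x + 1) d := by
  unfold blk
  rw [Finset.image_insert, Finset.image_insert, Finset.image_singleton]
  congr 1
  · congr 1
    · ring
    · congr 1; ring

lemma blocks_shift [NeZero n] {f : ZMod n → ZMod n} :
    ∀ b ∈ blocks f, b.image (fun x => x + 1) ∈ blocks f := by
  intro b hb
  obtain ⟨z, d, hd, rfl⟩ := mem_blocks.1 hb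
  rw [blk_image_add]
  exact mem_blocks.2 ⟨z + 1, d, hd, rfl⟩

lemma blocks_inj [NeZero n] {f g : ZMod n → ZMod n} (hf : Good f) (hg : Good g)
    (h : blocks f = blocks g) : f = g := by
  funext d
  by_cases hd : d = 0
  · rw [hd, hf.zero, hg.zero]
  · have h1 : blk f 0 d ∈ blocks g := by
      rw [← h]; exact mem_blocks.2 ⟨0, d, hd, rfl⟩
    have h2 := third hg h1 (x := 0) (y := d) (by simp [blk]) (by simp [blk]) (Ne.symm hd)
    have h3 : f d ∈ blk g 0 (d - 0) := by rw [← h2]; simp [blk]
    simp only [blk, sub_zero, zero_add, Finset.mem_insert, Finset.mem_singleton] at h3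
    rcases h3 with h3 | h3 | h3
    · exact absurd h3 (hf.ne0 d hd)
    · exact absurd h3 (hf.ned d hd)
    · exact h3

end core

section iso

variable {n : ℕ}

def Rel (σ : Equiv.Perm (ZMod n)) (B B' : Finset (Finset (ZMod n))) : Prop :=
  ∀ b : Finset (ZMod n), b ∈ B ↔ b.map σ.toEmbedding ∈ B'

lemma map_mul (σ τ : Equiv.Perm (ZMod n)) (b : Finset (ZMod n)) :
    b.map (τ * σ).toEmbedding = (b.map σ.toEmbedding).map τ.toEmbedding := by
  rw [Finset.map_map]; rfl

lemma map_one' (b : Finset (ZMod n)) : b.map (1 : Equiv.Perm (ZMod n)).toEmbedding = b := by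
  have : (1 : Equiv.Perm (ZMod n)).toEmbedding = Function.Embedding.refl _ := by
    ext x; rfl
  rw [this, Finset.map_refl]

lemma rel_one (B : Finset (Finset (ZMod n))) : Rel 1 B B := by
  intro b
  rw [map_one']

lemma rel_mul {σ τ : Equiv.Perm (ZMod n)} {B B' B'' : Finset (Finset (ZMod n))}
    (h : Rel σ B B') (h' : Rel τ B' B'') : Rel (τ * σ) B B'' := by
  intro b
  rw [map_mul, h b, h' _]

lemma map_inv_map (σ : Equiv.Perm (ZMod n)) (b : Finset (ZMod n)) :
    (b.map σ⁻¹.toEmbedding).map σ.toEmbedding = b := by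
  rw [← map_mul, mul_inv_cancel, map_one']

lemma rel_inv {σ : Equiv.Perm (ZMod n)} {B B' : Finset (Finset (ZMod n))}
    (h : Rel σ B B') : Rel σ⁻¹ B' B := by
  intro b
  rw [h, map_inv_map]

lemma rel_unique {σ : Equiv.Perm (ZMod n)} {B B' B'' : Finset (Finset (ZMod n))}
    (h : Rel σ B B') (h' : Rel σ B B'') : B' = B'' := by
  ext b
  have h1 := h (b.map σ⁻¹.toEmbedding)
  have h2 := h' (b.map σ⁻¹.toEmbedding)
  rw [map_inv_map] at h1 h2
  rw [← h1, ← h2]

/-- the shift -/
def sh : Equiv.Perm (ZMod n) := Equiv.addRight (1 : ZMod n)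

lemma sh_pow (k : ℕ) (x : ZMod n) : ((sh : Equiv.Perm (ZMod n)) ^ k) x = x + k := by
  induction k with
  | zero => simp
  | succ k ih =>
    rw [pow_succ', Equiv.Perm.mul_apply, ih]
    simp [sh, add_assoc]

lemma conj_pow' (p c : Equiv.Perm (ZMod n)) (k : ℕ) : (p⁻¹ * c * p) ^ k = p⁻¹ * c ^ k * p := by
  induction k with
  | zero => simp
  | succ k ih => rw [pow_succ, ih, pow_succ]; group

lemma perm_eq [NeZero n] (p q : Equiv.Perm (ZMod n)) (h : p⁻¹ * sh * p = q⁻¹ * sh * q)
    (h0 : p 0 = q 0) : p = q := by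
  apply Equiv.ext
  intro x
  set k : ℕ := (p x - p 0).val with hk
  have hkc : (k : ZMod n) = p x - p 0 := by
    rw [hk, ZMod.natCast_zmod_val]
  have h1 : ((p⁻¹ * sh * p : Equiv.Perm (ZMod n)) ^ k) 0 = x := by
    rw [conj_pow', Equiv.Perm.mul_apply, Equiv.Perm.mul_apply, sh_pow, hkc]
    simp
  have h2 : q (((q⁻¹ * sh * q : Equiv.Perm (ZMod n)) ^ k) 0) = q 0 + k := by
    rw [conj_pow', Equiv.Perm.mul_apply, Equiv.Perm.mul_apply, sh_pow]
    simp
  rw [← h, h1, ← h0, hkc] at h2
  rw [h2]; ring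

lemma class_card [NeZero n] (S : Finset (Finset (ZMod n))) (K : Finset (Finset (Finset (ZMod n))))
    (hK : ∀ S' ∈ K, Rel sh S' S' ∧ ∃ σ, Rel σ S S') : K.card ≤ n := by
  classical
  let π : Finset (Finset (ZMod n)) → Equiv.Perm (ZMod n) := fun S' =>
    if h : ∃ σ, Rel σ S S' then h.choose else 1
  have hπ : ∀ S' ∈ K, Rel (π S') S S' := by
    intro S' hS'
    have h := (hK S' hS').2
    simp only [π, dif_pos h]
    exact h.choose_spec
  let A : Finset (Equiv.Perm (ZMod n)) := Finset.univ.filter (fun α => Rel α S S)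
  have hA : 0 < A.card := Finset.card_pos.2 ⟨1, by simp [A, rel_one]⟩
  let Ψ : Finset (Finset (ZMod n)) × Equiv.Perm (ZMod n) → Equiv.Perm (ZMod n) × ZMod n :=
    fun p => ((π p.1 * p.2)⁻¹ * sh * (π p.1 * p.2), (π p.1 * p.2) 0)
  have hmaps : ∀ p ∈ K ×ˢ A, Ψ p ∈ A ×ˢ (Finset.univ : Finset (ZMod n)) := by
    rintro ⟨S', α⟩ hp
    rw [Finset.mem_product] at hp ⊢
    obtain ⟨h1, h2⟩ := hp
    simp only [A, Finset.mem_filter, Finset.mem_univ, true_and] at h2
    refine ⟨?_, Finset.mem_univ _⟩
    simp only [A, Ψ, Finset.mem_filter, Finset.mem_univ, true_and]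
    have h3 : Rel (π S' * α) S S' := rel_mul h2 (hπ S' h1)
    have h4 := rel_mul h3 (rel_mul (hK S' h1).1 (rel_inv h3))
    exact h4
  have hinj : Set.InjOn Ψ (K ×ˢ A : Finset _) := by
    rintro ⟨S1, α1⟩ h1 ⟨S2, α2⟩ h2 h12
    rw [Finset.mem_coe, Finset.mem_product] at h1 h2
    simp only [A, Finset.mem_filter, Finset.mem_univ, true_and] at h1 h2
    simp only [Ψ, Prod.mk.injEq] at h12
    have hpq : π S1 * α1 = π S2 * α2 := perm_eq _ _ h12.1 h12.2
    have h3 : Rel (π S1 * α1) S S1 := rel_mul h1.2 (hπ S1 h1.1)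
    have h4 : Rel (π S2 * α2) S S2 := rel_mul h2.2 (hπ S2 h2.1)
    rw [← hpq] at h4
    have hS : S1 = S2 := rel_unique h3 h4
    subst hS
    have := mul_left_cancel hpq
    rw [this]
  have hcard := Finset.card_le_card_of_injOn Ψ hmaps hinj
  rw [Finset.card_product, Finset.card_product, Finset.card_univ, ZMod.card] at hcard
  have : K.card * A.card ≤ n * A.card := by rw [mul_comm n]; exact hcard
  exact Nat.le_of_mul_le_mul_right this hA

lemma select [NeZero n] (M : ℕ) : ∀ X : Finset (Finset (Finset (ZMod n))),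
    (∀ S ∈ X, Rel sh S S) → n * M ≤ X.card →
    ∃ B : Fin M → Finset (Finset (ZMod n)), (∀ i, B i ∈ X) ∧
      ∀ i j, i ≠ j → ¬ ∃ σ, Rel σ (B i) (B j) := by
  classical
  induction M with
  | zero =>
    intro X _ _
    exact ⟨fun i => i.elim0, fun i => i.elim0, fun i => i.elim0⟩
  | succ M ih =>
    intro X hX hcard
    have hn : 0 < n := Nat.pos_of_ne_zero (NeZero.ne n)
    have hpos : 0 < X.card := by
      have : 0 < n * (M + 1) := by positivity
      omega
    obtain ⟨S, hS⟩ := Finset.card_pos.1 hpos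
    let K := X.filter (fun S' => ∃ σ, Rel σ S S')
    have hK : K.card ≤ n := by
      apply class_card S K
      intro S' hS'
      rw [Finset.mem_filter] at hS'
      exact ⟨hX S' hS'.1, hS'.2⟩
    let X' := X.filter (fun S' => ¬ ∃ σ, Rel σ S S')
    have hX' : n * M ≤ X'.card := by
      have h1 : K.card + X'.card = X.card := Finset.card_filter_add_card_filter_not _
      have h2 : n * (M + 1) = n * M + n := by ring
      omega
    obtain ⟨B, hB1, hB2⟩ := ih X' (fun S' hS' => hX S' (Finset.mem_filter.1 hS').1) hX'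
    refine ⟨Fin.cons S B, ?_, ?_⟩
    · intro i
      refine Fin.cases ?_ ?_ i
      · simpa using hS
      · intro i
        simpa using (Finset.mem_filter.1 (hB1 i)).1
    · intro i j
      refine Fin.cases ?_ ?_ i
      · refine Fin.cases ?_ ?_ j
        · intro h; exact absurd rfl h
        · intro j _
          simpa using (Finset.mem_filter.1 (hB1 j)).2
      · intro i
        refine Fin.cases ?_ ?_ j
        · intro _
          simp only [Fin.cons_zero, Fin.cons_succ]
          rintro ⟨σ, hσ⟩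
          exact (Finset.mem_filter.1 (hB1 i)).2 ⟨σ⁻¹, rel_inv hσ⟩
        · intro j hij
          simp only [Fin.cons_succ]
          exact hB2 i j (fun h => hij (by rw [h]))

lemma blocks_rel_sh [NeZero n] (f : ZMod n → ZMod n) : Rel sh (blocks f) (blocks f) := by
  intro b
  have himg : b.map (sh : Equiv.Perm (ZMod n)).toEmbedding = b.image (fun x => x + 1) := by
    rw [Finset.map_eq_image]; rfl
  rw [himg]
  constructor
  · exact blocks_shift b
  · intro h
    obtain ⟨z, d, hd, hz⟩ := mem_blocks.1 h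
    have h1 : (blk f (z - 1) d).image (fun x => x + 1) = b.image (fun x => x + 1) := by
      rw [blk_image_add, hz]; congr 1; ring
    have h2 : blk f (z - 1) d = b := by
      apply Finset.image_injective (f := fun x : ZMod n => x + 1) (add_left_injective 1) h1
    rw [← h2]
    exact mem_blocks.2 ⟨z - 1, d, hd, rfl⟩

end iso

end Pool.Agent.H24R3.CSTS
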