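import Pool.Agent.H24R3.CSTSCore

set_option autoImplicit false

/-!
From difference triples to cyclic Steiner triple systems, with all orbit reversals.
-/

namespace Pool.Agent.H24R3.CSTS

open Finset

def mag (x y : ℕ → ℕ) (j : ℕ) : Fin 3 → ℕ := ![x j, y j, x j + y j]

/-- difference triple data: `t` triples `x j, y j, x j + y j`, all distinct up to sign mod `n`. -/
structure Cond (n t : ℕ) (x y : ℕ → ℕ) : Prop where
  card : 6 * t + 1 = n ∨ 6 * t + 3 = n
  pos : ∀ j < t, ∀ k, 0 < mag x y j k ∧ mag x y j k < n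
  short : ∀ j < t, ∀ k, 3 * mag x y j k ≠ n ∧ 3 * mag x y j k ≠ 2 * n
  dist : ∀ j < t, ∀ j' < t, ∀ k k', mag x y j k = mag x y j' k' → j = j' ∧ k = k'
  sum : ∀ j < t, ∀ j' < t, ∀ k k', mag x y j k + mag x y j' k' ≠ n

def rho : Fin 3 × Bool → Fin 3 × Bool
  | (0, false) => (2, false)
  | (2, false) => (0, false)
  | (0, true) => (1, false)
  | (1, false) => (0, true)
  | (1, true) => (2, true)
  | (2, true) => (1, true)

def nu : Fin 3 × Bool → Fin 3 × Bool := fun k => (k.1, !k.2)

lemma rho_rho (k : Fin 3 × Bool) : rho (rho k) = k := by revert k; decide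
lemma rho_ne (k : Fin 3 × Bool) : rho k ≠ k := by revert k; decide

variable {n t : ℕ} {x y : ℕ → ℕ}

def val (n t : ℕ) (x y : ℕ → ℕ) (p : Fin t × (Fin 3 × Bool)) : ZMod n :=
  if p.2.2 then -(mag x y p.1 p.2.1 : ZMod n) else (mag x y p.1 p.2.1 : ZMod n)

lemma val_inj (hc : Cond n t x y) : Function.Injective (val n t x y) := by
  rintro ⟨j, k, s⟩ ⟨j', k', s'⟩ h
  have hp := hc.pos j j.2 k
  have hq := hc.pos j' j'.2 k'
  have hsame : ((mag x y j k : ℕ) : ZMod n) = (mag x y j' k' : ZMod n) → (j = j' ∧ k = k') := by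
    intro h1
    rw [ZMod.natCast_eq_natCast_iff', Nat.mod_eq_of_lt hp.2, Nat.mod_eq_of_lt hq.2] at h1
    have h2 := hc.dist j j.2 j' j'.2 k k' h1
    exact ⟨Fin.ext h2.1, h2.2⟩
  have hopp : ((mag x y j k : ℕ) : ZMod n) + (mag x y j' k' : ZMod n) ≠ 0 := by
    intro h1
    have h2 : ((mag x y j k + mag x y j' k' : ℕ) : ZMod n) = 0 := by push_cast; exact h1
    rw [ZMod.natCast_eq_zero_iff] at h2
    obtain ⟨c, hc'⟩ := h2
    have hc1 : c = 1 := by
      have h4 : n * c < n * 2 := by omega
      have h5 : c < 2 := Nat.lt_of_mul_lt_mul_left h4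
      have h6 : c ≠ 0 := by
        rintro rfl
        omega
      omega
    rw [hc1, mul_one] at hc'
    exact hc.sum j j.2 j' j'.2 k k' hc'
  unfold val at h
  simp only at h
  cases s <;> cases s' <;> simp only [if_true, if_false, Bool.false_eq_true] at h
  · obtain ⟨h1, h2⟩ := hsame h
    rw [h1, h2]
  · exact absurd (by rw [h]; ring) hopp
  · exact absurd (by rw [← h]; ring) hopp
  · obtain ⟨h1, h2⟩ := hsame (neg_injective h)
    rw [h1, h2]

lemma val_add (j : Fin t) (k : Fin 3 × Bool) :
    val n t x y (j, rho (nu k)) = val n t x y (j, rho k) - val n t x y (j, k) := by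
  obtain ⟨k, s⟩ := k
  unfold val
  fin_cases k <;> cases s <;> simp [mag, rho, nu] <;> ring

lemma val_neg (j : Fin t) (k : Fin 3 × Bool) :
    val n t x y (j, nu k) = - val n t x y (j, k) := by
  obtain ⟨k, s⟩ := k
  unfold val
  cases s <;> simp [nu]

lemma val_ne_zero (hc : Cond n t x y) (p : Fin t × (Fin 3 × Bool)) : val n t x y p ≠ 0 := by
  intro h
  have hp := hc.pos p.1 p.1.2 p.2.1
  have h1 : ((mag x y p.1 p.2.1 : ℕ) : ZMod n) = 0 := by
    unfold val at h
    split_ifs at h
    · exact neg_eq_zero.1 h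
    · exact h
  rw [ZMod.natCast_eq_zero_iff] at h1
  exact absurd (Nat.le_of_dvd hp.1 h1) (by omega)

lemma three_val_ne (hc : Cond n t x y) (p : Fin t × (Fin 3 × Bool)) :
    3 * val n t x y p ≠ 0 := by
  intro h
  have hp := hc.pos p.1 p.1.2 p.2.1
  have hs := hc.short p.1 p.1.2 p.2.1
  have h1 : ((3 * mag x y p.1 p.2.1 : ℕ) : ZMod n) = 0 := by
    push_cast
    unfold val at h
    split_ifs at h
    · linear_combination -h
    · exact h
  rw [ZMod.natCast_eq_zero_iff] at h1
  obtain ⟨c, hc'⟩ := h1
  have hc3 : c = 1 ∨ c = 2 := by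
    have h4 : n * c < n * 3 := by omega
    have h5 : c < 3 := Nat.lt_of_mul_lt_mul_left h4
    have h6 : c ≠ 0 := by
      rintro rfl
      omega
    omega
  rcases hc3 with rfl | rfl <;> omega

open Classical in
noncomputable def fn (n t : ℕ) (x y : ℕ → ℕ) : ZMod n → ZMod n := fun d =>
  if h : ∃ p : Fin t × (Fin 3 × Bool), val n t x y p = d then val n t x y (h.choose.1, rho h.choose.2)
  else -d

lemma fn_val (hc : Cond n t x y) (p : Fin t × (Fin 3 × Bool)) :
    fn n t x y (val n t x y p) = val n t x y (p.1, rho p.2) := by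
  have h : ∃ q : Fin t × (Fin 3 × Bool), val n t x y q = val n t x y p := ⟨p, rfl⟩
  unfold fn
  rw [dif_pos h, val_inj hc h.choose_spec]

lemma cover [NeZero n] (hc : Cond n t x y) (d : ZMod n) (hd : d ≠ 0)
    (h : ¬ ∃ p : Fin t × (Fin 3 × Bool), val n t x y p = d) : 3 * d = 0 := by
  classical
  let Im : Finset (ZMod n) := Finset.univ.image (val n t x y)
  have hIm : Im.card = 6 * t := by
    rw [Finset.card_image_of_injective _ (val_inj hc)]
    simp [mul_comm]
  have h0 : (0 : ZMod n) ∉ Im := by
    simp only [Im, Finset.mem_image, Finset.mem_univ, true_and, not_exists]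
    intro p; exact val_ne_zero hc p
  have hdIm : d ∉ Im := by
    simp only [Im, Finset.mem_image, Finset.mem_univ, true_and]
    exact h
  rcases hc.card with hn | hn
  · exfalso
    have h1 : (insert d (insert 0 Im)).card = 6 * t + 2 := by
      rw [Finset.card_insert_of_notMem, Finset.card_insert_of_notMem h0, hIm]
      rw [Finset.mem_insert]; push Not; exact ⟨hd, hdIm⟩
    have h2 := Finset.card_le_univ (insert d (insert 0 Im))
    rw [h1, ZMod.card] at h2
    omega
  · by_contra h3
    set m : ZMod n := ((2 * t + 1 : ℕ) : ZMod n) with hm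
    have h3m : 3 * m = 0 := by
      have : ((3 * (2 * t + 1) : ℕ) : ZMod n) = 0 := by
        rw [ZMod.natCast_eq_zero_iff]
        exact ⟨1, by omega⟩
      rw [hm]; push_cast at this ⊢; exact this
    have hmne : m ≠ 0 := by
      intro h
      rw [hm, ZMod.natCast_eq_zero_iff] at h
      exact absurd (Nat.le_of_dvd (by omega) h) (by omega)
    have h2m : -m ≠ m := by
      intro h
      have h5 : 2 * m = 0 := by
        have : m + m = 0 := by nth_rewrite 1 [← h]; ring
        linear_combination this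
      have h6 : m = 0 := by linear_combination h3m - h5
      exact hmne h6
    have hIm3 : ∀ z ∈ Im, 3 * z ≠ 0 := by
      intro z hz
      simp only [Im, Finset.mem_image, Finset.mem_univ, true_and] at hz
      obtain ⟨p, rfl⟩ := hz
      exact three_val_ne hc p
    have hmIm : m ∉ Im := fun h => hIm3 m h h3m
    have hmIm' : -m ∉ Im := fun h => hIm3 (-m) h (by linear_combination -h3m)
    have hdm : d ≠ m := by rintro rfl; exact h3 h3m
    have hdm' : d ≠ -m := by rintro rfl; exact h3 (by linear_combination -h3m)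
    have h1 : (insert d (insert (-m) (insert m (insert 0 Im)))).card = 6 * t + 4 := by
      rw [Finset.card_insert_of_notMem, Finset.card_insert_of_notMem,
        Finset.card_insert_of_notMem, Finset.card_insert_of_notMem h0, hIm]
      · rw [Finset.mem_insert]; push Not; exact ⟨hmne, hmIm⟩
      · rw [Finset.mem_insert, Finset.mem_insert]; push Not
        exact ⟨h2m, neg_ne_zero.2 hmne, hmIm'⟩
      · rw [Finset.mem_insert, Finset.mem_insert, Finset.mem_insert]; push Not
        exact ⟨hdm', hdm, hd, hdIm⟩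
    have h2 := Finset.card_le_univ (insert d (insert (-m) (insert m (insert 0 Im))))
    rw [h1, ZMod.card] at h2
    omega

lemma fn_good [NeZero n] (hc : Cond n t x y) : Good (fn n t x y) := by
  have hodd : ∀ d : ZMod n, d ≠ 0 → -d ≠ d := by
    intro d hd h
    have h2 : 2 * d = 0 := by
      have : d + d = 0 := by nth_rewrite 1 [← h]; ring
      linear_combination this
    have h3 : ((n : ℕ) : ZMod n) = 0 := ZMod.natCast_self n
    have h4 : ∃ k : ℕ, n = 2 * k + 1 := by
      rcases hc.card with h | h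
      · exact ⟨3 * t, by omega⟩
      · exact ⟨3 * t + 1, by omega⟩
    obtain ⟨k, hk⟩ := h4
    have h5 : (2 * (k : ZMod n) + 1) = 0 := by
      have h6 : ((2 * k + 1 : ℕ) : ZMod n) = ((n : ℕ) : ZMod n) := by rw [← hk]
      rw [h3] at h6
      push_cast at h6
      exact h6
    apply hd
    linear_combination d * h5 - (k : ZMod n) * h2
  have hfn0 : ∀ d : ZMod n, (¬ ∃ p : Fin t × (Fin 3 × Bool), val n t x y p = d) → fn n t x y d = -d := by
    intro d h
    unfold fn
    rw [dif_neg h]
  have hnegim : ∀ d : ZMod n, (¬ ∃ p : Fin t × (Fin 3 × Bool), val n t x y p = d) →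
      ¬ ∃ p : Fin t × (Fin 3 × Bool), val n t x y p = -d := by
    rintro d h ⟨⟨j, k⟩, hp⟩
    apply h
    refine ⟨(j, nu k), ?_⟩
    rw [val_neg, hp, neg_neg]
  constructor
  · have : ¬ ∃ p : Fin t × (Fin 3 × Bool), val n t x y p = 0 := by
      rintro ⟨p, hp⟩; exact val_ne_zero hc p hp
    rw [hfn0 0 this, neg_zero]
  · intro d hd
    by_cases h : ∃ p : Fin t × (Fin 3 × Bool), val n t x y p = d
    · obtain ⟨p, rfl⟩ := h
      rw [fn_val hc]; exact val_ne_zero hc _
    · rw [hfn0 d h]; exact neg_ne_zero.2 hd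
  · intro d hd
    by_cases h : ∃ p : Fin t × (Fin 3 × Bool), val n t x y p = d
    · obtain ⟨p, rfl⟩ := h
      rw [fn_val hc]
      intro h2
      have := val_inj hc h2
      exact rho_ne p.2 (congrArg Prod.snd this)
    · rw [hfn0 d h]; exact hodd d hd
  · intro d hd
    by_cases h : ∃ p : Fin t × (Fin 3 × Bool), val n t x y p = d
    · obtain ⟨p, rfl⟩ := h
      rw [fn_val hc, fn_val hc]
      simp only [rho_rho]
    · rw [hfn0 d h, hfn0 _ (hnegim d h), neg_neg]
  · intro d hd
    by_cases h : ∃ p : Fin t × (Fin 3 × Bool), val n t x y p = d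
    · obtain ⟨⟨j, k⟩, rfl⟩ := h
      rw [← val_neg, fn_val hc, fn_val hc]
      exact val_add j k
    · rw [hfn0 d h, hfn0 _ (hnegim d h), neg_neg]
      have := cover hc d hd h
      linear_combination this

/-- reversing the orbits selected by `e` -/
def ext' {t : ℕ} (e : Fin t → Bool) (j : ℕ) : Bool := if h : j < t then e ⟨j, h⟩ else false

def xs (x y : ℕ → ℕ) {t : ℕ} (e : Fin t → Bool) (j : ℕ) : ℕ := if ext' e j then y j else x j
def ys (x y : ℕ → ℕ) {t : ℕ} (e : Fin t → Bool) (j : ℕ) : ℕ := if ext' e j then x j else y j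

def sw (b : Bool) : Fin 3 → Fin 3 := if b then ![1, 0, 2] else ![0, 1, 2]

lemma sw_inj (b : Bool) (k k' : Fin 3) (h : sw b k = sw b k') : k = k' := by
  revert b k k'; decide

lemma mag_swap {t : ℕ} (e : Fin t → Bool) (j : ℕ) (k : Fin 3) :
    mag (xs x y e) (ys x y e) j k = mag x y j (sw (ext' e j) k) := by
  unfold mag xs ys sw
  cases ext' e j <;> fin_cases k <;> simp [add_comm]

lemma cond_swap (hc : Cond n t x y) (e : Fin t → Bool) : Cond n t (xs x y e) (ys x y e) := by
  refine ⟨hc.card, ?_, ?_, ?_, ?_⟩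
  · intro j hj k
    rw [mag_swap]
    exact hc.pos j hj _
  · intro j hj k
    rw [mag_swap]
    exact hc.short j hj _
  · intro j hj j' hj' k k' h
    rw [mag_swap, mag_swap] at h
    obtain ⟨h1, h2⟩ := hc.dist j hj j' hj' _ _ h
    subst h1
    exact ⟨rfl, sw_inj _ _ _ h2⟩
  · intro j hj j' hj' k k'
    rw [mag_swap, mag_swap]
    exact hc.sum j hj j' hj' _ _

lemma swap_inj [NeZero n] (hc : Cond n t x y) : Function.Injective
    (fun e : Fin t → Bool => blocks (fn n t (xs x y e) (ys x y e))) := by
  intro e e' h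
  have hf := blocks_inj (fn_good (cond_swap hc e)) (fn_good (cond_swap hc e')) h
  have key : ∀ (e e' : Fin t → Bool) (j : Fin t), e j = false → e' j = true →
      fn n t (xs x y e) (ys x y e) = fn n t (xs x y e') (ys x y e') → False := by
    intro e e' j hj hj' hf
    have h1 := fn_val (cond_swap hc e) (j, (0, false))
    have h2 := fn_val (cond_swap hc e') (j, (1, false))
    have hext : ext' e j = false := by simp [ext', hj]
    have hext' : ext' e' j = true := by simp [ext', hj']
    have e1 : val n t (xs x y e) (ys x y e) (j, (0, false)) = (x j : ZMod n) := by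
      simp [val, mag, xs, hext]
    have e2 : val n t (xs x y e) (ys x y e) (j, rho (0, false))
        = (x j : ZMod n) + (y j : ZMod n) := by
      simp [val, mag, xs, ys, hext, rho]
    have e3 : val n t (xs x y e') (ys x y e') (j, (1, false)) = (x j : ZMod n) := by
      simp [val, mag, ys, hext']
    have e4 : val n t (xs x y e') (ys x y e') (j, rho (1, false)) = - (y j : ZMod n) := by
      simp [val, mag, xs, hext', rho]
    simp only at h1 h2
    rw [e1, e2] at h1
    rw [e3, e4] at h2
    rw [hf, h2] at h1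
    have h5 : ((y j + (x j + y j) : ℕ) : ZMod n) = 0 := by
      push_cast
      linear_combination -h1
    rw [ZMod.natCast_eq_zero_iff] at h5
    obtain ⟨c, hc'⟩ := h5
    have hd := hc.sum j j.2 j j.2 1 2
    have hp1 := hc.pos j j.2 1
    have hp2 := hc.pos j j.2 2
    simp only [mag, Matrix.cons_val_one, Matrix.cons_val_zero, Matrix.cons_val] at hd hp1 hp2
    have hc1 : c = 1 := by
      have h4 : n * c < n * 2 := by omega
      have h5 : c < 2 := Nat.lt_of_mul_lt_mul_left h4
      have h6 : c ≠ 0 := by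
        rintro rfl
        omega
      omega
    subst hc1
    omega
  funext j
  by_contra hne
  rcases hj : e j with _ | _
  · rcases hj' : e' j with _ | _
    · exact hne (by rw [hj, hj'])
    · exact key e e' j hj hj' hf
  · rcases hj' : e' j with _ | _
    · exact key e' e j hj' hj hf.symm
    · exact hne (by rw [hj, hj'])

theorem main_of_cond [NeZero n] (hc : Cond n t x y) (M : ℕ) (hM : n * M ≤ 2 ^ t) :
    ∃ B : Fin M → Finset (Finset (ZMod n)),
        (∀ i, (∀ b ∈ B i, b.card = 3) ∧
          (∀ x y : ZMod n, x ≠ y → ∃! b : Finset (ZMod n), b ∈ B i ∧ x ∈ b ∧ y ∈ b) ∧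
          (∀ b ∈ B i, b.image (fun x => x + 1) ∈ B i)) ∧
        (∀ i j, i ≠ j → ¬ ∃ σ : Equiv.Perm (ZMod n),
          ∀ b : Finset (ZMod n), b ∈ B i ↔ b.map σ.toEmbedding ∈ B j) := by
  classical
  let X : Finset (Finset (Finset (ZMod n))) :=
    Finset.univ.image (fun e : Fin t → Bool => blocks (fn n t (xs x y e) (ys x y e)))
  have hX : X.card = 2 ^ t := by
    rw [Finset.card_image_of_injective _ (swap_inj hc)]
    simp
  obtain ⟨B, hB1, hB2⟩ := select M X (by
    intro S hS
    simp only [X, Finset.mem_image, Finset.mem_univ, true_and] at hS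
    obtain ⟨e, rfl⟩ := hS
    exact blocks_rel_sh _) (by rw [hX]; exact hM)
  refine ⟨B, ?_, ?_⟩
  · intro i
    have h := hB1 i
    simp only [X, Finset.mem_image, Finset.mem_univ, true_and] at h
    obtain ⟨e, he⟩ := h
    have hg := fn_good (cond_swap hc e)
    rw [← he]
    exact ⟨blocks_card hg, blocks_unique hg, blocks_shift⟩
  · intro i j hij
    exact hB2 i j hij

end Pool.Agent.H24R3.CSTS
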