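import Pool.Agent.H24R3.CSTSData

set_option autoImplicit false
set_option maxHeartbeats 4000000

/-!
Peltesohn's difference triples (1939) for all residues mod 18, and existence of difference triple
data for every `n = 1, 3 mod 6`, `n >= 63`.
-/

namespace Pool.Agent.H24R3.CSTS

lemma Cond.of_nat {n t : ℕ} {x y : ℕ → ℕ} (hcard : 6 * t + 1 = n ∨ 6 * t + 3 = n)
    (hpos : ∀ j < t, 0 < x j ∧ 0 < y j ∧ x j + y j < n)
    (hshort : ∀ j < t, 3 * x j ≠ n ∧ 3 * x j ≠ 2 * n ∧ 3 * y j ≠ n ∧ 3 * y j ≠ 2 * n ∧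
      3 * (x j + y j) ≠ n ∧ 3 * (x j + y j) ≠ 2 * n)
    (h : ∀ j < t, ∀ j' < t, (x j = x j' → j = j') ∧ (y j = y j' → j = j') ∧
      (x j + y j = x j' + y j' → j = j') ∧ x j ≠ y j' ∧ x j ≠ x j' + y j' ∧ y j ≠ x j' + y j' ∧
      x j + x j' ≠ n ∧ x j + y j' ≠ n ∧ x j + (x j' + y j') ≠ n ∧ y j + y j' ≠ n ∧
      y j + (x j' + y j') ≠ n ∧ (x j + y j) + (x j' + y j') ≠ n) : Cond n t x y := by
  refine ⟨hcard, ?_, ?_, ?_, ?_⟩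
  · intro j hj k
    obtain ⟨h1, h2, h3⟩ := hpos j hj
    fin_cases k
    · exact ⟨h1, lt_of_le_of_lt (Nat.le_add_right _ _) h3⟩
    · exact ⟨h2, lt_of_le_of_lt (Nat.le_add_left _ _) h3⟩
    · exact ⟨Nat.add_pos_left h1 _, h3⟩
  · intro j hj k
    obtain ⟨h1, h2, h3, h4, h5, h6⟩ := hshort j hj
    fin_cases k
    · exact ⟨h1, h2⟩
    · exact ⟨h3, h4⟩
    · exact ⟨h5, h6⟩
  · intro j hj j' hj' k k' hk
    obtain ⟨a1, a2, a3, a4, a5, a6, -⟩ := h j hj j' hj'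
    obtain ⟨b1, b2, b3, b4, b5, b6, -⟩ := h j' hj' j hj
    fin_cases k <;> fin_cases k'
    · exact ⟨a1 hk, rfl⟩
    · exact absurd hk a4
    · exact absurd hk a5
    · exact absurd hk.symm b4
    · exact ⟨a2 hk, rfl⟩
    · exact absurd hk a6
    · exact absurd hk.symm b5
    · exact absurd hk.symm b6
    · exact ⟨a3 hk, rfl⟩
  · intro j hj j' hj' k k'
    obtain ⟨-, -, -, -, -, -, a1, a2, a3, a4, a5, a6⟩ := h j hj j' hj'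
    obtain ⟨-, -, -, -, -, -, b1, b2, b3, b4, b5, b6⟩ := h j' hj' j hj
    fin_cases k <;> fin_cases k'
    · exact a1
    · exact a2
    · exact a3
    · exact fun hh => b2 (by rw [add_comm]; exact hh)
    · exact a4
    · exact a5
    · exact fun hh => b3 (by rw [add_comm]; exact hh)
    · exact fun hh => b5 (by rw [add_comm]; exact hh)
    · exact a6

def x1 (s j : ℕ) : ℕ := if j < s then 3 * j + 1 else if j < 2 * s then 3 * (j - s) + 2 else if j + 1 < 3 * s then 3 * (j - 2 * s) + 3 else 3 * s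

def y1 (s j : ℕ) : ℕ := if j < s then 4 * s - j + 1 else if j < 2 * s then 8 * s - (j - s) else if j + 1 < 3 * s then 6 * s - 2 * (j - 2 * s) - 1 else 3 * s + 1

lemma cases1 (s j : ℕ) :
    (j < s ∧ x1 s j = 3 * j + 1 ∧ y1 s j = 4 * s - j + 1) ∨
    (¬ (j < s) ∧ j < 2 * s ∧ x1 s j = 3 * (j - s) + 2 ∧ y1 s j = 8 * s - (j - s)) ∨
    (¬ (j < s) ∧ ¬ (j < 2 * s) ∧ j + 1 < 3 * s ∧ x1 s j = 3 * (j - 2 * s) + 3 ∧ y1 s j = 6 * s - 2 * (j - 2 * s) - 1) ∨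
    (¬ (j < s) ∧ ¬ (j < 2 * s) ∧ ¬ (j + 1 < 3 * s) ∧ x1 s j = 3 * s ∧ y1 s j = 3 * s + 1) := by
  unfold x1 y1
  split_ifs <;> simp_all

lemma pelt1 (s : ℕ) (hs : 1 ≤ s) : Cond (18 * s + 1) (3 * s) (x1 s) (y1 s) := by
  apply Cond.of_nat
  · omega
  · intro j hj
    rcases cases1 s j with h | h | h | h <;> refine ⟨?_, ?_, ?_⟩ <;> omega
  · intro j hj
    rcases cases1 s j with h | h | h | h <;> refine ⟨?_, ?_, ?_, ?_, ?_, ?_⟩ <;> omega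
  · intro j hj j' hj'
    rcases cases1 s j with h | h | h | h <;> rcases cases1 s j' with g | g | g | g <;>
      refine ⟨?_, ?_, ?_, ?_, ?_, ?_, ?_, ?_, ?_, ?_, ?_, ?_⟩ <;> omega

def x7 (s j : ℕ) : ℕ := if j < s then 3 * j + 1 else if j < 2 * s then 3 * (j - s) + 2 else if j < 3 * s then 3 * (j - 2 * s) + 3 else 3 * s + 1

def y7 (s j : ℕ) : ℕ := if j < s then 8 * s - j + 3 else if j < 2 * s then 6 * s - 2 * (j - s) + 1 else if j < 3 * s then 4 * s - (j - 2 * s) + 1 else 4 * s + 2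

lemma cases7 (s j : ℕ) :
    (j < s ∧ x7 s j = 3 * j + 1 ∧ y7 s j = 8 * s - j + 3) ∨
    (¬ (j < s) ∧ j < 2 * s ∧ x7 s j = 3 * (j - s) + 2 ∧ y7 s j = 6 * s - 2 * (j - s) + 1) ∨
    (¬ (j < s) ∧ ¬ (j < 2 * s) ∧ j < 3 * s ∧ x7 s j = 3 * (j - 2 * s) + 3 ∧ y7 s j = 4 * s - (j - 2 * s) + 1) ∨
    (¬ (j < s) ∧ ¬ (j < 2 * s) ∧ ¬ (j < 3 * s) ∧ x7 s j = 3 * s + 1 ∧ y7 s j = 4 * s + 2) := by
  unfold x7 y7
  split_ifs <;> simp_all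

lemma pelt7 (s : ℕ) (hs : 0 ≤ s) : Cond (18 * s + 7) (3 * s + 1) (x7 s) (y7 s) := by
  apply Cond.of_nat
  · omega
  · intro j hj
    rcases cases7 s j with h | h | h | h <;> refine ⟨?_, ?_, ?_⟩ <;> omega
  · intro j hj
    rcases cases7 s j with h | h | h | h <;> refine ⟨?_, ?_, ?_, ?_, ?_, ?_⟩ <;> omega
  · intro j hj j' hj'
    rcases cases7 s j with h | h | h | h <;> rcases cases7 s j' with g | g | g | g <;>
      refine ⟨?_, ?_, ?_, ?_, ?_, ?_, ?_, ?_, ?_, ?_, ?_, ?_⟩ <;> omega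

def x13 (s j : ℕ) : ℕ := if j < s then 3 * j + 2 else if j < 2 * s then 3 * (j - s) + 3 else if j < 3 * s + 1 then 3 * (j - 2 * s) + 1 else 3 * s + 2

def y13 (s j : ℕ) : ℕ := if j < s then 6 * s - 2 * j + 3 else if j < 2 * s then 8 * s - (j - s) + 5 else if j < 3 * s + 1 then 4 * s - (j - 2 * s) + 3 else 7 * s + 5

lemma cases13 (s j : ℕ) :
    (j < s ∧ x13 s j = 3 * j + 2 ∧ y13 s j = 6 * s - 2 * j + 3) ∨
    (¬ (j < s) ∧ j < 2 * s ∧ x13 s j = 3 * (j - s) + 3 ∧ y13 s j = 8 * s - (j - s) + 5) ∨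
    (¬ (j < s) ∧ ¬ (j < 2 * s) ∧ j < 3 * s + 1 ∧ x13 s j = 3 * (j - 2 * s) + 1 ∧ y13 s j = 4 * s - (j - 2 * s) + 3) ∨
    (¬ (j < s) ∧ ¬ (j < 2 * s) ∧ ¬ (j < 3 * s + 1) ∧ x13 s j = 3 * s + 2 ∧ y13 s j = 7 * s + 5) := by
  unfold x13 y13
  split_ifs <;> simp_all

lemma pelt13 (s : ℕ) (hs : 0 ≤ s) : Cond (18 * s + 13) (3 * s + 2) (x13 s) (y13 s) := by
  apply Cond.of_nat
  · omega
  · intro j hj
    rcases cases13 s j with h | h | h | h <;> refine ⟨?_, ?_, ?_⟩ <;> omega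
  · intro j hj
    rcases cases13 s j with h | h | h | h <;> refine ⟨?_, ?_, ?_, ?_, ?_, ?_⟩ <;> omega
  · intro j hj j' hj'
    rcases cases13 s j with h | h | h | h <;> rcases cases13 s j' with g | g | g | g <;>
      refine ⟨?_, ?_, ?_, ?_, ?_, ?_, ?_, ?_, ?_, ?_, ?_, ?_⟩ <;> omega

def x3 (s j : ℕ) : ℕ := if j < s then 3 * j + 1 else if j < 2 * s then 3 * (j - s) + 2 else 3 * (j - 2 * s) + 3

def y3 (s j : ℕ) : ℕ := if j < s then 8 * s - j + 1 else if j < 2 * s then 4 * s - (j - s) else 6 * s - 2 * (j - 2 * s) - 1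

lemma cases3 (s j : ℕ) :
    (j < s ∧ x3 s j = 3 * j + 1 ∧ y3 s j = 8 * s - j + 1) ∨
    (¬ (j < s) ∧ j < 2 * s ∧ x3 s j = 3 * (j - s) + 2 ∧ y3 s j = 4 * s - (j - s)) ∨
    (¬ (j < s) ∧ ¬ (j < 2 * s) ∧ x3 s j = 3 * (j - 2 * s) + 3 ∧ y3 s j = 6 * s - 2 * (j - 2 * s) - 1) := by
  unfold x3 y3
  split_ifs <;> simp_all

lemma pelt3 (s : ℕ) (hs : 1 ≤ s) : Cond (18 * s + 3) (3 * s) (x3 s) (y3 s) := by
  apply Cond.of_nat
  · omega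
  · intro j hj
    rcases cases3 s j with h | h | h <;> refine ⟨?_, ?_, ?_⟩ <;> omega
  · intro j hj
    rcases cases3 s j with h | h | h <;> refine ⟨?_, ?_, ?_, ?_, ?_, ?_⟩ <;> omega
  · intro j hj j' hj'
    rcases cases3 s j with h | h | h <;> rcases cases3 s j' with g | g | g <;>
      refine ⟨?_, ?_, ?_, ?_, ?_, ?_, ?_, ?_, ?_, ?_, ?_, ?_⟩ <;> omega

def x9 (s j : ℕ) : ℕ := if j < s + 1 then 3 * j + 1 else if j + 2 < 2 * s then 3 * (j - (s + 1) + 2) + 2 else if j + 4 < 3 * s then 3 * (j - (2 * s - 2) + 1) + 3 else if j + 4 = 3 * s then 2 else if j + 3 = 3 * s then 3 else if j + 2 = 3 * s then 5 else if j + 1 = 3 * s then 3 * s - 1 else 3 * s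

def y9 (s j : ℕ) : ℕ := if j < s + 1 then 4 * s - j + 3 else if j + 2 < 2 * s then 8 * s - (j - (s + 1) + 2) + 2 else if j + 4 < 3 * s then 6 * s - 2 * (j - (2 * s - 2) + 1) + 1 else if j + 4 = 3 * s then 8 * s + 3 else if j + 3 = 3 * s then 8 * s + 1 else if j + 2 = 3 * s then 8 * s + 2 else if j + 1 = 3 * s then 3 * s + 2 else 7 * s + 3

lemma cases9 (s j : ℕ) :
    (j < s + 1 ∧ x9 s j = 3 * j + 1 ∧ y9 s j = 4 * s - j + 3) ∨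
    (¬ (j < s + 1) ∧ j + 2 < 2 * s ∧ x9 s j = 3 * (j - (s + 1) + 2) + 2 ∧ y9 s j = 8 * s - (j - (s + 1) + 2) + 2) ∨
    (¬ (j < s + 1) ∧ ¬ (j + 2 < 2 * s) ∧ j + 4 < 3 * s ∧ x9 s j = 3 * (j - (2 * s - 2) + 1) + 3 ∧ y9 s j = 6 * s - 2 * (j - (2 * s - 2) + 1) + 1) ∨
    (¬ (j < s + 1) ∧ ¬ (j + 2 < 2 * s) ∧ ¬ (j + 4 < 3 * s) ∧ j + 4 = 3 * s ∧ x9 s j = 2 ∧ y9 s j = 8 * s + 3) ∨
    (¬ (j < s + 1) ∧ ¬ (j + 2 < 2 * s) ∧ ¬ (j + 4 < 3 * s) ∧ ¬ (j + 4 = 3 * s) ∧ j + 3 = 3 * s ∧ x9 s j = 3 ∧ y9 s j = 8 * s + 1) ∨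
    (¬ (j < s + 1) ∧ ¬ (j + 2 < 2 * s) ∧ ¬ (j + 4 < 3 * s) ∧ ¬ (j + 4 = 3 * s) ∧ ¬ (j + 3 = 3 * s) ∧ j + 2 = 3 * s ∧ x9 s j = 5 ∧ y9 s j = 8 * s + 2) ∨
    (¬ (j < s + 1) ∧ ¬ (j + 2 < 2 * s) ∧ ¬ (j + 4 < 3 * s) ∧ ¬ (j + 4 = 3 * s) ∧ ¬ (j + 3 = 3 * s) ∧ ¬ (j + 2 = 3 * s) ∧ j + 1 = 3 * s ∧ x9 s j = 3 * s - 1 ∧ y9 s j = 3 * s + 2) ∨
    (¬ (j < s + 1) ∧ ¬ (j + 2 < 2 * s) ∧ ¬ (j + 4 < 3 * s) ∧ ¬ (j + 4 = 3 * s) ∧ ¬ (j + 3 = 3 * s) ∧ ¬ (j + 2 = 3 * s) ∧ ¬ (j + 1 = 3 * s) ∧ x9 s j = 3 * s ∧ y9 s j = 7 * s + 3) := by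
  unfold x9 y9
  split_ifs <;> simp_all

lemma pelt9 (s : ℕ) (hs : 4 ≤ s) : Cond (18 * s + 9) (3 * s + 1) (x9 s) (y9 s) := by
  apply Cond.of_nat
  · omega
  · intro j hj
    rcases cases9 s j with h | h | h | h | h | h | h | h <;> refine ⟨?_, ?_, ?_⟩ <;> omega
  · intro j hj
    rcases cases9 s j with h | h | h | h | h | h | h | h <;> refine ⟨?_, ?_, ?_, ?_, ?_, ?_⟩ <;> omega
  · intro j hj j' hj'
    rcases cases9 s j with h | h | h | h | h | h | h | h <;> rcases cases9 s j' with g | g | g | g | g | g | g | g <;>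
      refine ⟨?_, ?_, ?_, ?_, ?_, ?_, ?_, ?_, ?_, ?_, ?_, ?_⟩ <;> omega

def x15 (s j : ℕ) : ℕ := if j < s + 1 then 3 * j + 1 else if j < 2 * s + 2 then 3 * (j - (s + 1)) + 2 else 3 * (j - (2 * s + 2)) + 3

def y15 (s j : ℕ) : ℕ := if j < s + 1 then 4 * s - j + 3 else if j < 2 * s + 2 then 8 * s - (j - (s + 1)) + 6 else 6 * s - 2 * (j - (2 * s + 2)) + 3

lemma cases15 (s j : ℕ) :
    (j < s + 1 ∧ x15 s j = 3 * j + 1 ∧ y15 s j = 4 * s - j + 3) ∨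
    (¬ (j < s + 1) ∧ j < 2 * s + 2 ∧ x15 s j = 3 * (j - (s + 1)) + 2 ∧ y15 s j = 8 * s - (j - (s + 1)) + 6) ∨
    (¬ (j < s + 1) ∧ ¬ (j < 2 * s + 2) ∧ x15 s j = 3 * (j - (2 * s + 2)) + 3 ∧ y15 s j = 6 * s - 2 * (j - (2 * s + 2)) + 3) := by
  unfold x15 y15
  split_ifs <;> simp_all

lemma pelt15 (s : ℕ) (hs : 0 ≤ s) : Cond (18 * s + 15) (3 * s + 2) (x15 s) (y15 s) := by
  apply Cond.of_nat
  · omega
  · intro j hj
    rcases cases15 s j with h | h | h <;> refine ⟨?_, ?_, ?_⟩ <;> omega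
  · intro j hj
    rcases cases15 s j with h | h | h <;> refine ⟨?_, ?_, ?_, ?_, ?_, ?_⟩ <;> omega
  · intro j hj j' hj'
    rcases cases15 s j with h | h | h <;> rcases cases15 s j' with g | g | g <;>
      refine ⟨?_, ?_, ?_, ?_, ?_, ?_, ?_, ?_, ?_, ?_, ?_, ?_⟩ <;> omega

theorem exists_data (n : ℕ) (hn : n % 6 = 1 ∨ n % 6 = 3) (h63 : 81 ≤ n) :
    ∃ x y : ℕ → ℕ, Cond n (n / 6) x y := by
  obtain ⟨s, r, hsr, hr⟩ : ∃ s r, n = 18 * s + r ∧ r < 18 := ⟨n / 18, n % 18, by omega, by omega⟩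
  have h6 : r = 1 ∨ r = 7 ∨ r = 13 ∨ r = 3 ∨ r = 9 ∨ r = 15 := by omega
  rcases h6 with rfl | rfl | rfl | rfl | rfl | rfl
  · exact ⟨x1 s, y1 s, by
      have h := pelt1 s (by omega)
      rwa [hsr, show (18 * s + 1) / 6 = 3 * s by omega]⟩
  · exact ⟨x7 s, y7 s, by
      have h := pelt7 s (by omega)
      rwa [hsr, show (18 * s + 7) / 6 = 3 * s + 1 by omega]⟩
  · exact ⟨x13 s, y13 s, by
      have h := pelt13 s (by omega)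
      rwa [hsr, show (18 * s + 13) / 6 = 3 * s + 2 by omega]⟩
  · exact ⟨x3 s, y3 s, by
      have h := pelt3 s (by omega)
      rwa [hsr, show (18 * s + 3) / 6 = 3 * s by omega]⟩
  · exact ⟨x9 s, y9 s, by
      have h := pelt9 s (by omega)
      rwa [hsr, show (18 * s + 9) / 6 = 3 * s + 1 by omega]⟩
  · exact ⟨x15 s, y15 s, by
      have h := pelt15 s (by omega)
      rwa [hsr, show (18 * s + 15) / 6 = 3 * s + 2 by omega]⟩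

end Pool.Agent.H24R3.CSTS
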