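import Mathlib

set_option autoImplicit false

open Finset

namespace Pool.Agent.H24R3.CR

open Classical in
/-- proper colourings with m colours, as functions -/
noncomputable def Col {V : Type} [Fintype V] (G : SimpleGraph V) (m : ℕ) :
    Finset (V → Fin m) :=
  univ.filter (fun c => ∀ u v, G.Adj u v → c u ≠ c v)

open Classical in
/-- neighbours of a -/
noncomputable def nb {V : Type} [Fintype V] (G : SimpleGraph V) (a : V) : Finset V :=
  univ.filter (fun v => G.Adj a v)

open Classical in
/-- number of distinct colours on the neighbourhood of a -/
noncomputable def D {V : Type} [Fintype V] (G : SimpleGraph V) {m : ℕ} (c : V → Fin m)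
    (a : V) : ℕ := ((nb G a).image c).card

open Classical in
/-- proper colourings with m + 1 colours whose last colour class is exactly A -/
noncomputable def CA {V : Type} [Fintype V] (G : SimpleGraph V) (m : ℕ) (A : Finset V) :
    Finset (V → Fin (m + 1)) :=
  univ.filter (fun c => (∀ u v, G.Adj u v → c u ≠ c v) ∧ ∀ v, c v = Fin.last m ↔ v ∈ A)

variable {V : Type} [Fintype V]

lemma mem_Col (G : SimpleGraph V) (m : ℕ) (c : V → Fin m) :
    c ∈ Col G m ↔ ∀ u v, G.Adj u v → c u ≠ c v := by
  simp [Col]

lemma mem_nb (G : SimpleGraph V) (a v : V) : v ∈ nb G a ↔ G.Adj a v := by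
  simp [nb]

lemma mem_CA (G : SimpleGraph V) (m : ℕ) (A : Finset V) (c : V → Fin (m + 1)) :
    c ∈ CA G m A ↔ (∀ u v, G.Adj u v → c u ≠ c v) ∧ ∀ v, c v = Fin.last m ↔ v ∈ A := by
  simp [CA]

lemma card_coloring (G : SimpleGraph V) (m : ℕ) :
    Nat.card (G.Coloring (Fin m)) = (Col G m).card := by
  have e : G.Coloring (Fin m) ≃ {c // c ∈ Col G m} :=
    { toFun := fun C => ⟨fun v => C v, by
        rw [mem_Col]
        intro u v h
        exact C.valid h⟩
      invFun := fun c => SimpleGraph.Coloring.mk c.1 (by
        intro u v h
        exact (mem_Col G m c.1).1 c.2 u v h)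
      left_inv := fun C => by
        ext v
        rfl
      right_inv := fun c => by
        rfl }
  rw [Nat.card_congr e, Nat.card_eq_fintype_card, Fintype.card_coe]

lemma D_le (G : SimpleGraph V) {m : ℕ} (c : V → Fin m) (a : V) :
    D G c a ≤ (nb G a).card := by
  unfold D
  exact Finset.card_image_le

open Classical in
/-- Step 1. -/
lemma step1 (G : SimpleGraph V) (m : ℕ) (A : Finset V)
    (hA : ∀ a ∈ A, ∀ b ∈ A, ¬ G.Adj a b) :
    ∑ c ∈ Col G m, ∏ a ∈ A, ((m : ℝ) - (D G c a : ℝ))⁻¹ ≤ ((CA G m A).card : ℝ) := by
  set Φ : (V → Fin m) → (V → Fin (m + 1)) :=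
    fun c v => if v ∈ A then Fin.last m else (c v).castSucc with hΦ
  have hmaps : ∀ c ∈ Col G m, Φ c ∈ CA G m A := by
    intro c hc
    rw [mem_Col] at hc
    rw [mem_CA]
    refine ⟨?_, ?_⟩
    · intro u v huv
      simp only [hΦ]
      by_cases hu : u ∈ A
      · by_cases hv : v ∈ A
        · exact absurd huv (hA u hu v hv)
        · rw [if_pos hu, if_neg hv]
          exact (Fin.castSucc_lt_last _).ne'
      · by_cases hv : v ∈ A
        · rw [if_neg hu, if_pos hv]
          exact (Fin.castSucc_lt_last _).ne
        · rw [if_neg hu, if_neg hv]
          intro h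
          exact hc u v huv (Fin.castSucc_injective _ h)
    · intro v
      simp only [hΦ]
      by_cases hv : v ∈ A
      · simp [hv]
      · rw [if_neg hv]
        constructor
        · intro h
          exact absurd h (Fin.castSucc_lt_last _).ne
        · intro h
          exact absurd h hv
  rw [← Finset.sum_fiberwise_of_maps_to hmaps]
  calc ∑ c' ∈ CA G m A, ∑ c ∈ (Col G m).filter (fun c => Φ c = c'),
        ∏ a ∈ A, ((m : ℝ) - (D G c a : ℝ))⁻¹
      ≤ ∑ c' ∈ CA G m A, (1 : ℝ) := by
        apply Finset.sum_le_sum
        intro c' _
        by_cases hne : ((Col G m).filter (fun c => Φ c = c')).Nonempty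
        · obtain ⟨c0, hc0⟩ := hne
          have hc0' := (Finset.mem_filter.1 hc0)
          have hagree : ∀ c ∈ (Col G m).filter (fun c => Φ c = c'), ∀ v, v ∉ A → c v = c0 v := by
            intro c hc v hv
            have h1 := (Finset.mem_filter.1 hc).2
            have h2 := hc0'.2
            have h3 : Φ c v = Φ c0 v := by rw [h1, h2]
            simp only [hΦ] at h3
            rw [if_neg hv, if_neg hv] at h3
            exact Fin.castSucc_injective _ h3
          have himg : ∀ c ∈ (Col G m).filter (fun c => Φ c = c'), ∀ a ∈ A,
              (nb G a).image c = (nb G a).image c0 := by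
            intro c hc a ha
            apply Finset.image_congr
            intro v hv
            apply hagree c hc
            intro hvA
            exact hA a ha v hvA ((mem_nb G a v).1 (by simpa using hv))
          have hconst : ∀ c ∈ (Col G m).filter (fun c => Φ c = c'),
              ∏ a ∈ A, ((m : ℝ) - (D G c a : ℝ))⁻¹ = ∏ a ∈ A, ((m : ℝ) - (D G c0 a : ℝ))⁻¹ := by
            intro c hc
            apply Finset.prod_congr rfl
            intro a ha
            unfold D
            rw [himg c hc a ha]
          rw [Finset.sum_congr rfl hconst, Finset.sum_const, nsmul_eq_mul]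
          set F : V → Finset (Fin m) :=
            fun v => if v ∈ A then univ \ (nb G v).image c0 else {c0 v} with hF
          have hsub : (Col G m).filter (fun c => Φ c = c') ⊆ Fintype.piFinset F := by
            intro c hc
            rw [Fintype.mem_piFinset]
            intro v
            simp only [hF]
            by_cases hv : v ∈ A
            · rw [if_pos hv, Finset.mem_sdiff]
              refine ⟨Finset.mem_univ _, ?_⟩
              rw [← himg c hc v hv]
              intro hmem
              obtain ⟨w, hw, hwc⟩ := Finset.mem_image.1 hmem
              have := (mem_Col G m c).1 (Finset.mem_filter.1 hc).1 v w ((mem_nb G v w).1 hw)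
              exact this hwc.symm
            · rw [if_neg hv, Finset.mem_singleton]
              exact hagree c hc v hv
          have hcard : ((Fintype.piFinset F).card : ℝ) = ∏ a ∈ A, ((m : ℝ) - (D G c0 a : ℝ)) := by
            rw [Fintype.card_piFinset]
            push_cast
            rw [← Finset.prod_subset (Finset.subset_univ A)]
            · apply Finset.prod_congr rfl
              intro a ha
              simp only [hF]
              rw [if_pos ha]
              unfold D
              rw [Finset.card_univ_sdiff, Fintype.card_fin, Nat.cast_sub]
              have := Finset.card_le_univ ((nb G a).image c0)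
              rwa [Fintype.card_fin] at this
            · intro v _ hv
              simp only [hF]
              rw [if_neg hv]
              simp
          have hnn : 0 ≤ ∏ a ∈ A, ((m : ℝ) - (D G c0 a : ℝ))⁻¹ := by
            apply Finset.prod_nonneg
            intro a _
            apply inv_nonneg.2
            have : D G c0 a ≤ m := by
              unfold D
              have := Finset.card_le_univ ((nb G a).image c0)
              rwa [Fintype.card_fin] at this
            have : (D G c0 a : ℝ) ≤ (m : ℝ) := by exact_mod_cast this
            linarith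
          calc (((Col G m).filter (fun c => Φ c = c')).card : ℝ)
                * ∏ a ∈ A, ((m : ℝ) - (D G c0 a : ℝ))⁻¹
              ≤ ((Fintype.piFinset F).card : ℝ) * ∏ a ∈ A, ((m : ℝ) - (D G c0 a : ℝ))⁻¹ := by
                apply mul_le_mul_of_nonneg_right _ hnn
                exact_mod_cast Finset.card_le_card hsub
            _ = ∏ a ∈ A, (((m : ℝ) - (D G c0 a : ℝ)) * ((m : ℝ) - (D G c0 a : ℝ))⁻¹) := by
                rw [hcard, Finset.prod_mul_distrib]
            _ ≤ 1 := by
                apply Finset.prod_le_one
                · intro a _
                  by_cases h0 : (m : ℝ) - (D G c0 a : ℝ) = 0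
                  · rw [h0]; simp
                  · rw [mul_inv_cancel₀ h0]; norm_num
                · intro a _
                  by_cases h0 : (m : ℝ) - (D G c0 a : ℝ) = 0
                  · rw [h0]; simp
                  · rw [mul_inv_cancel₀ h0]
        · rw [Finset.not_nonempty_iff_eq_empty.1 hne]
          simp
    _ = ((CA G m A).card : ℝ) := by simp

end Pool.Agent.H24R3.CR
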