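import Pool.Agent.H24R3.ChromRatio

set_option autoImplicit false

open Finset

namespace Pool.Agent.H24R3.CR

variable {V : Type} [Fintype V]

open Classical in
/-- Step 2. -/
lemma step2 (G : SimpleGraph V) (m : ℕ) (u t : V) (hut : u ≠ t) (_hadj : ¬ G.Adj u t) :
    (m - (nb G t).card) * ((Col G m).filter (fun c => c u = c t)).card ≤ (Col G m).card := by
  set S : Finset (Σ _ : (V → Fin m), Fin m) :=
    ((Col G m).filter (fun c => c u = c t)).sigma (fun c => univ \ (nb G t).image c) with hS
  have h1 : (m - (nb G t).card) * ((Col G m).filter (fun c => c u = c t)).card ≤ S.card := by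
    rw [hS, Finset.card_sigma, mul_comm, ← smul_eq_mul, ← Finset.sum_const]
    apply Finset.sum_le_sum
    intro c _
    rw [Finset.card_univ_sdiff, Fintype.card_fin]
    have : ((nb G t).image c).card ≤ (nb G t).card := Finset.card_image_le
    omega
  refine h1.trans ?_
  apply Finset.card_le_card_of_injOn (fun p => Function.update p.1 t p.2)
  · intro p hp
    rw [Finset.mem_coe, hS, Finset.mem_sigma, Finset.mem_filter, mem_Col, Finset.mem_sdiff] at hp
    obtain ⟨⟨hc, _⟩, _, hx⟩ := hp
    rw [Finset.mem_coe, mem_Col]
    intro a b hab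
    show Function.update p.1 t p.2 a ≠ Function.update p.1 t p.2 b
    by_cases ha : a = t
    · subst ha
      have hb : b ≠ a := (G.ne_of_adj hab).symm
      rw [Function.update_self, Function.update_of_ne hb]
      intro h
      apply hx
      rw [h]
      exact Finset.mem_image_of_mem _ ((mem_nb G a b).2 hab)
    · by_cases hb : b = t
      · subst hb
        rw [Function.update_self, Function.update_of_ne ha]
        intro h
        apply hx
        rw [← h]
        exact Finset.mem_image_of_mem _ ((mem_nb G b a).2 hab.symm)
      · rw [Function.update_of_ne ha, Function.update_of_ne hb]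
        exact hc a b hab
  · intro p hp q hq hpq
    rw [Finset.mem_coe, hS, Finset.mem_sigma, Finset.mem_filter] at hp hq
    have hp2 := hp.1.2
    have hq2 := hq.1.2
    have hval : ∀ v, Function.update p.1 t p.2 v = Function.update q.1 t q.2 v := fun v =>
      congrFun hpq v
    have hx : p.2 = q.2 := by
      have := hval t
      rwa [Function.update_self, Function.update_self] at this
    have hoff : ∀ v, v ≠ t → p.1 v = q.1 v := by
      intro v hv
      have := hval v
      rwa [Function.update_of_ne hv, Function.update_of_ne hv] at this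
    have hfun : p.1 = q.1 := by
      funext v
      by_cases hv : v = t
      · rw [hv, ← hp2, ← hq2]
        exact hoff u hut
      · exact hoff v hv
    rcases p with ⟨p1, p2⟩
    rcases q with ⟨q1, q2⟩
    simp only at hx hfun
    subst hfun
    subst hx
    rfl

open Classical in
/-- Step 2b: the expected class size inside T. -/
lemma step2b (G : SimpleGraph V) (m : ℕ) (hm : Fintype.card V ≤ m + 1) (T : Finset V) (t : V)
    (ht : t ∈ T) :
    ∑ c ∈ Col G m, (T.filter (fun u => c u = c t)).card ≤ 2 * (Col G m).card := by
  have hswap : ∑ c ∈ Col G m, (T.filter (fun u => c u = c t)).card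
      = ∑ u ∈ T, ((Col G m).filter (fun c => c u = c t)).card := by
    simp only [Finset.card_filter]
    rw [Finset.sum_comm]
  rw [hswap]
  rw [← Finset.sum_erase_add _ _ ht]
  have hself : ((Col G m).filter (fun c => c t = c t)).card = (Col G m).card := by
    simp
  rw [hself]
  set S : Finset V := (T.erase t).filter (fun u => ¬ G.Adj u t) with hS
  have hsplit : ∑ u ∈ T.erase t, ((Col G m).filter (fun c => c u = c t)).card
      = ∑ u ∈ S, ((Col G m).filter (fun c => c u = c t)).card := by
    rw [hS, Finset.sum_filter]
    apply Finset.sum_congr rfl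
    intro u _
    by_cases h : G.Adj u t
    · rw [if_neg (not_not.2 h)]
      rw [Finset.card_eq_zero, Finset.filter_eq_empty_iff]
      intro c hc
      exact (mem_Col G m c).1 hc u t h
    · rw [if_pos h]
  rw [hsplit]
  have hScard : S.card ≤ m - (nb G t).card := by
    have hdisj : Disjoint S (insert t (nb G t)) := by
      rw [Finset.disjoint_left]
      intro x hx hx'
      rw [hS, Finset.mem_filter, Finset.mem_erase] at hx
      rw [Finset.mem_insert, mem_nb] at hx'
      rcases hx' with h | h
      · exact hx.1.1 h
      · exact hx.2 h.symm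
    have h1 : (S ∪ insert t (nb G t)).card ≤ Fintype.card V := Finset.card_le_univ _
    rw [Finset.card_union_of_disjoint hdisj, Finset.card_insert_of_notMem (by
      rw [mem_nb]; exact G.loopless.irrefl t)] at h1
    omega
  have hmain : ∑ u ∈ S, ((Col G m).filter (fun c => c u = c t)).card ≤ (Col G m).card := by
    rcases Nat.eq_zero_or_pos (m - (nb G t).card) with h0 | hpos
    · have : S = ∅ := by
        rw [← Finset.card_eq_zero]
        omega
      rw [this]
      simp
    · have h2 : (m - (nb G t).card) * ∑ u ∈ S, ((Col G m).filter (fun c => c u = c t)).card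
          ≤ (m - (nb G t).card) * (Col G m).card := by
        rw [Finset.mul_sum]
        calc ∑ u ∈ S, (m - (nb G t).card) * ((Col G m).filter (fun c => c u = c t)).card
            ≤ ∑ u ∈ S, (Col G m).card := by
              apply Finset.sum_le_sum
              intro u hu
              rw [hS, Finset.mem_filter, Finset.mem_erase] at hu
              exact step2 G m u t hu.1.1 hu.2
          _ = S.card * (Col G m).card := by rw [Finset.sum_const, smul_eq_mul]
          _ ≤ _ := Nat.mul_le_mul_right _ hScard
      exact Nat.le_of_mul_le_mul_left h2 hpos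
  omega

open Classical in
omit [Fintype V] in
/-- number of colours on T as a sum of reciprocals of class sizes -/
lemma card_image_eq {m : ℕ} (c : V → Fin m) (T : Finset V) :
    ((T.image c).card : ℝ) = ∑ t ∈ T, (1 : ℝ) / ((T.filter (fun u => c u = c t)).card : ℝ) := by
  rw [← Finset.sum_fiberwise_of_maps_to (s := T) (t := T.image c) (g := c)
    (fun t ht => Finset.mem_image_of_mem c ht)]
  rw [Finset.card_eq_sum_ones]
  push_cast
  apply Finset.sum_congr rfl
  intro y hy
  have hconst : ∀ t ∈ T.filter (fun t => c t = y),
      (1 : ℝ) / ((T.filter (fun u => c u = c t)).card : ℝ)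
        = (1 : ℝ) / ((T.filter (fun u => c u = y)).card : ℝ) := by
    intro t ht
    rw [(Finset.mem_filter.1 ht).2]
  rw [Finset.sum_congr rfl hconst, Finset.sum_const, nsmul_eq_mul]
  have hpos : 0 < (T.filter (fun u => c u = y)).card := by
    obtain ⟨t, ht, hty⟩ := Finset.mem_image.1 hy
    exact Finset.card_pos.2 ⟨t, Finset.mem_filter.2 ⟨ht, hty⟩⟩
  have : ((T.filter (fun u => c u = y)).card : ℝ) ≠ 0 := by positivity
  field_simp

/-- Step 2c: the expected number of colours on a neighbourhood is at least half the degree -/
lemma step2c (G : SimpleGraph V) (m : ℕ) (hm : Fintype.card V ≤ m + 1) (a : V) :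
    ((nb G a).card : ℝ) / 2 * ((Col G m).card : ℝ) ≤ ∑ c ∈ Col G m, (D G c a : ℝ) := by
  classical
  set T := nb G a with hT
  have h1 : ∀ c : V → Fin m, ∑ t ∈ T, (1 - ((T.filter (fun u => c u = c t)).card : ℝ) / 4)
      ≤ (D G c a : ℝ) := by
    intro c
    have : (D G c a : ℝ) = ((T.image c).card : ℝ) := by
      unfold D
      norm_cast
    rw [this, card_image_eq c T]
    apply Finset.sum_le_sum
    intro t ht
    have hpos : 0 < (T.filter (fun u => c u = c t)).card :=
      Finset.card_pos.2 ⟨t, Finset.mem_filter.2 ⟨ht, rfl⟩⟩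
    have hpos' : (0 : ℝ) < ((T.filter (fun u => c u = c t)).card : ℝ) := by exact_mod_cast hpos
    set x : ℝ := ((T.filter (fun u => c u = c t)).card : ℝ) with hx
    rw [le_div_iff₀ hpos']
    nlinarith [sq_nonneg (x - 2)]
  have h2 : ∑ c ∈ Col G m, ∑ t ∈ T, (1 - ((T.filter (fun u => c u = c t)).card : ℝ) / 4)
      ≤ ∑ c ∈ Col G m, (D G c a : ℝ) := Finset.sum_le_sum (fun c _ => h1 c)
  refine le_trans ?_ h2
  rw [Finset.sum_comm]
  have h3 : ∀ t ∈ T, ((Col G m).card : ℝ) / 2
      ≤ ∑ c ∈ Col G m, (1 - ((T.filter (fun u => c u = c t)).card : ℝ) / 4) := by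
    intro t ht
    have h4 := step2b G m hm T t ht
    have h5 : (∑ c ∈ Col G m, ((T.filter (fun u => c u = c t)).card : ℝ))
        ≤ 2 * ((Col G m).card : ℝ) := by exact_mod_cast h4
    rw [Finset.sum_sub_distrib, Finset.sum_const, nsmul_eq_mul, mul_one, ← Finset.sum_div]
    linarith
  calc (T.card : ℝ) / 2 * ((Col G m).card : ℝ) = ∑ t ∈ T, ((Col G m).card : ℝ) / 2 := by
        rw [Finset.sum_const, nsmul_eq_mul]; ring
    _ ≤ _ := Finset.sum_le_sum h3

end Pool.Agent.H24R3.CR
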