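import Mathlib

set_option autoImplicit false

open Finset

namespace Pool.Agent.H24R3.CR

/-- the weight -/
noncomputable def w (d : ℕ) (x : ℝ) : ℝ := ((1 + x) ^ (d + 1) - 1) / ((d : ℝ) + 1)

lemma w_nonneg (d : ℕ) {x : ℝ} (hx : 0 ≤ x) : 0 ≤ w d x := by
  unfold w
  apply div_nonneg
  · have : (1 : ℝ) ≤ (1 + x) ^ (d + 1) := one_le_pow₀ (by linarith)
    linarith
  · positivity

lemma hasDerivAt_w (d : ℕ) (x : ℝ) : HasDerivAt (w d) ((1 + x) ^ d) x := by
  have h1 : HasDerivAt (fun x : ℝ => 1 + x) 1 x := by
    simpa using (hasDerivAt_id x).const_add 1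
  have h2 := ((h1.pow (d + 1)).sub_const 1).div_const ((d : ℝ) + 1)
  have h3 : (↑(d + 1) * (1 + x) ^ (d + 1 - 1) * 1) / ((d : ℝ) + 1) = (1 + x) ^ d := by
    have : ((d : ℝ) + 1) ≠ 0 := by positivity
    simp only [Nat.add_sub_cancel]
    push_cast
    field_simp
  rw [h3] at h2
  exact h2

/-- numeric inequality -/
lemma numeric (d : ℕ) {e : ℝ} (he : 0 ≤ e) (hd : (d : ℝ) * e ≤ 2) :
    ((1 + e) ^ (d + 1) - 1) * (1 - d * e / 2) ≤ ((d : ℝ) + 1) * e := by
  induction d with
  | zero => simp
  | succ d ih =>
    push_cast at hd ⊢
    have hd' : (d : ℝ) * e ≤ 2 := by nlinarith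
    have h := ih hd'
    set a : ℝ := (1 + e) ^ (d + 1) - 1 with ha
    have hrec : (1 + e) ^ (d + 1 + 1) - 1 = (1 + e) * a + e := by
      rw [ha, pow_succ]; ring
    rw [hrec]
    have h0 : 0 ≤ 1 - ((d : ℝ) + 1) * e / 2 := by linarith
    have hd0 : (0 : ℝ) ≤ d := by positivity
    rcases he.eq_or_lt with h00 | hepos
    · have : a = 0 := by rw [ha, ← h00]; simp
      rw [this, ← h00]; simp
    · have hpos : 0 < 1 - (d : ℝ) * e / 2 := by nlinarith
      -- a ≤ (d+1) e / (1 - d e / 2)
      have key : ((1 + e) * a + e) * (1 - ((d : ℝ) + 1) * e / 2) * (1 - d * e / 2)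
          ≤ ((d : ℝ) + 1 + 1) * e * (1 - d * e / 2) := by
        have h1 : ((1 + e) * a + e) * (1 - d * e / 2)
            ≤ (1 + e) * (((d : ℝ) + 1) * e) + e * (1 - d * e / 2) := by nlinarith
        have h2 : ((1 + e) * a + e) * (1 - ((d : ℝ) + 1) * e / 2) * (1 - d * e / 2)
            ≤ ((1 + e) * (((d : ℝ) + 1) * e) + e * (1 - d * e / 2))
              * (1 - ((d : ℝ) + 1) * e / 2) := by
          have := mul_le_mul_of_nonneg_right h1 h0
          linarith
        have h3 : ((1 + e) * (((d : ℝ) + 1) * e) + e * (1 - d * e / 2))
              * (1 - ((d : ℝ) + 1) * e / 2)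
            = ((d : ℝ) + 2) * e * (1 - d * e / 2) - ((d : ℝ) + 2) * e * (((d : ℝ) + 1) * e ^ 2 / 4)
            := by ring
        have h4 : 0 ≤ ((d : ℝ) + 2) * e * (((d : ℝ) + 1) * e ^ 2 / 4) := by positivity
        linarith
      exact le_of_mul_le_mul_right key hpos

variable {V : Type}

open Classical in
/-- independent subsets of U -/
noncomputable def indep (G : SimpleGraph V) (U : Finset V) : Finset (Finset V) :=
  U.powerset.filter (fun A => ∀ a ∈ A, ∀ b ∈ A, ¬ G.Adj a b)

lemma mem_indep (G : SimpleGraph V) (U A : Finset V) :
    A ∈ indep G U ↔ A ⊆ U ∧ ∀ a ∈ A, ∀ b ∈ A, ¬ G.Adj a b := by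
  simp [indep]

open Classical in
/-- Caro-Wei type lower bound for the weighted independence polynomial. -/
lemma caro (G : SimpleGraph V) (d : V → ℕ) :
    ∀ (n : ℕ) (U : Finset V), U.card = n →
      (∀ a ∈ U, (U.filter (fun v => G.Adj a v)).card ≤ d a) →
      ∀ x : ℝ, 0 ≤ x → (1 + x) ^ U.card ≤ ∑ A ∈ indep G U, ∏ a ∈ A, w (d a) x := by
  intro n
  induction n using Nat.strong_induction_on with
  | _ n ih =>
    intro U hU hd x hx
    set F : ℝ → ℝ := fun x => ∑ A ∈ indep G U, ∏ a ∈ A, w (d a) x with hF
    set F' : ℝ → ℝ := fun x => ∑ A ∈ indep G U, ∑ a ∈ A, (∏ b ∈ A.erase a, w (d b) x) * (1 + x) ^ (d a)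
      with hF'
    have hderF : ∀ x, HasDerivAt F (F' x) x := by
      intro x
      apply HasDerivAt.fun_sum
      intro A _
      have := HasDerivAt.fun_finsetProd (u := A) (f := fun a x => w (d a) x)
        (f' := fun a => (1 + x) ^ (d a)) (x := x) (fun a _ => hasDerivAt_w (d a) x)
      simpa [smul_eq_mul] using this
    have hderP : ∀ x : ℝ, HasDerivAt (fun x : ℝ => (1 + x) ^ U.card)
        (U.card * (1 + x) ^ (U.card - 1)) x := by
      intro x
      have h1 : HasDerivAt (fun x : ℝ => 1 + x) 1 x := by
        simpa using (hasDerivAt_id x).const_add 1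
      simpa using h1.fun_pow U.card
    have hmain : ∀ x : ℝ, 0 ≤ x → (U.card : ℝ) * (1 + x) ^ (U.card - 1) ≤ F' x := by
      intro x hx
      have h1x : (1 : ℝ) ≤ 1 + x := by linarith
      have hterm : ∀ a ∈ U, (1 + x) ^ (U.card - 1)
          ≤ (1 + x) ^ (d a) * ∑ B ∈ indep G ((U.erase a).filter (fun v => ¬ G.Adj a v)),
              ∏ b ∈ B, w (d b) x := by
        intro a ha
        set U' := (U.erase a).filter (fun v => ¬ G.Adj a v) with hU'
        have hlt : U'.card < n := by
          rw [← hU]
          calc U'.card ≤ (U.erase a).card := Finset.card_filter_le _ _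
            _ < U.card := Finset.card_erase_lt_of_mem ha
        have hsubU : U' ⊆ U := (Finset.filter_subset _ _).trans (Finset.erase_subset _ _)
        have h1 := ih U'.card hlt U' rfl (by
          intro b hb
          refine le_trans ?_ (hd b (hsubU hb))
          apply Finset.card_le_card
          intro v hv
          rw [Finset.mem_filter] at hv ⊢
          exact ⟨hsubU hv.1, hv.2⟩) x hx
        have hcard : U.card - 1 ≤ d a + U'.card := by
          have h2 := hd a ha
          have h3 : (U.erase a).card = U.card - 1 := Finset.card_erase_of_mem ha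
          have h4 : ((U.erase a).filter (fun v => G.Adj a v)).card + U'.card
              = (U.erase a).card := by
            rw [hU']
            convert Finset.card_filter_add_card_filter_not (s := U.erase a)
              (fun v => G.Adj a v)
          have h5 : ((U.erase a).filter (fun v => G.Adj a v)).card
              ≤ (U.filter (fun v => G.Adj a v)).card := by
            apply Finset.card_le_card
            exact Finset.filter_subset_filter _ (Finset.erase_subset _ _)
          omega
        calc (1 + x) ^ (U.card - 1) ≤ (1 + x) ^ (d a + U'.card) := pow_le_pow_right₀ h1x hcard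
          _ = (1 + x) ^ (d a) * (1 + x) ^ U'.card := pow_add _ _ _
          _ ≤ _ := mul_le_mul_of_nonneg_left h1 (by positivity)
      calc (U.card : ℝ) * (1 + x) ^ (U.card - 1) = ∑ a ∈ U, (1 + x) ^ (U.card - 1) := by
            rw [Finset.sum_const, nsmul_eq_mul]
        _ ≤ ∑ a ∈ U, (1 + x) ^ (d a) * ∑ B ∈ indep G ((U.erase a).filter (fun v => ¬ G.Adj a v)),
              ∏ b ∈ B, w (d b) x := Finset.sum_le_sum hterm
        _ = ∑ p ∈ U.sigma (fun a => indep G ((U.erase a).filter (fun v => ¬ G.Adj a v))),
              (∏ b ∈ p.2, w (d b) x) * (1 + x) ^ (d p.1) := by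
            rw [Finset.sum_sigma]
            apply Finset.sum_congr rfl
            intro a _
            rw [Finset.mul_sum]
            apply Finset.sum_congr rfl
            intro B _
            ring
        _ ≤ ∑ p ∈ (indep G U).sigma (fun A => A),
              (∏ b ∈ p.1.erase p.2, w (d b) x) * (1 + x) ^ (d p.2) := by
            set φ : (Σ _ : V, Finset V) → (Σ _ : Finset V, V) := fun p => ⟨insert p.1 p.2, p.1⟩
              with hφ
            set S1 := U.sigma (fun a => indep G ((U.erase a).filter (fun v => ¬ G.Adj a v))) with hS1
            have hnotin : ∀ p ∈ S1, p.1 ∉ p.2 := by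
              intro p hp h
              rw [hS1, Finset.mem_sigma, mem_indep] at hp
              have := hp.2.1 h
              rw [Finset.mem_filter, Finset.mem_erase] at this
              exact this.1.1 rfl
            have hinj : Set.InjOn φ S1 := by
              intro p hp q hq hpq
              have hp' := hnotin p hp
              have hq' := hnotin q hq
              rcases p with ⟨p1, p2⟩
              rcases q with ⟨q1, q2⟩
              simp only [hφ, Sigma.mk.injEq] at hpq
              obtain ⟨h1, h2⟩ := hpq
              have h2 := eq_of_heq h2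
              subst h2
              have hp'' : p1 ∉ p2 := hp'
              have hq'' : p1 ∉ q2 := hq'
              have : p2 = q2 := by
                rw [← Finset.erase_insert hp'', ← Finset.erase_insert hq'', h1]
              rw [this]
            calc ∑ p ∈ S1, (∏ b ∈ p.2, w (d b) x) * (1 + x) ^ (d p.1)
                = ∑ p ∈ S1, (fun q : (Σ _ : Finset V, V) =>
                    (∏ b ∈ q.1.erase q.2, w (d b) x) * (1 + x) ^ (d q.2)) (φ p) := by
                  apply Finset.sum_congr rfl
                  intro p hp
                  simp only [hφ]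
                  rw [Finset.erase_insert (hnotin p hp)]
              _ = ∑ q ∈ S1.image φ, (∏ b ∈ q.1.erase q.2, w (d b) x) * (1 + x) ^ (d q.2) := by
                  rw [Finset.sum_image hinj]
              _ ≤ _ := by
                  apply Finset.sum_le_sum_of_subset_of_nonneg
                  · intro q hq
                    obtain ⟨p, hp, rfl⟩ := Finset.mem_image.1 hq
                    rw [hS1, Finset.mem_sigma, mem_indep] at hp
                    obtain ⟨hpU, hpsub, hpind⟩ := hp
                    rw [Finset.mem_sigma, mem_indep]
                    refine ⟨⟨?_, ?_⟩, Finset.mem_insert_self _ _⟩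
                    · intro v hv
                      rcases Finset.mem_insert.1 hv with h | h
                      · rw [h]; exact hpU
                      · exact Finset.mem_of_mem_erase (Finset.mem_filter.1 (hpsub h)).1
                    · intro a ha b hb
                      have ha' : a = p.1 ∨ a ∈ p.2 := Finset.mem_insert.1 ha
                      have hb' : b = p.1 ∨ b ∈ p.2 := Finset.mem_insert.1 hb
                      rcases ha' with h | h
                      · rcases hb' with h' | h'
                        · rw [h, h']; exact G.loopless.irrefl _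
                        · rw [h]; exact (Finset.mem_filter.1 (hpsub h')).2
                      · rcases hb' with h' | h'
                        · rw [h']
                          intro hadj
                          exact (Finset.mem_filter.1 (hpsub h)).2 hadj.symm
                        · exact hpind a h b h'
                  · intro q _ _
                    apply mul_nonneg
                    · exact Finset.prod_nonneg (fun b _ => w_nonneg (d b) hx)
                    · positivity
        _ = F' x := by
            rw [Finset.sum_sigma]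
    -- monotonicity
    have hmono : MonotoneOn (fun x => F x - (1 + x) ^ U.card) (Set.Ici 0) := by
      apply monotoneOn_of_deriv_nonneg (convex_Ici 0)
      · apply ContinuousOn.sub
        · exact fun x _ => (hderF x).continuousAt.continuousWithinAt
        · exact fun x _ => (hderP x).continuousAt.continuousWithinAt
      · intro x _
        exact ((hderF x).sub (hderP x)).differentiableAt.differentiableWithinAt
      · intro x hx
        rw [interior_Ici, Set.mem_Ioi] at hx
        have : HasDerivAt (fun x => F x - (1 + x) ^ U.card)
          (F' x - U.card * (1 + x) ^ (U.card - 1)) x := (hderF x).fun_sub (hderP x)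
        rw [this.deriv]
        linarith [hmain x hx.le]
    have h0 : (1 : ℝ) ≤ F 0 := by
      have hmem : (∅ : Finset V) ∈ indep G U := by
        rw [mem_indep]
        refine ⟨Finset.empty_subset _, ?_⟩
        intro a ha
        exact absurd ha (Finset.notMem_empty a)
      have := Finset.single_le_sum (s := indep G U) (f := fun A => ∏ a ∈ A, w (d a) 0)
        (fun A _ => Finset.prod_nonneg (fun b _ => w_nonneg (d b) le_rfl)) hmem
      simpa using this
    have hfin := hmono (Set.mem_Ici.2 le_rfl) (Set.mem_Ici.2 hx) hx
    simp only [add_zero, one_pow] at hfin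
    linarith

end Pool.Agent.H24R3.CR
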