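import Pool.Agent.H24R3.ChromRatio2
import Pool.Agent.H24R3.ChromRatio3

set_option autoImplicit false

open Finset

namespace Pool.Agent.H24R3.CR

variable {V : Type} [Fintype V]

open Classical in
/-- colourings whose last colour avoids K -/
noncomputable def av (G : SimpleGraph V) (m : ℕ) (K : Finset V) (x : Fin (m + 1)) :
    Finset (V → Fin (m + 1)) :=
  (Col G (m + 1)).filter (fun c => ∀ k ∈ K, c k ≠ x)

open Classical in
lemma av_card (G : SimpleGraph V) (m : ℕ) (K : Finset V) (x y : Fin (m + 1)) :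
    (av G m K x).card ≤ (av G m K y).card := by
  apply Finset.card_le_card_of_injOn (fun c v => Equiv.swap x y (c v))
  · intro c hc
    rw [Finset.mem_coe, av, Finset.mem_filter, mem_Col] at hc ⊢
    refine ⟨?_, ?_⟩
    · intro u v huv h
      exact hc.1 u v huv ((Equiv.swap x y).injective h)
    · intro k hk h
      apply hc.2 k hk
      have h' : Equiv.swap x y (c k) = y := h
      exact (Equiv.swap x y).injective (h'.trans (Equiv.swap_apply_left x y).symm)
  · intro c _ c' _ h
    funext v
    exact (Equiv.swap x y).injective (congrFun h v)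

open Classical in
/-- Step 3: symmetry. -/
lemma step3 (G : SimpleGraph V) (m : ℕ) (K : Finset V) (hK : G.IsClique K) (y : Fin (m + 1)) :
    (m + 1) * (av G m K y).card = (m + 1 - K.card) * (Col G (m + 1)).card := by
  have h1 : ∑ x : Fin (m + 1), (av G m K x).card = (m + 1) * (av G m K y).card := by
    rw [Finset.sum_congr rfl (fun x _ => le_antisymm (av_card G m K x y) (av_card G m K y x))]
    simp
  have h2 : ∑ x : Fin (m + 1), (av G m K x).card
      = ∑ c ∈ Col G (m + 1), (univ.filter (fun x : Fin (m + 1) => ∀ k ∈ K, c k ≠ x)).card := by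
    unfold av
    simp only [Finset.card_filter]
    rw [Finset.sum_comm]
  have h3 : ∀ c ∈ Col G (m + 1),
      (univ.filter (fun x : Fin (m + 1) => ∀ k ∈ K, c k ≠ x)).card = m + 1 - K.card := by
    intro c hc
    have h4 : univ.filter (fun x : Fin (m + 1) => ∀ k ∈ K, c k ≠ x) = univ \ K.image c := by
      ext x
      simp
    rw [h4, Finset.card_univ_sdiff, Fintype.card_fin]
    rw [Finset.card_image_of_injOn]
    intro a ha b hb hab
    by_contra hne
    exact (mem_Col G _ c).1 hc a b (hK ha hb hne) hab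
  rw [← h1, h2, Finset.sum_congr rfl h3, Finset.sum_const, smul_eq_mul, mul_comm]

open Classical in
/-- Step 4: partition by the last colour class. -/
lemma step4 (G : SimpleGraph V) (m : ℕ) (K : Finset V) :
    ∑ A ∈ indep G (univ \ K), (CA G m A).card ≤ (av G m K (Fin.last m)).card := by
  rw [← Finset.card_biUnion]
  · apply Finset.card_le_card
    intro c hc
    obtain ⟨A, hA, hcA⟩ := Finset.mem_biUnion.1 hc
    rw [mem_indep] at hA
    rw [mem_CA] at hcA
    rw [av, Finset.mem_filter, mem_Col]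
    refine ⟨hcA.1, ?_⟩
    intro k hk h
    have := hA.1 ((hcA.2 k).1 h)
    rw [Finset.mem_sdiff] at this
    exact this.2 hk
  · intro A _ B _ hAB
    rw [Function.onFun, Finset.disjoint_left]
    intro c hcA hcB
    rw [mem_CA] at hcA hcB
    apply hAB
    ext v
    rw [← hcA.2 v, ← hcB.2 v]

omit [Fintype V] in
/-- tangent plane inequality -/
lemma tangent (A : Finset V) (y : V → ℝ) (hy : ∀ a ∈ A, 0 < y a) :
    1 + ∑ a ∈ A, (1 - y a) ≤ ∏ a ∈ A, (y a)⁻¹ := by
  have hpos : 0 < ∏ a ∈ A, (y a)⁻¹ := Finset.prod_pos (fun a ha => inv_pos.2 (hy a ha))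
  have h1 : Real.log (∏ a ∈ A, (y a)⁻¹) = ∑ a ∈ A, -Real.log (y a) := by
    rw [Real.log_prod]
    · apply Finset.sum_congr rfl
      intro a _
      rw [Real.log_inv]
    · intro a ha
      exact (inv_pos.2 (hy a ha)).ne'
  have h2 := Real.log_le_sub_one_of_pos hpos
  have h3 : ∑ a ∈ A, (1 - y a) ≤ ∑ a ∈ A, -Real.log (y a) := by
    apply Finset.sum_le_sum
    intro a ha
    have := Real.log_le_sub_one_of_pos (hy a ha)
    linarith
  linarith

/-- Main estimate for one independent set. -/
lemma main_A (G : SimpleGraph V) (m : ℕ) (hm : Fintype.card V ≤ m + 1) (A : Finset V)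
    (hA : ∀ a ∈ A, ∀ b ∈ A, ¬ G.Adj a b) (hdeg : ∀ a ∈ A, (nb G a).card < m)
    (hm0 : 0 < m) :
    ((Col G m).card : ℝ) * ∏ a ∈ A, w (nb G a).card (1 / (m : ℝ)) ≤ ((CA G m A).card : ℝ) := by
  refine le_trans ?_ (step1 G m A hA)
  have hmpos : (0 : ℝ) < m := by exact_mod_cast hm0
  set W : V → ℝ := fun a => w (nb G a).card (1 / (m : ℝ)) with hW
  have hWpos : ∀ a, 0 < W a := by
    intro a
    simp only [hW]
    unfold w
    apply div_pos
    · have : (1 : ℝ) < (1 + 1 / (m : ℝ)) ^ ((nb G a).card + 1) := by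
        apply one_lt_pow₀
        · have : 0 < 1 / (m : ℝ) := by positivity
          linarith
        · omega
      linarith
    · positivity
  have hWle : ∀ a ∈ A, W a * ((m : ℝ) - ((nb G a).card : ℝ) / 2) ≤ 1 := by
    intro a ha
    have hd := hdeg a ha
    have hd' : ((nb G a).card : ℝ) < m := by exact_mod_cast hd
    have hn := numeric (nb G a).card (e := 1 / (m : ℝ)) (by positivity) (by
      rw [mul_one_div, div_le_iff₀ hmpos]; linarith)
    simp only [hW]
    unfold w
    rw [div_mul_eq_mul_div, div_le_one (by positivity)]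
    have h1 : ((1 + 1 / (m : ℝ)) ^ ((nb G a).card + 1) - 1)
          * ((m : ℝ) - ((nb G a).card : ℝ) / 2)
        = (((1 + 1 / (m : ℝ)) ^ ((nb G a).card + 1) - 1)
          * (1 - ((nb G a).card : ℝ) * (1 / (m : ℝ)) / 2)) * m := by
      field_simp
    rw [h1]
    calc _ ≤ ((((nb G a).card : ℝ) + 1) * (1 / (m : ℝ))) * m :=
          mul_le_mul_of_nonneg_right hn hmpos.le
      _ = ((nb G a).card : ℝ) + 1 := by field_simp
  -- pointwise
  have hpt : ∀ c ∈ Col G m, (∏ a ∈ A, W a) * (1 + ∑ a ∈ A, (1 - ((m : ℝ) - (D G c a : ℝ)) * W a))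
      ≤ ∏ a ∈ A, ((m : ℝ) - (D G c a : ℝ))⁻¹ := by
    intro c _
    have hDpos : ∀ a ∈ A, 0 < ((m : ℝ) - (D G c a : ℝ)) := by
      intro a ha
      have h1 : D G c a < m := lt_of_le_of_lt (D_le G c a) (hdeg a ha)
      have : (D G c a : ℝ) < m := by exact_mod_cast h1
      linarith
    have ht := tangent A (fun a => ((m : ℝ) - (D G c a : ℝ)) * W a)
      (fun a ha => mul_pos (hDpos a ha) (hWpos a))
    have hWprod : 0 < ∏ a ∈ A, W a := Finset.prod_pos (fun a _ => hWpos a)
    have := mul_le_mul_of_nonneg_left ht hWprod.le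
    refine this.trans (le_of_eq ?_)
    rw [← Finset.prod_mul_distrib]
    apply Finset.prod_congr rfl
    intro a ha
    have h1 := (hDpos a ha).ne'
    have h2 := (hWpos a).ne'
    field_simp
  calc ((Col G m).card : ℝ) * ∏ a ∈ A, W a
      ≤ ∑ c ∈ Col G m, (∏ a ∈ A, W a) * (1 + ∑ a ∈ A, (1 - ((m : ℝ) - (D G c a : ℝ)) * W a)) := by
        rw [← Finset.mul_sum, mul_comm]
        apply mul_le_mul_of_nonneg_left _ (Finset.prod_nonneg (fun a _ => (hWpos a).le))
        rw [Finset.sum_add_distrib, Finset.sum_const, nsmul_eq_mul, mul_one, Finset.sum_comm]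
        have : 0 ≤ ∑ a ∈ A, ∑ c ∈ Col G m, (1 - ((m : ℝ) - (D G c a : ℝ)) * W a) := by
          apply Finset.sum_nonneg
          intro a ha
          have h1 := step2c G m hm a
          have h2 : ∑ c ∈ Col G m, (1 - ((m : ℝ) - (D G c a : ℝ)) * W a)
              = ((Col G m).card : ℝ) - ((Col G m).card : ℝ) * m * W a
                + (∑ c ∈ Col G m, (D G c a : ℝ)) * W a := by
            rw [Finset.sum_sub_distrib, Finset.sum_const, nsmul_eq_mul, mul_one,
              ← Finset.sum_mul, Finset.sum_sub_distrib, Finset.sum_const, nsmul_eq_mul]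
            ring
          rw [h2]
          have h3 := mul_le_mul_of_nonneg_right h1 (hWpos a).le
          have h4 := mul_le_mul_of_nonneg_left (hWle a ha) (Nat.cast_nonneg (α := ℝ) (Col G m).card)
          nlinarith
        linarith
    _ ≤ _ := Finset.sum_le_sum hpt

/-- Main theorem. -/
theorem main (G : SimpleGraph V) (m : ℕ) (hm : Fintype.card V ≤ m + 1) (hm0 : 0 < m)
    (K : Finset V) (hK : G.IsClique K)
    (hmax : ∀ a, a ∉ K → ∃ k ∈ K, ¬ G.Adj a k) :
    ((m : ℝ) + 1) * (((Col G m).card : ℝ) * (1 + 1 / (m : ℝ)) ^ (Fintype.card V - K.card))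
      ≤ ((m : ℝ) + 1 - K.card) * ((Col G (m + 1)).card : ℝ) := by
  classical
  have h3 := step3 G m K hK (Fin.last m)
  have hKle : K.card ≤ m + 1 := (Finset.card_le_univ K).trans hm
  have h3' : ((m : ℝ) + 1) * ((av G m K (Fin.last m)).card : ℝ)
      = ((m : ℝ) + 1 - K.card) * ((Col G (m + 1)).card : ℝ) := by
    have : (((m + 1) * (av G m K (Fin.last m)).card : ℕ) : ℝ)
        = (((m + 1 - K.card) * (Col G (m + 1)).card : ℕ) : ℝ) := by rw [h3]
    push_cast [Nat.cast_sub hKle] at this
    exact this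
  rw [← h3']
  apply mul_le_mul_of_nonneg_left _ (by positivity)
  have h4 := step4 G m K
  have h4' : (∑ A ∈ indep G (univ \ K), ((CA G m A).card : ℝ))
      ≤ ((av G m K (Fin.last m)).card : ℝ) := by exact_mod_cast h4
  refine le_trans ?_ h4'
  have hcaro := caro G (fun a => (nb G a).card) (univ \ K).card (univ \ K) rfl
    (by
      intro a _
      apply Finset.card_le_card
      intro v hv
      rw [Finset.mem_filter] at hv
      rw [mem_nb]
      exact hv.2) (1 / (m : ℝ)) (by positivity)
  rw [Finset.card_univ_sdiff] at hcaro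
  refine le_trans (mul_le_mul_of_nonneg_left hcaro (Nat.cast_nonneg _)) ?_
  rw [Finset.mul_sum]
  apply Finset.sum_le_sum
  intro A hA
  rw [mem_indep] at hA
  apply main_A G m hm A hA.2 _ hm0
  intro a ha
  have haK : a ∉ K := by
    have := hA.1 ha
    rw [Finset.mem_sdiff] at this
    exact this.2
  obtain ⟨k, hk, hak⟩ := hmax a haK
  have hne : a ≠ k := by
    intro h
    exact haK (h ▸ hk)
  have h5 : (insert a (insert k (nb G a))).card ≤ Fintype.card V := Finset.card_le_univ _
  rw [Finset.card_insert_of_notMem, Finset.card_insert_of_notMem] at h5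
  · omega
  · rw [mem_nb]; exact hak
  · rw [Finset.mem_insert, mem_nb]
    push Not
    exact ⟨hne, G.loopless.irrefl a⟩

end Pool.Agent.H24R3.CR
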