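import Mathlib

set_option autoImplicit false

/-!
Eulerian numbers by insertion of the largest value. The recurrence below is taken from
`Pool/Agent/Results/MP_b5b5b8_co/SmallMinors.lean` (earlier round, helper978 and helper17).
-/

namespace Pool.Agent.H24R3.Eul


/-- the number of descents of a permutation of `n + 1` elements -/
def des {n : ℕ} (σ : Equiv.Perm (Fin (n + 1))) : ℕ :=
  ((Finset.univ : Finset (Fin n)).filter (fun i => σ i.succ < σ i.castSucc)).card

/-- the number of permutations of `n + 1` elements with exactly `k` descents: the entry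
`a_{n,k} = A(n+1,k)` of the matrix of Eulerian numbers -/
def E (n k : ℕ) : ℤ :=
  (((Finset.univ : Finset (Equiv.Perm (Fin (n + 1)))).filter
    (fun σ => ((Finset.univ : Finset (Fin n)).filter
      (fun i => σ i.succ < σ i.castSucc)).card = k)).card : ℤ)

/-- number of descents of a function on `0, ..., n` -/
def dn (f : ℕ → ℕ) (n : ℕ) : ℕ := ∑ i ∈ Finset.range n, if f (i + 1) < f i then 1 else 0

/-- insertion of the value `M` at the place `p` -/
def ins (f : ℕ → ℕ) (p M : ℕ) (i : ℕ) : ℕ := if i < p then f i else if i = p then M else f (i - 1)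

theorem dn_succ (f : ℕ → ℕ) (n : ℕ) :
    dn f (n + 1) = dn f n + if f (n + 1) < f n then 1 else 0 := Finset.sum_range_succ _ _

theorem ins_lt (f : ℕ → ℕ) (p M i : ℕ) (h : i < p) : ins f p M i = f i := if_pos h

theorem ins_eq (f : ℕ → ℕ) (p M : ℕ) : ins f p M p = M := by simp [ins]

theorem ins_gt (f : ℕ → ℕ) (p M i : ℕ) (h : p ≤ i) : ins f p M (i + 1) = f i := by
  unfold ins
  rw [if_neg (by omega), if_neg (by omega)]
  simp

theorem ins_last (f : ℕ → ℕ) (M n : ℕ) (hM : ∀ i ≤ n, f i < M) :
    dn (ins f (n + 1) M) (n + 1) = dn f n := by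
  rw [dn_succ, ins_eq, ins_lt _ _ _ _ (Nat.lt_succ_self n),
    if_neg (by have := hM n le_rfl; omega), add_zero]
  unfold dn
  apply Finset.sum_congr rfl
  intro i hi
  rw [Finset.mem_range] at hi
  rw [ins_lt _ _ _ _ (by omega), ins_lt _ _ _ _ (by omega)]

theorem ins_mid (f : ℕ → ℕ) (M p n : ℕ) (hp : p ≤ n) (hM : ∀ i ≤ n, f i < M) :
    dn (ins f p M) (n + 1) + (if 1 ≤ p ∧ f p < f (p - 1) then 1 else 0) = dn f n + 1 := by
  induction n, hp using Nat.le_induction with
  | base =>
    have h1 : ins f p M (p + 1) < ins f p M p := by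
      rw [ins_eq, ins_gt _ _ _ _ le_rfl]
      exact hM p le_rfl
    rw [dn_succ, if_pos h1]
    cases p with
    | zero => simp [dn]
    | succ q =>
      rw [ins_last f M q (fun i hi => hM i (by omega)), dn_succ]
      have : q + 1 - 1 = q := by omega
      rw [this]
      simp only [Nat.le_add_left, true_and]
      omega
  | succ n hn ih =>
    have h2 := ih (fun i hi => hM i (by omega))
    rw [dn_succ, ins_gt _ _ _ (n + 1) (by omega), ins_gt _ _ _ n hn, dn_succ f n]
    omega

/-- the values of a permutation as a function on `ℕ` -/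
def vf {n : ℕ} (τ : Equiv.Perm (Fin (n + 1))) (i : ℕ) : ℕ :=
  if h : i < n + 1 then (τ ⟨i, h⟩).val else 0

theorem vf_val {n : ℕ} (τ : Equiv.Perm (Fin (n + 1))) (i : Fin (n + 1)) :
    vf τ i.val = (τ i).val := by
  unfold vf
  rw [dif_pos i.2]

theorem des_dn {n : ℕ} (τ : Equiv.Perm (Fin (n + 1))) : des τ = dn (vf τ) n := by
  unfold des dn
  rw [Finset.card_filter, Finset.sum_range]
  apply Finset.sum_congr rfl
  intro i _
  have h1 := vf_val τ i.succ
  have h2 := vf_val τ i.castSucc
  rw [Fin.val_succ] at h1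
  rw [Fin.val_castSucc] at h2
  rw [h1, h2]
  simp only [Fin.lt_def]

/-- insertion of the largest value at the place `p` -/
def Ph {n : ℕ} (x : Fin (n + 2) × Equiv.Perm (Fin (n + 1))) : Equiv.Perm (Fin (n + 2)) :=
  (finSuccEquiv' x.1).trans ((Equiv.optionCongr x.2).trans (finSuccEquiv' (Fin.last (n + 1))).symm)

theorem Ph_self {n : ℕ} (p : Fin (n + 2)) (τ : Equiv.Perm (Fin (n + 1))) :
    Ph (p, τ) p = Fin.last (n + 1) := by
  simp [Ph]

theorem Ph_succAbove {n : ℕ} (p : Fin (n + 2)) (τ : Equiv.Perm (Fin (n + 1))) (i : Fin (n + 1)) :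
    Ph (p, τ) (p.succAbove i) = (τ i).castSucc := by
  simp [Ph]

theorem Ph_bij {n : ℕ} : Function.Bijective (Ph (n := n)) := by
  rw [Fintype.bijective_iff_injective_and_card]
  constructor
  · rintro ⟨p, τ⟩ ⟨p', τ'⟩ h
    have h1 : p = p' := by
      apply (Ph (p, τ)).injective
      rw [Ph_self, h, Ph_self]
    subst h1
    congr 1
    ext i
    have h2 := congrArg (fun e : Equiv.Perm (Fin (n + 2)) => (e (p.succAbove i)).val) h
    simp only [Ph_succAbove, Fin.val_castSucc] at h2
    exact h2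
  · rw [Fintype.card_prod, Fintype.card_perm, Fintype.card_perm, Fintype.card_fin,
      Fintype.card_fin, Nat.factorial_succ (n + 1)]

theorem vf_Ph {n : ℕ} (p : Fin (n + 2)) (τ : Equiv.Perm (Fin (n + 1))) (i : ℕ) (hi : i ≤ n + 1) :
    vf (Ph (p, τ)) i = ins (vf τ) p.val (n + 1) i := by
  have e1 : vf (Ph (p, τ)) i = (Ph (p, τ) ⟨i, by omega⟩).val := vf_val (Ph (p, τ)) ⟨i, by omega⟩
  rw [e1]
  unfold ins
  rcases lt_trichotomy i p.val with h | h | h
  · rw [if_pos h]
    have hi' : i < n + 1 := by have := p.2; omega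
    have h1 : p.succAbove ⟨i, hi'⟩ = ⟨i, by omega⟩ := by
      rw [Fin.succAbove_of_castSucc_lt]
      · rfl
      · exact h
    rw [← h1, Ph_succAbove, Fin.val_castSucc]
    exact (vf_val τ ⟨i, hi'⟩).symm
  · rw [if_neg (by omega), if_pos h]
    have h1 : (⟨i, by omega⟩ : Fin (n + 2)) = p := Fin.ext h
    rw [h1, Ph_self]
    rfl
  · rw [if_neg (by omega), if_neg (by omega)]
    have hi' : i - 1 < n + 1 := by omega
    have h1 : p.succAbove ⟨i - 1, hi'⟩ = ⟨i, by omega⟩ := by
      rw [Fin.succAbove_of_le_castSucc]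
      · apply Fin.ext
        simp only [Fin.val_succ]
        omega
      · rw [Fin.le_def]
        simp only [Fin.val_castSucc]
        omega
    rw [← h1, Ph_succAbove, Fin.val_castSucc]
    exact (vf_val τ ⟨i - 1, hi'⟩).symm

theorem des_Ph {n : ℕ} (p : Fin (n + 2)) (τ : Equiv.Perm (Fin (n + 1))) :
    des (Ph (p, τ)) = dn (ins (vf τ) p.val (n + 1)) (n + 1) := by
  rw [des_dn]
  unfold dn
  apply Finset.sum_congr rfl
  intro i hi
  rw [Finset.mem_range] at hi
  rw [vf_Ph p τ i (by omega), vf_Ph p τ (i + 1) (by omega)]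

theorem count_p {n : ℕ} (τ : Equiv.Perm (Fin (n + 1))) (m : ℕ) :
    (((Finset.univ : Finset (Fin (n + 2))).filter (fun p => des (Ph (p, τ)) = m)).card : ℤ) =
      (1 + (des τ : ℤ)) * (if des τ = m then 1 else 0) +
        ((n : ℤ) + 1 - des τ) * (if des τ + 1 = m then 1 else 0) := by
  have hM : ∀ i ≤ n, vf τ i < n + 1 := by
    intro i hi
    have := vf_val τ ⟨i, by omega⟩
    simp only at this
    rw [this]
    exact (τ ⟨i, by omega⟩).2
  rw [Finset.card_filter]
  push_cast
  simp only [des_Ph]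
  rw [← Finset.sum_range (fun p : ℕ => if dn (ins (vf τ) p (n + 1)) (n + 1) = m then (1 : ℤ) else 0),
    Finset.sum_range_succ, Finset.sum_range_succ', ins_last _ _ _ hM, ← des_dn]
  have h0 : dn (ins (vf τ) 0 (n + 1)) (n + 1) = des τ + 1 := by
    have := ins_mid (vf τ) (n + 1) 0 n (by omega) hM
    rw [← des_dn] at this
    simpa using this
  rw [h0]
  have h1 : ∀ q ∈ Finset.range n,
      (if dn (ins (vf τ) (q + 1) (n + 1)) (n + 1) = m then (1 : ℤ) else 0) =
      (if vf τ (q + 1) < vf τ q then (1 : ℤ) else 0) * (if des τ = m then 1 else 0) +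
      (1 - (if vf τ (q + 1) < vf τ q then (1 : ℤ) else 0)) * (if des τ + 1 = m then 1 else 0) := by
    intro q hq
    rw [Finset.mem_range] at hq
    have h2 := ins_mid (vf τ) (n + 1) (q + 1) n (by omega) hM
    rw [← des_dn] at h2
    have h3 : q + 1 - 1 = q := by omega
    rw [h3] at h2
    simp only [Nat.le_add_left, true_and] at h2
    by_cases hd : vf τ (q + 1) < vf τ q
    · rw [if_pos hd] at h2 ⊢
      have h4 : dn (ins (vf τ) (q + 1) (n + 1)) (n + 1) = des τ := by omega
      rw [h4]
      ring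
    · rw [if_neg hd] at h2 ⊢
      have h4 : dn (ins (vf τ) (q + 1) (n + 1)) (n + 1) = des τ + 1 := by omega
      rw [h4]
      ring
  rw [Finset.sum_congr rfl h1, Finset.sum_add_distrib, ← Finset.sum_mul, ← Finset.sum_mul,
    Finset.sum_sub_distrib]
  have h5 : ∑ q ∈ Finset.range n, (if vf τ (q + 1) < vf τ q then (1 : ℤ) else 0) = des τ := by
    rw [des_dn]
    unfold dn
    push_cast
    rfl
  rw [h5]
  simp only [Finset.sum_const, Finset.card_range, nsmul_eq_mul, mul_one]
  ring

theorem E_all (n m : ℕ) : E (n + 1) m =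
    ∑ τ : Equiv.Perm (Fin (n + 1)), ((1 + (des τ : ℤ)) * (if des τ = m then 1 else 0) +
        ((n : ℤ) + 1 - des τ) * (if des τ + 1 = m then 1 else 0)) := by
  have h1 : E (n + 1) m = ∑ σ : Equiv.Perm (Fin (n + 2)), if des σ = m then (1 : ℤ) else 0 := by
    unfold E des
    rw [Finset.card_filter]
    push_cast
    rfl
  rw [h1, ← Function.Bijective.sum_comp Ph_bij (fun σ => if des σ = m then (1 : ℤ) else 0),
    Fintype.sum_prod_type_right]
  apply Finset.sum_congr rfl
  intro τ _
  rw [← count_p τ m, Finset.card_filter]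
  push_cast
  rfl

theorem E_sum (n m : ℕ) : E n m =
    ∑ τ : Equiv.Perm (Fin (n + 1)), if des τ = m then (1 : ℤ) else 0 := by
  unfold E des
  rw [Finset.card_filter]
  push_cast
  rfl

/-- the recurrence of the Eulerian numbers, by insertion of the largest value -/
theorem E_rec (n k : ℕ) (hk : k ≤ n) :
    E (n + 1) (k + 1) = ((k : ℤ) + 2) * E n (k + 1) + ((n : ℤ) + 1 - k) * E n k := by
  rw [E_all, E_sum n (k + 1), E_sum n k, Finset.mul_sum, Finset.mul_sum, ← Finset.sum_add_distrib]
  apply Finset.sum_congr rfl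
  intro τ _
  by_cases h1 : des τ = k + 1
  · rw [h1]
    simp
    ring
  · by_cases h2 : des τ = k
    · rw [h2]
      simp
    · rw [if_neg h1, if_neg (by omega), if_neg h2]
      ring

/-- insertion of the largest value -/
theorem E_succ_zero (n : ℕ) : E (n + 1) 0 = E n 0 := by
  rw [E_all, E_sum n 0]
  apply Finset.sum_congr rfl
  intro τ _
  by_cases h1 : des τ = 0
  · rw [h1]
    simp
  · rw [if_neg h1, if_neg (by omega)]
    ring

theorem E_nonneg (n k : ℕ) : 0 ≤ E n k := by
  unfold E
  exact Int.natCast_nonneg _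

theorem E_zero_zero : E 0 0 = 1 := by
  unfold E
  simp

/-- there are no more than `n` descents -/
theorem E_big (n k : ℕ) (h : n < k) : E n k = 0 := by
  unfold E
  rw [Int.natCast_eq_zero, Finset.card_eq_zero, Finset.filter_eq_empty_iff]
  intro σ _ hσ
  have h1 := Finset.card_filter_le (Finset.univ : Finset (Fin n)) (fun i => σ i.succ < σ i.castSucc)
  rw [hσ, Finset.card_univ, Fintype.card_fin] at h1
  omega


end Pool.Agent.H24R3.Eul
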