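import Pool.Agent.H24R3.PairsShort2
import Pool.Agent.H370R2.Count
import Pool.Agent.H370R2.DirGood

/-!
# Consecutive zeros at bounded distance in every short interval

The counting functions and the elementary facts about them are those of `Pool.Agent.H382R2.Final0`.
-/

open Complex Filter Topology Set
open scoped BigOperators

namespace Pool.Agent.H24R3.GapsShort

open H370 H344 H295SI H295Iso Pool.Agent.H24R3.PairsShort

/-- multiplicity of a zero of zeta -/
noncomputable def zmult (s : ℂ) : ℕ := analyticOrderNatAt riemannZeta s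

/-- the number of nontrivial zeros of zeta with ordinate in `(0, t]` -/
noncomputable def NZ (t : ℝ) : ℕ :=
  ∑ᶠ s ∈ {s : ℂ | riemannZeta s = 0 ∧ 0 < s.re ∧ s.re < 1 ∧ 0 < s.im ∧ s.im ≤ t}, zmult s

/-- the `n`-th ordinate -/
noncomputable def ord (n : ℕ) : ℝ := sInf {t : ℝ | n ≤ NZ t}

/-- the normalised gap -/
noncomputable def dl (n : ℕ) : ℝ :=
  (ord (n + 1) * Real.log (ord (n + 1)) - ord n * Real.log (ord n)) / (2 * Real.pi)

/-- the nontrivial zeros with ordinate in `(0,t]` -/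
def ZS (t : ℝ) : Set ℂ :=
  {s : ℂ | riemannZeta s = 0 ∧ 0 < s.re ∧ s.re < 1 ∧ 0 < s.im ∧ s.im ≤ t}

theorem ZS_finite (t : ℝ) : (ZS t).Finite := by
  have hcomp : IsCompact (Icc (0 : ℝ) 1 ×ℂ Icc 0 t) := isCompact_Icc.reProdIm isCompact_Icc
  refine hcomp.inter_riemannZetaZeros_finite.subset ?_
  rintro s ⟨h0, h1, h2, h3, h4⟩
  exact ⟨⟨⟨h1.le, h2.le⟩, ⟨h3.le, h4⟩⟩, h0⟩

theorem NZ_eq (t : ℝ) : NZ t = ∑ s ∈ (ZS_finite t).toFinset, zmult s :=
  finsum_mem_eq_finite_toFinset_sum _ (ZS_finite t)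

theorem zmult_pos {s : ℂ} (hs : 0 < s.im) (h0 : riemannZeta s = 0) : 1 ≤ zmult s :=
  H370.Loc.mult_pos' H370.good_zeta hs h0

theorem NZ_nonpos {t : ℝ} (ht : t ≤ 0) : NZ t = 0 := by
  rw [NZ_eq]
  apply Finset.sum_eq_zero
  intro s hs
  rw [Set.Finite.mem_toFinset] at hs
  have := hs.2.2.2.1.trans_le (hs.2.2.2.2.trans ht)
  exact absurd this (lt_irrefl 0)

/-- adding zeros -/
theorem NZ_add_le (t' t : ℝ) (h : t' ≤ t) (A : Finset ℂ) (hA : ∀ s ∈ A, s ∈ ZS t ∧ t' < s.im) :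
    NZ t' + ∑ s ∈ A, zmult s ≤ NZ t := by
  classical
  rw [NZ_eq, NZ_eq, ← Finset.sum_union]
  · apply Finset.sum_le_sum_of_subset
    intro s hs
    rcases Finset.mem_union.mp hs with hs | hs
    · rw [Set.Finite.mem_toFinset] at hs ⊢
      exact ⟨hs.1, hs.2.1, hs.2.2.1, hs.2.2.2.1, hs.2.2.2.2.trans h⟩
    · rw [Set.Finite.mem_toFinset]
      exact (hA s hs).1
  · rw [Finset.disjoint_left]
    intro s hs hs'
    rw [Set.Finite.mem_toFinset] at hs
    exact absurd hs.2.2.2.2 (not_le.mpr (hA s hs').2)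

theorem NZ_mono : Monotone NZ := by
  intro a b h
  have := NZ_add_le a b h ∅ (by simp)
  simpa using this

/-- right continuity -/
theorem NZ_right (t : ℝ) : ∃ t' : ℝ, t < t' ∧ NZ t' = NZ t := by
  classical
  have hfin := ZS_finite (t + 1)
  set F := hfin.toFinset.filter (fun s => t < s.im) with hF
  by_cases hne : F.Nonempty
  · obtain ⟨s0, hs0, hmin⟩ := F.exists_min_image (fun s => s.im) hne
    have h1 : t < s0.im := (Finset.mem_filter.mp hs0).2
    refine ⟨min ((t + s0.im) / 2) (t + 1), lt_min (by linarith) (by linarith), ?_⟩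
    rw [NZ_eq, NZ_eq]
    congr 1
    ext s
    rw [Set.Finite.mem_toFinset, Set.Finite.mem_toFinset]
    constructor
    · rintro ⟨a1, a2, a3, a4, a5⟩
      refine ⟨a1, a2, a3, a4, ?_⟩
      by_contra hlt
      push Not at hlt
      have hsF : s ∈ F := by
        rw [hF, Finset.mem_filter, Set.Finite.mem_toFinset]
        exact ⟨⟨a1, a2, a3, a4, a5.trans (min_le_right _ _)⟩, hlt⟩
      have := hmin s hsF
      have h3 := a5.trans (min_le_left _ _)
      linarith
    · rintro ⟨a1, a2, a3, a4, a5⟩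
      exact ⟨a1, a2, a3, a4, a5.trans (le_min (by linarith) (by linarith))⟩
  · refine ⟨t + 1, by linarith, ?_⟩
    rw [NZ_eq, NZ_eq]
    congr 1
    ext s
    rw [Set.Finite.mem_toFinset, Set.Finite.mem_toFinset]
    constructor
    · rintro ⟨a1, a2, a3, a4, a5⟩
      refine ⟨a1, a2, a3, a4, ?_⟩
      by_contra hlt
      push Not at hlt
      apply hne
      exact ⟨s, by
        rw [hF, Finset.mem_filter, Set.Finite.mem_toFinset]
        exact ⟨⟨a1, a2, a3, a4, a5⟩, hlt⟩⟩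
    · rintro ⟨a1, a2, a3, a4, a5⟩
      exact ⟨a1, a2, a3, a4, a5.trans (by linarith)⟩

/-- the number of zeros tends to infinity in long intervals -/
theorem NN_pos_large : ∃ T0 : ℝ, 10 ≤ T0 ∧ ∀ T : ℝ, T0 ≤ T → 0 < NN riemannZeta T (2 * T) := by
  obtain ⟨C, hC, h⟩ := H370.SI.nn_short H370.good_zeta
  have hpi := Real.pi_pos
  have hlittle : ∀ᶠ T : ℝ in atTop, (Real.log T) ^ 2 ≤ T := by
    have h1 := (isLittleO_log_rpow_atTop (show (0 : ℝ) < 1 / 2 by norm_num)).bound
      (show (0 : ℝ) < 1 by norm_num)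
    filter_upwards [h1, eventually_ge_atTop (1 : ℝ)] with T hT hT1
    have h2 : 0 ≤ Real.log T := Real.log_nonneg hT1
    have h3 : 0 ≤ T ^ (1 / 2 : ℝ) := Real.rpow_nonneg (by linarith) _
    rw [Real.norm_of_nonneg h2, Real.norm_of_nonneg h3, one_mul] at hT
    have h4 : T = (T ^ (1 / 2 : ℝ)) ^ 2 := by
      rw [← Real.rpow_natCast, ← Real.rpow_mul (by linarith)]
      norm_num
    calc (Real.log T) ^ 2 ≤ (T ^ (1 / 2 : ℝ)) ^ 2 := pow_le_pow_left₀ h2 hT 2
      _ = T := h4.symm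
  obtain ⟨T1, hT1⟩ := hlittle.exists_forall_of_atTop
  obtain ⟨T2, hT2⟩ := (Real.tendsto_log_atTop.eventually_ge_atTop
    (2 * Real.pi * (2 * C + 1))).exists_forall_of_atTop
  refine ⟨max 10 (max T1 T2), le_max_left _ _, fun T hT => ?_⟩
  have hT10 : 10 ≤ T := (le_max_left _ _).trans hT
  have h1 := hT1 T (((le_max_left _ _).trans (le_max_right _ _)).trans hT)
  have h2 := hT2 T (((le_max_right _ _).trans (le_max_right _ _)).trans hT)
  have h3 := (abs_le.mp (h T hT10 T (2 * T) le_rfl (by linarith) le_rfl)).1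
  have h4 : (2 * T - T) * Real.log T / (2 * Real.pi) ≥ (2 * C + 1) * T := by
    rw [ge_iff_le, le_div_iff₀ (by positivity)]
    nlinarith
  have h5 : C * (2 * T - T + Real.log T ^ 2) ≤ 2 * C * T := by nlinarith
  have h6 : (0 : ℝ) < NN riemannZeta T (2 * T) := by linarith
  exact_mod_cast h6

/-- there are zeros of arbitrarily large ordinate -/
theorem exists_zero_above (T : ℝ) :
    ∃ s : ℂ, riemannZeta s = 0 ∧ 0 < s.re ∧ s.re < 1 ∧ T ≤ s.im := by
  obtain ⟨T0, hT0, h⟩ := NN_pos_large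
  have h1 := h (max T T0) (le_max_right _ _)
  by_contra hcon
  push Not at hcon
  have h2 : zset riemannZeta (max T T0) (2 * max T T0) = ∅ := by
    rw [Set.eq_empty_iff_forall_notMem]
    rintro s ⟨a1, a2, a3, a4, a5⟩
    have := hcon s a5 a1 a2
    have h3 : T ≤ max T T0 := le_max_left _ _
    linarith
  unfold NN at h1
  rw [h2, finsum_mem_empty] at h1
  exact lt_irrefl _ h1

theorem NZ_unbounded (n : ℕ) : ∃ t : ℝ, n ≤ NZ t := by
  induction n with
  | zero => exact ⟨0, Nat.zero_le _⟩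
  | succ n ih =>
    obtain ⟨t, ht⟩ := ih
    obtain ⟨s, h1, h2, h3, h4⟩ := exists_zero_above (max t 0 + 1)
    have h5 : t < s.im := by linarith [le_max_left t 0]
    have h6 : 0 < s.im := by linarith [le_max_right t 0]
    refine ⟨s.im, ?_⟩
    have := NZ_add_le t s.im h5.le {s} (by
      intro z hz
      rw [Finset.mem_singleton] at hz
      subst hz
      exact ⟨⟨h1, h2, h3, h6, le_rfl⟩, h5⟩)
    rw [Finset.sum_singleton] at this
    have h7 := zmult_pos h6 h1
    omega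

theorem ord_le_iff {n : ℕ} (hn : 1 ≤ n) (t : ℝ) : ord n ≤ t ↔ n ≤ NZ t := by
  have hbdd : BddBelow {t : ℝ | n ≤ NZ t} := by
    refine ⟨0, ?_⟩
    intro u hu
    by_contra hlt
    push Not at hlt
    have h1 : n ≤ NZ u := hu
    rw [NZ_nonpos hlt.le] at h1
    omega
  constructor
  · intro h
    obtain ⟨t', ht', he⟩ := NZ_right t
    have h1 : sInf {t : ℝ | n ≤ NZ t} < t' := lt_of_le_of_lt h ht'
    obtain ⟨u, hu, hut⟩ := exists_lt_of_csInf_lt (NZ_unbounded n) h1
    have h2 : n ≤ NZ u := hu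
    rw [← he]
    exact h2.trans (NZ_mono hut.le)
  · intro h
    exact csInf_le hbdd h

theorem le_NZ_ord {n : ℕ} (hn : 1 ≤ n) : n ≤ NZ (ord n) := (ord_le_iff hn _).mp le_rfl

/-- additivity -/
theorem NZ_NN {a b : ℝ} (ha : 0 < a) (hab : a ≤ b) : NZ b = NZ a + NN riemannZeta a b := by
  classical
  have hfin : (zset riemannZeta a b).Finite := zset_finite' H370.good_zeta a b ha
  unfold NN
  rw [NZ_eq, NZ_eq, finsum_mem_eq_finite_toFinset_sum _ hfin]
  have hd : Disjoint (ZS_finite a).toFinset hfin.toFinset := by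
    rw [Finset.disjoint_left]
    intro s hs hs'
    rw [Set.Finite.mem_toFinset] at hs hs'
    have h1 := hs.2.2.2.2
    have h2 := hs'.2.2.1
    linarith
  change _ = _ + ∑ s ∈ hfin.toFinset, zmult s
  rw [← Finset.sum_union hd]
  congr 1
  ext s
  rw [Finset.mem_union, Set.Finite.mem_toFinset, Set.Finite.mem_toFinset, Set.Finite.mem_toFinset]
  constructor
  · rintro ⟨a1, a2, a3, a4, a5⟩
    by_cases h : s.im ≤ a
    · exact Or.inl ⟨a1, a2, a3, a4, h⟩
    · push Not at h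
      exact Or.inr ⟨a2, a3, h, a5, a1⟩
  · rintro (⟨a1, a2, a3, a4, a5⟩ | ⟨a1, a2, a3, a4, a5⟩)
    · exact ⟨a1, a2, a3, a4, a5.trans hab⟩
    · exact ⟨a5, a1, a2, ha.trans a3, a4⟩

/-- the indices with `T < γ_n ≤ T + H` -/
theorem idx_eq (T H : ℝ) :
    {n : ℕ | 1 ≤ n ∧ T < ord n ∧ ord n ≤ T + H} = ↑(Finset.Ioc (NZ T) (NZ (T + H))) := by
  ext n
  rw [Set.mem_ofPred_eq, Finset.coe_Ioc, Set.mem_Ioc]
  constructor
  · rintro ⟨h1, h2, h3⟩
    refine ⟨?_, (ord_le_iff h1 _).mp h3⟩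
    by_contra h
    push Not at h
    exact absurd ((ord_le_iff h1 T).mpr h) (not_le.mpr h2)
  · rintro ⟨h1, h2⟩
    have h3 : 1 ≤ n := by omega
    refine ⟨h3, ?_, (ord_le_iff h3 _).mpr h2⟩
    by_contra h
    push Not at h
    have := (ord_le_iff h3 T).mp h
    omega

theorem idx_card {T H : ℝ} (hT : 0 < T) (hH : 0 ≤ H) :
    {n : ℕ | 1 ≤ n ∧ T < ord n ∧ ord n ≤ T + H}.ncard = NN riemannZeta T (T + H) := by
  rw [idx_eq, Set.ncard_coe_finset, Nat.card_Ioc, NZ_NN hT (by linarith : T ≤ T + H)]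
  omega

theorem idx_finite (T H : ℝ) : {n : ℕ | 1 ≤ n ∧ T < ord n ∧ ord n ≤ T + H}.Finite := by
  rw [idx_eq]
  exact Finset.finite_toSet _

/-- index of an isolated zero -/
theorem idx_of {x ρ : ℝ} (hx : 0 < x) (s : ℂ) (hs : s ∈ zset riemannZeta 0 x) (hsx : s.im = x)
    (hm : mult riemannZeta s = 1) (hρ : 0 ≤ ρ)
    (hiso : ∀ s' : ℂ, riemannZeta s' = 0 → 0 < s'.re → s'.re < 1 → |s'.im - x| ≤ ρ → s' = s) :
    1 ≤ NZ x ∧ ord (NZ x) = x ∧ x + ρ < ord (NZ x + 1) ∧ ∀ t, t < x → NZ t < NZ x := by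
  have hlt : ∀ t, t < x → NZ t < NZ x := by
    intro t ht
    have := NZ_add_le t x ht.le {s} (by
      intro z hz
      rw [Finset.mem_singleton] at hz
      subst hz
      exact ⟨⟨hs.2.2.2.2, hs.1, hs.2.1, hs.2.2.1, hs.2.2.2.1⟩, by rw [hsx]; exact ht⟩)
    rw [Finset.sum_singleton] at this
    have h2 : zmult s = 1 := hm
    omega
  have h1 : 1 ≤ NZ x := by
    have := hlt 0 hx
    omega
  refine ⟨h1, ?_, ?_, hlt⟩
  · apply le_antisymm ((ord_le_iff h1 x).mpr le_rfl)
    by_contra h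
    push Not at h
    have := hlt _ h
    have h3 := le_NZ_ord h1
    omega
  · by_contra h
    push Not at h
    have h2 := (ord_le_iff (by omega) _).mp h
    rw [NZ_NN hx (by linarith : x ≤ x + ρ)] at h2
    have h3 : zset riemannZeta x (x + ρ) = ∅ := by
      rw [Set.eq_empty_iff_forall_notMem]
      rintro s' ⟨a1, a2, a3, a4, a5⟩
      have h4 := hiso s' a5 a1 a2 (by rw [abs_of_pos (by linarith)]; linarith)
      rw [h4, hsx] at a3
      exact lt_irrefl _ a3
    unfold NN at h2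
    rw [h3, finsum_mem_empty] at h2
    omega

/-- bounds for `x log x` -/
lemma xlogx {u v : ℝ} (hu : 1 ≤ u) (huv : u < v) :
    (v - u) * Real.log u ≤ v * Real.log v - u * Real.log u ∧
    v * Real.log v - u * Real.log u ≤ (v - u) * (Real.log v + 1) := by
  have hu0 : 0 < u := by linarith
  have hv0 : 0 < v := by linarith
  have h1 : Real.log u ≤ Real.log v := Real.log_le_log hu0 huv.le
  constructor
  · nlinarith
  · have h2 : Real.log (v / u) ≤ v / u - 1 := Real.log_le_sub_one_of_pos (by positivity)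
    rw [Real.log_div hv0.ne' hu0.ne'] at h2
    have h3 : u * (Real.log v - Real.log u) ≤ v - u := by
      have := mul_le_mul_of_nonneg_left h2 hu0.le
      have e : u * (v / u - 1) = v - u := by field_simp
      linarith
    nlinarith

end Pool.Agent.H24R3.GapsShort
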