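import Pool.Agent.H24R3.GapsShort

/-!
# Consecutive zeros at bounded distance in every short interval: the main counting argument
-/

open Complex Filter Topology Set
open scoped BigOperators

namespace Pool.Agent.H24R3.GapsShort

open H370 H344 H295SI H295Iso Pool.Agent.H24R3.PairsShort

/-- the shifted ordinates of the isolated zeros in `(T, T + H]`, on the Riemann hypothesis -/
theorem ordinatesRH (hRH : ∀ s : ℂ, riemannZeta s = 0 → 0 < s.re → s.re < 1 → s.re = 1 / 2)
    {T H ρ w : ℝ} (hT : 1 ≤ T) (hw : 0 ≤ w) :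
    ∃ A : Finset ℝ, A.card = H295Iso.isoN riemannZeta T H ρ w ∧ (∀ x ∈ A, 0 < x ∧ x ≤ H) ∧
      ∀ x ∈ A, ∃ s : ℂ, s ∈ zset riemannZeta 0 (T + x) ∧ s.im = T + x ∧
        mult riemannZeta s = 1 ∧ ∀ s' : ℂ, riemannZeta s' = 0 → 0 < s'.re → s'.re < 1 →
          |s'.im - (T + x)| ≤ ρ → s' = s := by
  classical
  have hfin : (H295Iso.isoSet riemannZeta T H ρ w).Finite :=
    (zset_finite H370.good_zeta T (T + H) hT).subset fun s hs => hs.1
  have hinj : Set.InjOn (fun s : ℂ => s.im - T) (H295Iso.isoSet riemannZeta T H ρ w) := by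
    intro s hs s' hs' h
    simp only at h
    exact Complex.ext (by rw [hs.2.1, hs'.2.1]) (by linarith)
  refine ⟨hfin.toFinset.image (fun s : ℂ => s.im - T), ?_, ?_, ?_⟩
  · unfold H295Iso.isoN
    rw [Finset.card_image_of_injOn, Set.ncard_eq_toFinset_card _ hfin]
    intro s hs s' hs' h
    exact hinj (by simpa using hs) (by simpa using hs') h
  · intro x hx
    obtain ⟨s, hs, rfl⟩ := Finset.mem_image.mp hx
    have hs := hfin.mem_toFinset.mp hs
    have h1 := hs.1.2.2.1
    have h2 := hs.1.2.2.2.1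
    constructor
    · linarith
    · linarith
  · intro x hx
    obtain ⟨s, hs, rfl⟩ := Finset.mem_image.mp hx
    have hs := hfin.mem_toFinset.mp hs
    have e : T + (s.im - T) = s.im := by ring
    refine ⟨s, ?_, by rw [e], hs.2.2.1, ?_⟩
    · rw [e]
      exact ⟨hs.1.1, hs.1.2.1, by linarith [hs.1.2.2.1], le_rfl, hs.1.2.2.2.2⟩
    · intro s' h0 h1 h2 h3
      rw [e] at h3
      by_contra hne
      have h4 := hs.2.2.2 s' h0 h1 h2 hne h3
      rw [hRH s' h0 h1 h2, sub_self, abs_zero] at h4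
      linarith

/-- the finite counting argument -/
theorem count (hRH : ∀ s : ℂ, riemannZeta s = 0 → 0 < s.re → s.re < 1 → s.re = 1 / 2)
    {T H ρ w d a b : ℝ} (hT : 1 ≤ T) (hw : 0 ≤ w) (hH : 0 ≤ H) (hρ : 0 ≤ ρ) (hd : 0 < d)
    (hlow : ∀ u v : ℝ, T < u → u ≤ T + H → u + ρ < v → v ≤ u + d →
      a < (v * Real.log v - u * Real.log u) / (2 * Real.pi) ∧
      (v * Real.log v - u * Real.log u) / (2 * Real.pi) ≤ b) :
    (H295Iso.isoN riemannZeta T H ρ w : ℝ) - (H / d + 1) ≤
      ({n : ℕ | 1 ≤ n ∧ T < ord n ∧ ord n ≤ T + H ∧ a < dl n ∧ dl n ≤ b}.ncard : ℝ) := by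
  classical
  obtain ⟨A, hA1, hA2, hA3⟩ := ordinatesRH hRH (T := T) (H := H) (ρ := ρ) hT hw
  have hidx : ∀ x ∈ A, 1 ≤ NZ (T + x) ∧ ord (NZ (T + x)) = T + x ∧
      T + x + ρ < ord (NZ (T + x) + 1) ∧ ∀ t, t < T + x → NZ t < NZ (T + x) := by
    intro x hx
    obtain ⟨s, h1, h2, h3, h4⟩ := hA3 x hx
    have hx0 := (hA2 x hx).1
    exact idx_of (by linarith) s h1 h2 h3 hρ h4
  set B := A.filter (fun x => T + x + d < ord (NZ (T + x) + 1)) with hB
  set C := A.filter (fun x => ¬ (T + x + d < ord (NZ (T + x) + 1))) with hC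
  have hBC : B.card + C.card = A.card := Finset.card_filter_add_card_filter_not _
  have hBcard : B.card ≤ ⌈H / d⌉₊ := by
    have h1 := Pool.Agent.H820R3.PC.few B H d hd
      (fun x hx => hA2 x (Finset.mem_filter.mp hx).1) 1
    rw [one_mul] at h1
    refine le_trans (le_of_eq ?_) h1
    congr 1
    symm
    apply Finset.filter_true_of_mem
    intro y hy
    unfold Pool.Agent.H820R3.PC.cc
    rw [Nat.lt_one_iff, Finset.card_eq_zero, Finset.filter_eq_empty_iff]
    rintro x hx ⟨hxy, hyx⟩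
    have hyA := (Finset.mem_filter.mp hy).1
    have hx1 := Finset.mem_filter.mp hx
    have h2 := (hidx y hyA).2.2.2 (T + x) (by linarith)
    have h3 : ord (NZ (T + x) + 1) ≤ T + y := (ord_le_iff (by omega) _).mpr (by omega)
    linarith [hx1.2]
  have hinj : Set.InjOn (fun x => NZ (T + x)) (C : Set ℝ) := by
    intro x hx y hy hxy
    simp only at hxy
    have hxA := (Finset.mem_filter.mp (Finset.mem_coe.mp hx)).1
    have hyA := (Finset.mem_filter.mp (Finset.mem_coe.mp hy)).1
    rcases lt_trichotomy x y with h | h | h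
    · have := (hidx y hyA).2.2.2 (T + x) (by linarith)
      omega
    · exact h
    · have := (hidx x hxA).2.2.2 (T + y) (by linarith)
      omega
  have hfin : {n : ℕ | 1 ≤ n ∧ T < ord n ∧ ord n ≤ T + H ∧ a < dl n ∧ dl n ≤ b}.Finite :=
    (idx_finite T H).subset fun n hn => ⟨hn.1, hn.2.1, hn.2.2.1⟩
  have hCcard : C.card ≤
      {n : ℕ | 1 ≤ n ∧ T < ord n ∧ ord n ≤ T + H ∧ a < dl n ∧ dl n ≤ b}.ncard := by
    rw [← Finset.card_image_of_injOn hinj, ← Set.ncard_coe_finset]
    apply Set.ncard_le_ncard _ hfin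
    intro n hn
    rw [Finset.mem_coe, Finset.mem_image] at hn
    obtain ⟨x, hx, rfl⟩ := hn
    have hx1 := Finset.mem_filter.mp hx
    have hx2 := hidx x hx1.1
    have hx3 := hA2 x hx1.1
    have hx4 := hx1.2
    push Not at hx4
    have h5 := hlow (T + x) (ord (NZ (T + x) + 1)) (by linarith) (by linarith) hx2.2.2.1 hx4
    refine ⟨hx2.1, ?_, ?_, ?_, ?_⟩
    · rw [hx2.2.1]; linarith
    · rw [hx2.2.1]; linarith
    · unfold dl
      rw [hx2.2.1]
      exact h5.1
    · unfold dl
      rw [hx2.2.1]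
      exact h5.2
  have h1 : ((⌈H / d⌉₊ : ℕ) : ℝ) ≤ H / d + 1 := (Nat.ceil_lt_add_one (div_nonneg hH hd.le)).le
  have h2 : (B.card : ℝ) ≤ (⌈H / d⌉₊ : ℕ) := by exact_mod_cast hBcard
  have h3 : (B.card : ℝ) + C.card = A.card := by exact_mod_cast hBC
  have h4 : (C.card : ℝ) ≤
      ({n : ℕ | 1 ≤ n ∧ T < ord n ∧ ord n ≤ T + H ∧ a < dl n ∧ dl n ≤ b}.ncard : ℝ) := by
    exact_mod_cast hCcard
  rw [← hA1]
  linarith

theorem gaps (hRH : ∀ s : ℂ, riemannZeta s = 0 → 0 < s.re → s.re < 1 → s.re = 1 / 2)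
    {h a b ε : ℝ} (hh : 0 < h) (hh1 : h ≤ 1) (ha0 : 0 ≤ a) (ha : h * a ≤ 1 / 3) (hb : 0 < b)
    (hε : 0 < ε) :
    ∃ T0 : ℝ, 10 ≤ T0 ∧ ∀ T : ℝ, T0 ≤ T → ∀ H : ℝ, T ^ h ≤ H → H ≤ T →
      (pd h a - 1 / b - ε) *
        ({n : ℕ | 1 ≤ n ∧ T < ord n ∧ ord n ≤ T + H}.ncard : ℝ) ≤
      ({n : ℕ | 1 ≤ n ∧ T < ord n ∧ ord n ≤ T + H ∧ a < dl n ∧ dl n ≤ b}.ncard : ℝ) := by
  have hpi := Real.pi_pos
  obtain ⟨T1, hT1, hiso⟩ := H295Iso.iso_short H370.good_zeta hh hh1 ha0 ha
    (show 0 < ε / 4 by positivity)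
  obtain ⟨C, hC, hcnt⟩ := H370.SI.nn_short H370.good_zeta
  set η : ℝ := min (1 / 4) (ε * b / 8) with hη
  have hη0 : 0 < η := by positivity
  have hη1 : η ≤ 1 / 4 := min_le_left _ _
  have hη2 : η ≤ ε * b / 8 := min_le_right _ _
  have htop : Tendsto (fun T : ℝ => T ^ h) atTop atTop := tendsto_rpow_atTop hh
  have hlogtop := Real.tendsto_log_atTop
  have hlittle : ∀ᶠ T : ℝ in atTop, (Real.log T) ^ 2 ≤ T ^ h := by
    have h1 := (isLittleO_log_rpow_atTop (show 0 < h / 2 by positivity)).bound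
      (show (0 : ℝ) < 1 by norm_num)
    filter_upwards [h1, eventually_ge_atTop (1 : ℝ)] with T hT hT1
    have h2 : 0 ≤ Real.log T := Real.log_nonneg hT1
    have h3 : 0 ≤ T ^ (h / 2) := Real.rpow_nonneg (by linarith) _
    rw [Real.norm_of_nonneg h2, Real.norm_of_nonneg h3, one_mul] at hT
    have h4 : T ^ h = (T ^ (h / 2)) ^ 2 := by
      rw [← Real.rpow_natCast, ← Real.rpow_mul (by linarith)]
      norm_num
    rw [h4]
    exact pow_le_pow_left₀ h2 hT 2
  obtain ⟨T2, hT2⟩ := hlittle.exists_forall_of_atTop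
  obtain ⟨T3, hT3⟩ := (hlogtop.eventually_ge_atTop (2 * Real.pi * (2 * C) / η)).exists_forall_of_atTop
  obtain ⟨T4, hT4⟩ := (htop.eventually_ge_atTop
    (max 3 (2 * Real.pi * (16 / (3 * ε))))).exists_forall_of_atTop
  obtain ⟨T5, hT5⟩ := (hlogtop.eventually_ge_atTop (max 1 (3 / η))).exists_forall_of_atTop
  refine ⟨max (max T1 T2) (max (max T3 T4) (max T5 (2 * Real.pi * b))),
    hT1.trans ((le_max_left _ _).trans (le_max_left _ _)), fun T hT H hH hHT => ?_⟩
  have hTT1 : T1 ≤ T := ((le_max_left _ _).trans (le_max_left _ _)).trans hT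
  have hTT2 := hT2 T (((le_max_right _ _).trans (le_max_left _ _)).trans hT)
  have hTT3 := hT3 T (((le_max_left _ _).trans ((le_max_left _ _).trans (le_max_right _ _))).trans hT)
  have hTT4 := hT4 T (((le_max_right _ _).trans ((le_max_left _ _).trans (le_max_right _ _))).trans hT)
  have hTT5 := hT5 T (((le_max_left _ _).trans ((le_max_right _ _).trans (le_max_right _ _))).trans hT)
  have hTb : 2 * Real.pi * b ≤ T :=
    ((le_max_right _ _).trans ((le_max_right _ _).trans (le_max_right _ _))).trans hT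
  have hL1 : 1 ≤ Real.log T := (le_max_left _ _).trans hTT5
  have hLη : 3 / η ≤ Real.log T := (le_max_right _ _).trans hTT5
  have hT10 : 10 ≤ T := hT1.trans hTT1
  have hL : 0 < Real.log T := by linarith
  have hH3 : 3 ≤ H := ((le_max_left _ _).trans hTT4).trans hH
  have hHK : 2 * Real.pi * (16 / (3 * ε)) ≤ H := ((le_max_right _ _).trans hTT4).trans hH
  have hH0 : 0 < H := by linarith
  rw [idx_card (by linarith) hH0.le]
  set M : ℝ := H / (2 * Real.pi) * Real.log T with hM
  have hM0 : 0 < M := by positivity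
  have hNN : (1 - η) * M ≤ (NN riemannZeta T (T + H) : ℝ) := by
    have h1 := (abs_le.mp (hcnt T hT10 T (T + H) le_rfl (by linarith) (by linarith))).1
    have e1 : T + H - T = H := by ring
    rw [e1] at h1
    have h2 : C * (H + (Real.log T) ^ 2) ≤ η * M := by
      have h3 : (Real.log T) ^ 2 ≤ H := hTT2.trans hH
      have h4 : C * (H + (Real.log T) ^ 2) ≤ C * (2 * H) :=
        mul_le_mul_of_nonneg_left (by linarith) hC.le
      refine h4.trans ?_
      rw [div_le_iff₀ hη0] at hTT3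
      have h5 : (2 * C) * (2 * Real.pi) ≤ Real.log T * η := by linarith
      have h6 : 2 * C ≤ Real.log T * η / (2 * Real.pi) := by
        rw [le_div_iff₀ (by positivity)]; exact h5
      calc C * (2 * H) = (2 * C) * H := by ring
        _ ≤ (Real.log T * η / (2 * Real.pi)) * H := mul_le_mul_of_nonneg_right h6 hH0.le
        _ = η * M := by rw [hM]; ring
    have e2 : H * Real.log T / (2 * Real.pi) = M := by rw [hM]; ring
    rw [e2] at h1
    linarith
  set Nn : ℝ := (NN riemannZeta T (T + H) : ℝ) with hNn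
  have h1 := hiso T hTT1 H hH hHT
  rw [← hNn] at h1
  set d : ℝ := 2 * Real.pi * (b / (1 + η)) / Real.log T with hd
  have hd0 : 0 < d := by positivity
  have hw : 0 ≤ 4 * Real.pi / 5 / (h * Real.log T) := by positivity
  have hdT : d ≤ T := by
    refine le_trans ?_ hTb
    rw [hd, div_le_iff₀ hL]
    have h2 : b / (1 + η) ≤ b := div_le_self hb.le (by linarith)
    have h3 : 2 * Real.pi * (b / (1 + η)) ≤ 2 * Real.pi * b :=
      mul_le_mul_of_nonneg_left h2 (by positivity)
    have h4 : 0 < 2 * Real.pi * b := by positivity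
    nlinarith
  have h3 := count hRH (T := T) (H := H) (ρ := 2 * Real.pi * a / Real.log T)
    (w := 4 * Real.pi / 5 / (h * Real.log T)) (d := d) (a := a) (b := b) (by linarith) hw hH0.le
    (by positivity) hd0 (by
      intro u v hu1 hu2 hv1 hv2
      have hρ0 : 0 ≤ 2 * Real.pi * a / Real.log T := by positivity
      have huv : u < v := by linarith
      obtain ⟨g1, g2⟩ := xlogx (by linarith : 1 ≤ u) huv
      have hlu : Real.log T ≤ Real.log u := Real.log_le_log (by linarith) hu1.le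
      constructor
      · rw [lt_div_iff₀ (by positivity)]
        refine lt_of_lt_of_le ?_ g1
        have g3 : 2 * Real.pi * a / Real.log T < v - u := by linarith
        rw [div_lt_iff₀ hL] at g3
        have g4 : (v - u) * Real.log T ≤ (v - u) * Real.log u :=
          mul_le_mul_of_nonneg_left hlu (by linarith)
        linarith
      · rw [div_le_iff₀ (by positivity)]
        refine g2.trans ?_
        have hv3 : v ≤ 3 * T := by linarith
        have hlv : Real.log v ≤ Real.log T + 2 := by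
          have g5 : Real.log v ≤ Real.log (3 * T) := Real.log_le_log (by linarith) hv3
          rw [Real.log_mul (by norm_num) (by linarith)] at g5
          have g6 : Real.log 3 ≤ 3 - 1 := Real.log_le_sub_one_of_pos (by norm_num)
          linarith
        rw [div_le_iff₀ hη0] at hLη
        have g7 : Real.log v + 1 ≤ (1 + η) * Real.log T := by linarith
        have g8 : 0 ≤ (1 + η) * Real.log T := by positivity
        calc (v - u) * (Real.log v + 1) ≤ (v - u) * ((1 + η) * Real.log T) :=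
              mul_le_mul_of_nonneg_left g7 (by linarith)
          _ ≤ d * ((1 + η) * Real.log T) := mul_le_mul_of_nonneg_right (by linarith) g8
          _ = b * (2 * Real.pi) := by rw [hd]; field_simp)
  refine le_trans ?_ h3
  have hPe : 1 - (c0 h - 1) / KK (h * a) ^ 2 - ε / 4 = pd h a - ε / 4 := rfl
  rw [hPe] at h1
  have e2 : H / d = (1 + η) * M / b := by
    rw [hM, hd]
    field_simp
  rw [e2]
  have k1 : (1 + η) * M ≤ (1 + 3 * η) * Nn := by
    have k2 : (1 + 3 * η) * ((1 - η) * M) ≤ (1 + 3 * η) * Nn :=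
      mul_le_mul_of_nonneg_left hNN (by linarith)
    have k3 : (1 + η) * M ≤ (1 + 3 * η) * ((1 - η) * M) := by
      have k4 : 1 + η ≤ (1 + 3 * η) * (1 - η) := by nlinarith
      have := mul_le_mul_of_nonneg_right k4 hM0.le
      linarith
    linarith
  have hNn0 : 0 < Nn := lt_of_lt_of_le (mul_pos (by linarith) hM0) hNN
  have k5 : (1 + η) * M / b ≤ Nn / b + 3 / 8 * ε * Nn := by
    have k6 : (1 + η) * M / b ≤ (1 + 3 * η) * Nn / b := div_le_div_of_nonneg_right k1 hb.le
    have k7 : (1 + 3 * η) * Nn / b = Nn / b + 3 * (η / b) * Nn := by ring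
    have k8 : η / b ≤ ε / 8 := by
      rw [div_le_iff₀ hb]; linarith
    have k9 : 3 * (η / b) * Nn ≤ 3 * (ε / 8) * Nn :=
      mul_le_mul_of_nonneg_right (by linarith) hNn0.le
    linarith
  have k10 : 1 ≤ ε / 4 * Nn := by
    have k11 : 16 / (3 * ε) ≤ H / (2 * Real.pi) := by
      rw [le_div_iff₀ (by positivity)]; linarith
    have k12 : 16 / (3 * ε) ≤ M := by
      rw [hM]
      have : 0 ≤ H / (2 * Real.pi) := by positivity
      nlinarith
    have k13 : 3 / 4 * M ≤ Nn := by
      have : 3 / 4 * M ≤ (1 - η) * M := mul_le_mul_of_nonneg_right (by linarith) hM0.le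
      linarith
    rw [div_le_iff₀ (by positivity)] at k12
    nlinarith
  have k14 : 1 / b * Nn = Nn / b := by ring
  have : (pd h a - 1 / b - ε) * Nn = (pd h a - ε / 4) * Nn - Nn / b - 3 / 4 * ε * Nn := by
    rw [← k14]; ring
  rw [this]
  nlinarith

end Pool.Agent.H24R3.GapsShort
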