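import Pool.Agent.H24R3.GapsShort2

/-!
# Consecutive zeros at bounded distance in every short interval: consequences
-/

open Complex Filter Topology Set
open scoped BigOperators

namespace Pool.Agent.H24R3.GapsShort

open H370 H344 H295SI H295Iso Pool.Agent.H24R3.PairsShort

/-- the number of indices -/
noncomputable def ZC (T H : ℝ) : ℕ := {n : ℕ | 1 ≤ n ∧ T < ord n ∧ ord n ≤ T + H}.ncard

/-- the number of indices with gap in `(a, b]` -/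
noncomputable def GC (T H a b : ℝ) : ℕ :=
  {n : ℕ | 1 ≤ n ∧ T < ord n ∧ ord n ≤ T + H ∧ a < dl n ∧ dl n ≤ b}.ncard

/-- the number of indices with gap larger than `a` -/
noncomputable def GT (T H a : ℝ) : ℕ :=
  {n : ℕ | 1 ≤ n ∧ T < ord n ∧ ord n ≤ T + H ∧ a < dl n}.ncard

lemma GC_mono {T H a b a' b' : ℝ} (ha : a' ≤ a) (hb : b ≤ b') : GC T H a b ≤ GC T H a' b' := by
  apply Set.ncard_le_ncard _ ((idx_finite T H).subset fun n hn => ⟨hn.1, hn.2.1, hn.2.2.1⟩)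
  rintro n ⟨h1, h2, h3, h4, h5⟩
  exact ⟨h1, h2, h3, ha.trans_lt h4, h5.trans hb⟩

lemma GC_le_GT {T H a b a' : ℝ} (ha : a' ≤ a) : GC T H a b ≤ GT T H a' := by
  apply Set.ncard_le_ncard _ ((idx_finite T H).subset fun n hn => ⟨hn.1, hn.2.1, hn.2.2.1⟩)
  rintro n ⟨h1, h2, h3, h4, h5⟩
  exact ⟨h1, h2, h3, ha.trans_lt h4⟩

theorem windows (hRH : ∀ s : ℂ, riemannZeta s = 0 → 0 < s.re → s.re < 1 → s.re = 1 / 2)
    {h a b c' : ℝ} (hh : 0 < h) (hh1 : h ≤ 1) (ha0 : 0 ≤ a) (ha : h * a ≤ 1 / 3) (hb : 0 < b)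
    (hc : c' < pd h a - 1 / b) :
    ∃ T0 : ℝ, 10 ≤ T0 ∧ ∀ T : ℝ, T0 ≤ T → ∀ H : ℝ, T ^ h ≤ H → H ≤ T →
      c' * (ZC T H : ℝ) ≤ (GC T H a b : ℝ) := by
  obtain ⟨T0, hT0, hmain⟩ := gaps hRH hh hh1 ha0 ha hb (show 0 < pd h a - 1 / b - c' by linarith)
  refine ⟨T0, hT0, fun T hT H hH hHT => ?_⟩
  refine le_trans ?_ (hmain T hT H hH hHT)
  apply mul_le_mul_of_nonneg_right _ (Nat.cast_nonneg _)
  linarith

theorem tails (hRH : ∀ s : ℂ, riemannZeta s = 0 → 0 < s.re → s.re < 1 → s.re = 1 / 2)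
    {h a c' : ℝ} (hh : 0 < h) (hh1 : h ≤ 1) (ha0 : 0 ≤ a) (ha : h * a ≤ 1 / 3)
    (hc : c' < pd h a) :
    ∃ T0 : ℝ, 10 ≤ T0 ∧ ∀ T : ℝ, T0 ≤ T → ∀ H : ℝ, T ^ h ≤ H → H ≤ T →
      c' * (ZC T H : ℝ) ≤ (GT T H a : ℝ) := by
  have h0 : 0 < pd h a - c' := by linarith
  obtain ⟨T0, hT0, hmain⟩ := windows hRH (b := 2 / (pd h a - c')) hh hh1 ha0 ha (by positivity)
    (c' := c') (by
      rw [one_div_div]
      linarith)
  refine ⟨T0, hT0, fun T hT H hH hHT => ?_⟩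
  refine (hmain T hT H hH hHT).trans ?_
  exact_mod_cast GC_le_GT le_rfl

theorem near_zero (hRH : ∀ s : ℂ, riemannZeta s = 0 → 0 < s.re → s.re < 1 → s.re = 1 / 2)
    {h b : ℝ} (hh : 0 < h) (hh1 : h ≤ 1) (hc : c0 h < 2) (hb : 1 / (2 - c0 h) < b) :
    ∃ a : ℝ, 0 < a ∧ ∃ κ : ℝ, 0 < κ ∧ ∃ T0 : ℝ, ∀ T : ℝ, T0 ≤ T → ∀ H : ℝ, T ^ h ≤ H →
      H ≤ T → κ * (ZC T H : ℝ) ≤ (GC T H a b : ℝ) := by
  have hb0 : 0 < b := lt_trans (by apply div_pos one_pos; linarith) hb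
  have h6 : 1 / b < 2 - c0 h := by
    rw [div_lt_iff₀ (by linarith)] at hb
    rw [div_lt_iff₀ hb0]
    linarith
  obtain ⟨r, hr0, hr1, hr2⟩ := pd_near_zero hh (δ := (2 - c0 h - 1 / b) / 2) (by linarith)
  obtain ⟨T0, -, hT0⟩ := windows hRH (c' := (2 - c0 h - 1 / b) / 4) hh hh1 hr0.le hr1 hb0
    (by linarith)
  exact ⟨r, hr0, (2 - c0 h - 1 / b) / 4, by linarith, T0, hT0⟩

theorem explicit (hRH : ∀ s : ℂ, riemannZeta s = 0 → 0 < s.re → s.re < 1 → s.re = 1 / 2) :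
    ∃ δ κ : ℝ, 0 < δ ∧ δ < 1 ∧ 0 < κ ∧ ∃ T0 : ℝ, ∀ T : ℝ, T0 ≤ T → ∀ H : ℝ,
      T ^ (1 - δ) ≤ H → H ≤ T →
        1 / 2 * (ZC T H : ℝ) ≤ (GT T H (1 / 3) : ℝ) ∧
        κ * (ZC T H : ℝ) ≤ (GC T H (1 / 3) 2 : ℝ) ∧
        1 / 100 * (ZC T H : ℝ) ≤ (GC T H (1 / 6) (8 / 5) : ℝ) := by
  obtain ⟨δ₁, hδ0, hδ1, hδ⟩ := pd_near_one (x := 1 / 3) half_lt_box
  obtain ⟨δ₂, hδ0', hδ1', hδ'⟩ := pd_near_one (x := 1 / 6) p_sixth
  have key : ∀ δ x : ℝ, δ < 1 → 0 < δ → (1 - δ) * (x / (1 - δ)) = x := by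
    intro δ x h _
    have : (1 - δ) ≠ 0 := by linarith
    field_simp
  have key2 : ∀ δ x : ℝ, δ < 1 → 0 < δ → 0 < x → x ≤ x / (1 - δ) := by
    intro δ x h h' hx
    rw [le_div_iff₀ (by linarith)]
    nlinarith
  set P := pd (1 - δ₁) (1 / 3 / (1 - δ₁)) with hP
  have hh1 : 0 < 1 - δ₁ := by linarith
  have hh2 : 0 < 1 - δ₂ := by linarith
  obtain ⟨T1, hT1, h1⟩ := tails hRH (h := 1 - δ₁) (a := 1 / 3 / (1 - δ₁)) (c' := 1 / 2)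
    hh1 (by linarith) (by positivity) (by rw [key _ _ hδ1 hδ0]) (by rw [← hP]; linarith)
  obtain ⟨T2, hT2, h2⟩ := windows hRH (h := 1 - δ₁) (a := 1 / 3 / (1 - δ₁)) (b := 2)
    (c' := (P - 1 / 2) / 2)
    hh1 (by linarith) (by positivity) (by rw [key _ _ hδ1 hδ0]) (by norm_num)
    (by rw [← hP]; linarith)
  obtain ⟨T3, hT3, h3⟩ := windows hRH (h := 1 - δ₂) (a := 1 / 6 / (1 - δ₂)) (b := 8 / 5)
    (c' := 1 / 100)
    hh2 (by linarith) (by positivity) (by rw [key _ _ hδ1' hδ0']; norm_num) (by norm_num)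
    (by norm_num; norm_num at hδ'; linarith)
  refine ⟨min δ₁ δ₂, (P - 1 / 2) / 2, lt_min hδ0 hδ0', (min_le_left _ _).trans_lt hδ1,
    by linarith, max (max T1 T2) T3, fun T hT H hH hHT => ?_⟩
  have hTT1 : T1 ≤ T := ((le_max_left _ _).trans (le_max_left _ _)).trans hT
  have hTT2 : T2 ≤ T := ((le_max_right _ _).trans (le_max_left _ _)).trans hT
  have hTT3 : T3 ≤ T := (le_max_right _ _).trans hT
  have hT1' : 1 ≤ T := by linarith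
  have hH1 : T ^ (1 - δ₁) ≤ H :=
    (Real.rpow_le_rpow_of_exponent_le hT1' (by linarith [min_le_left δ₁ δ₂])).trans hH
  have hH2 : T ^ (1 - δ₂) ≤ H :=
    (Real.rpow_le_rpow_of_exponent_le hT1' (by linarith [min_le_right δ₁ δ₂])).trans hH
  refine ⟨?_, ?_, ?_⟩
  · refine (h1 T hTT1 H hH1 hHT).trans ?_
    have : GT T H (1 / 3 / (1 - δ₁)) ≤ GT T H (1 / 3) := by
      apply Set.ncard_le_ncard _ ((idx_finite T H).subset fun n hn => ⟨hn.1, hn.2.1, hn.2.2.1⟩)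
      rintro n ⟨g1, g2, g3, g4⟩
      exact ⟨g1, g2, g3, (key2 δ₁ (1 / 3) hδ1 hδ0 (by norm_num)).trans_lt g4⟩
    exact_mod_cast this
  · refine (h2 T hTT2 H hH1 hHT).trans ?_
    exact_mod_cast GC_mono (key2 δ₁ (1 / 3) hδ1 hδ0 (by norm_num)) le_rfl
  · refine (h3 T hTT3 H hH2 hHT).trans ?_
    exact_mod_cast GC_mono (key2 δ₂ (1 / 6) hδ1' hδ0' (by norm_num)) le_rfl

end Pool.Agent.H24R3.GapsShort
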