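import Pool.Agent.H345R2.A2.Lin

/-! Montgomery's theorem in every short interval: the pair sum without exceptional set. -/

open Complex Filter Topology Set MeasureTheory
open scoped BigOperators ComplexConjugate

namespace Pool.Agent.H24R3.PairEvery

open H370 H370.AS H370.A2 H295SI

lemma log_gap {X m n : ℕ} (hm : m ≤ X) (hn : 1 ≤ n) (h : n < m) :
    1 / (X : ℝ) ≤ Real.log m - Real.log n := by
  have hn0 : (0 : ℝ) < n := by exact_mod_cast hn
  have hm0 : (0 : ℝ) < m := by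
    have : 0 < m := by omega
    exact_mod_cast this
  have hmX : (m : ℝ) ≤ X := by exact_mod_cast hm
  have hX0 : (0 : ℝ) < X := hm0.trans_le hmX
  have h1 := Real.one_sub_inv_le_log_of_pos (div_pos hm0 hn0)
  rw [Real.log_div hm0.ne' hn0.ne', inv_div] at h1
  refine le_trans ?_ h1
  have h2 : (n : ℝ) + 1 ≤ m := by exact_mod_cast h
  have h3 : 1 / (X : ℝ) ≤ 1 / m := one_div_le_one_div_of_le hm0 hmX
  refine h3.trans ?_
  have h4 : 1 - (n : ℝ) / m = (m - n) / m := by field_simp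
  rw [h4]
  gcongr
  linarith

lemma ld_low {X : ℕ} {p : ℕ × ℕ} (hp : p ∈ off X) : 1 / (X : ℝ) ^ 2 ≤ ld p ^ 2 := by
  unfold off at hp
  rw [Finset.mem_filter, mem_sq] at hp
  obtain ⟨⟨⟨a1, a2⟩, a3, a4⟩, hne⟩ := hp
  have hX0 : (0 : ℝ) ≤ 1 / (X : ℝ) := by positivity
  have e : 1 / (X : ℝ) ^ 2 = (1 / (X : ℝ)) ^ 2 := by rw [one_div_pow]
  rw [e]
  unfold ld
  rcases lt_or_gt_of_ne hne with h | h
  · have h1 := log_gap a4 a1 h
    have h2 : (Real.log p.1 - Real.log p.2) ^ 2 = (Real.log p.2 - Real.log p.1) ^ 2 := by ring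
    rw [h2]
    gcongr
  · have h1 := log_gap a2 a3 h
    gcongr

lemma EE_pt (b : ℕ → ℂ) (X : ℕ) (σ x Bd : ℝ) (hBd : 0 ≤ Bd)
    (hb : ∀ n ∈ Finset.Icc 1 X, ‖b n‖ ≤ Bd) :
    ‖EE b X σ x‖ ≤ (X : ℝ) ^ 2 * (Bd ^ 2 * Real.exp (-(σ ^ 2 / (X : ℝ) ^ 2) / 2)) := by
  unfold EE
  refine (norm_sum_le _ _).trans ?_
  have h1 : ∀ p ∈ off X, ‖cf b σ p * cexp (-(I * x * ld p))‖ ≤
      Bd ^ 2 * Real.exp (-(σ ^ 2 / (X : ℝ) ^ 2) / 2) := by
    intro p hp
    have hp' := hp
    unfold off at hp'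
    rw [Finset.mem_filter, mem_sq] at hp'
    obtain ⟨⟨⟨a1, a2⟩, a3, a4⟩, -⟩ := hp'
    have hexp : ‖cexp (-(I * x * ld p))‖ = 1 := by
      rw [Complex.norm_exp]
      simp
    rw [norm_mul, hexp, mul_one]
    unfold cf
    rw [norm_mul, norm_mul, RCLike.norm_conj, Complex.norm_real,
      Real.norm_of_nonneg (Real.exp_pos _).le]
    have e1 := hb p.1 (Finset.mem_Icc.mpr ⟨a1, a2⟩)
    have e2 := hb p.2 (Finset.mem_Icc.mpr ⟨a3, a4⟩)
    have e3 := ld_low hp
    have e4 : Real.exp (-(σ ^ 2 * ld p ^ 2) / 2) ≤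
        Real.exp (-(σ ^ 2 / (X : ℝ) ^ 2) / 2) := by
      apply Real.exp_le_exp.mpr
      have : σ ^ 2 / (X : ℝ) ^ 2 ≤ σ ^ 2 * ld p ^ 2 := by
        rw [div_eq_mul_one_div]
        exact mul_le_mul_of_nonneg_left e3 (sq_nonneg _)
      linarith
    calc ‖b p.1‖ * ‖b p.2‖ * Real.exp (-(σ ^ 2 * ld p ^ 2) / 2) ≤
        Bd * Bd * Real.exp (-(σ ^ 2 / (X : ℝ) ^ 2) / 2) := by gcongr
      _ = _ := by ring
  refine (Finset.sum_le_sum h1).trans ?_
  rw [Finset.sum_const, nsmul_eq_mul]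
  have h2 : ((off X).card : ℝ) ≤ (X : ℝ) ^ 2 := by
    have : (off X).card ≤ X ^ 2 := by
      unfold off
      refine (Finset.card_filter_le _ _).trans ?_
      unfold H370.AS.sq
      rw [Finset.card_product, Nat.card_Icc]
      simp [pow_two]
    exact_mod_cast this
  exact mul_le_mul_of_nonneg_right h2 (by positivity)

lemma QE_pt {R : ℝ → ℝ} (hR : Conv R) (a : ℕ → ℂ) (Λ : ℝ) (X : ℕ) (σ x M : ℝ)
    (hM : ∀ u, ‖EE (bb a u) X σ x‖ ≤ M) : QE R a Λ X σ x ≤ R 0 * M ^ 2 := by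
  unfold QE
  have h1 : ∫ α in (0 : ℝ)..1, R α * ‖EE (bb a (Λ * α)) X σ x‖ ^ 2 ≤
      ∫ α in (0 : ℝ)..1, R 0 * M ^ 2 := by
    apply intervalIntegral.integral_mono_on zero_le_one
    · have h := QE_aux hR a Λ X σ
      exact (h.comp (by fun_prop : Continuous fun α : ℝ => ((α, x) : ℝ × ℝ))).intervalIntegrable
        _ _
    · exact intervalIntegrable_const
    · intro α hα
      have h2 : R α ≤ R 0 := hR.anti (Set.mem_Ici.mpr le_rfl) (Set.mem_Ici.mpr hα.1) hα.1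
      have h4 := hM (Λ * α)
      have h5 : ‖EE (bb a (Λ * α)) X σ x‖ ^ 2 ≤ M ^ 2 := by gcongr
      exact mul_le_mul h2 h5 (by positivity) (hR.nonneg 0)
  simpa using h1

theorem every_pairs {R : ℝ → ℝ} (hR : Conv R) {F : ℂ → ℂ} (hF : GoodL F) {a : ℕ → ℂ}
    (han : ∀ n, ‖a n‖ = ArithmeticFunction.vonMangoldt n)
    (hld : ∀ s : ℂ, 1 < s.re → 1 ≤ s.im → deriv F s / F s = - ∑' n : ℕ, a n * (n : ℂ) ^ (-s))
    (η0 μ ε : ℝ) (hη1 : η0 < 1) (hμ : 0 < μ) (hgap : μ < η0)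
    (hε : 0 < ε) : ∃ T0 : ℝ, 10 ≤ T0 ∧ ∀ T : ℝ, T0 ≤ T → ∀ H : ℝ,
      T ^ η0 ≤ H → H ≤ T / 2 → ∀ t : ℝ, T ≤ t → t ≤ 2 * T →
        (|(NN F t (t + H) : ℝ) - H * Real.log T / (2 * Real.pi)| ≤
            ε * (H * Real.log T / (2 * Real.pi)) ∧
          |PS R F t (t + H) (μ * Real.log T) - (H * Real.log T / (2 * Real.pi)) * cR R μ| ≤
            ε * (H * Real.log T / (2 * Real.pi))) := by
  have ha : ∀ n, ‖a n‖ ≤ ArithmeticFunction.vonMangoldt n := fun n => (han n).le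
  set g : ℝ := η0 - μ with hg
  have hg0 : 0 < g := by rw [hg]; linarith
  set lam : ℝ := μ + g / 4 with hlam
  set r : ℝ := μ + g / 2 with hr
  set κ : ℝ := g / 16 with hκ
  have hκ0 : 0 < κ := by positivity
  have hlam0 : 0 < lam := by positivity
  have hr0 : 0 < r := by positivity
  have hr1 : r < 1 := by rw [hr]; linarith
  have hrη : r < η0 := by rw [hr]; linarith
  have hR0 : 0 ≤ R 0 := hR.nonneg 0
  obtain ⟨θ, hθ0, hθ1, T2, hT2, hm⟩ := pair_two (τ := 1 / 2) hR hF han hld (by norm_num) r μ lam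
    (κ / 2) ε hr0 hr1 hμ (by rw [hlam]; linarith) (by rw [hlam]; linarith)
    (by rw [hlam, hr]; linarith) (by positivity) hε
  set m0 : ℝ := 1 / (2 * (R 0 + 1)) with hm0
  have hm00 : 0 < m0 := by positivity
  have hm01 : R 0 * m0 ^ 2 ≤ 1 / 2 := by
    have h1 : (R 0 + 1) * m0 = 1 / 2 := by rw [hm0]; field_simp
    have h2 : m0 ≤ 1 := by
      rw [hm0, div_le_one (by positivity)]; linarith
    calc R 0 * m0 ^ 2 = (R 0 * m0) * m0 := by ring
      _ ≤ ((R 0 + 1) * m0) * 1 := by gcongr; linarith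
      _ = 1 / 2 := by rw [h1]; ring
  -- eventual facts
  have ev1 : ∀ᶠ T : ℝ in atTop, (2 * T) ^ r ≤ T ^ η0 := by
    have h1 : ∀ᶠ T : ℝ in atTop, (2 : ℝ) ^ r ≤ T ^ (η0 - r) :=
      (tendsto_rpow_atTop (by linarith)).eventually_ge_atTop _
    filter_upwards [h1, eventually_gt_atTop 0] with T h1 h2
    calc (2 * T) ^ r = 2 ^ r * T ^ r := Real.mul_rpow (by norm_num) h2.le
      _ ≤ T ^ (η0 - r) * T ^ r := by gcongr
      _ = T ^ η0 := by rw [← Real.rpow_add h2]; congr 1; ring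
  have ev2 : ∀ᶠ T : ℝ in atTop, (lam + κ / 2) * Real.log 2 / (κ / 2) ≤ Real.log T :=
    Real.tendsto_log_atTop.eventually_ge_atTop _
  have ev3 : ∀ᶠ T : ℝ in atTop,
      Real.sqrt 2 * Real.exp (-((θ / 4) ^ 2 * T ^ (2 * κ)) / 4) ≤ θ / (1 + θ) := by
    have h1 : Tendsto (fun T : ℝ => Real.sqrt 2 * Real.exp (-((θ / 4) ^ 2 * T ^ (2 * κ)) / 4))
        atTop (𝓝 (Real.sqrt 2 * 0)) := by
      apply Tendsto.const_mul
      apply Real.tendsto_exp_atBot.comp
      have h2 : Tendsto (fun T : ℝ => (θ / 4) ^ 2 / 4 * T ^ (2 * κ)) atTop atTop :=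
        (tendsto_rpow_atTop (by positivity)).const_mul_atTop (by positivity)
      refine (tendsto_neg_atTop_atBot.comp h2).congr fun T => ?_
      simp only [Function.comp]
      ring
    rw [mul_zero] at h1
    exact h1.eventually (ge_mem_nhds (by positivity))
  have ev4 : ∀ᶠ T : ℝ in atTop, Real.exp (-(T ^ (2 * κ) / 4)) ≤ m0 := by
    have h1 : Tendsto (fun T : ℝ => Real.exp (-(T ^ (2 * κ) / 4))) atTop (𝓝 0) := by
      apply Real.tendsto_exp_atBot.comp
      have h2 : Tendsto (fun T : ℝ => 1 / 4 * T ^ (2 * κ)) atTop atTop :=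
        (tendsto_rpow_atTop (by positivity)).const_mul_atTop (by positivity)
      refine (tendsto_neg_atTop_atBot.comp h2).congr fun T => ?_
      simp only [Function.comp]
      ring
    exact h1.eventually (ge_mem_nhds hm00)
  have ev5 : ∀ᶠ T : ℝ in atTop, 4 * Real.log T ≤ T ^ (2 * κ) / 4 := by
    have h1 := (isLittleO_log_rpow_atTop (show (0 : ℝ) < 2 * κ by positivity)).bound
      (show (0 : ℝ) < 1 / 16 by norm_num)
    filter_upwards [h1, eventually_ge_atTop 1] with T hT hT1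
    have hl : 0 ≤ Real.log T := Real.log_nonneg hT1
    rw [Real.norm_of_nonneg hl, Real.norm_of_nonneg (by positivity)] at hT
    linarith
  have ev6 : ∀ᶠ T : ℝ in atTop,
      (4 * (lam + κ) + 1) * Real.log T ≤ (θ / 4) ^ 2 / 4 * T ^ (2 * κ) := by
    have hpos : 0 < 4 * (lam + κ) + 1 := by positivity
    have h1 := (isLittleO_log_rpow_atTop (show (0 : ℝ) < 2 * κ by positivity)).bound
      (show (0 : ℝ) < (θ / 4) ^ 2 / 4 / (4 * (lam + κ) + 1) by positivity)
    filter_upwards [h1, eventually_ge_atTop 1] with T hT hT1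
    have hl : 0 ≤ Real.log T := Real.log_nonneg hT1
    rw [Real.norm_of_nonneg hl, Real.norm_of_nonneg (by positivity)] at hT
    calc (4 * (lam + κ) + 1) * Real.log T ≤ (4 * (lam + κ) + 1) *
        ((θ / 4) ^ 2 / 4 / (4 * (lam + κ) + 1) * T ^ (2 * κ)) := by gcongr
      _ = _ := by field_simp
  obtain ⟨T4, hT4⟩ := (((((ev1.and ev2).and ev3).and ev4).and ev5).and ev6).exists_forall_of_atTop
  refine ⟨max 100 (max (T2 + 1) T4), le_trans (by norm_num) (le_max_left _ _),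
    fun T hT H hH1 hH2 t ht1 ht2 => ?_⟩
  have hT100 : 100 ≤ T := (le_max_left _ _).trans hT
  have hTT2 : T2 + 1 ≤ T := ((le_max_left _ _).trans (le_max_right _ _)).trans hT
  obtain ⟨⟨⟨⟨⟨e1, e2⟩, e3⟩, e4⟩, e5⟩, e6⟩ := hT4 T (((le_max_right _ _).trans
    (le_max_right _ _)).trans hT)
  have hTpos : 0 < T := by linarith
  have hT1' : 1 ≤ T := by linarith
  have hHpos : 0 < H := lt_of_lt_of_le (Real.rpow_pos_of_pos hTpos _) hH1
  have hlogT : 0 < Real.log T := Real.log_pos (by linarith)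
  set X : ℕ := ⌊T ^ (lam + κ)⌋₊ with hX
  set σ : ℝ := H * T ^ (-κ) with hσ
  have hTκ : 0 < T ^ (-κ) := Real.rpow_pos_of_pos hTpos _
  have hσ0 : 0 < σ := by positivity
  set w : ℝ := θ / 4 * H with hw
  have hw0 : 0 ≤ w := by positivity
  have hw2 : w ≤ H / 2 := by rw [hw]; nlinarith
  have hexpo : -w ^ 2 / (4 * σ ^ 2) = -((θ / 4) ^ 2 * T ^ (2 * κ)) / 4 := by
    have h1 : T ^ (2 * κ) * (T ^ (-κ)) ^ 2 = 1 := by
      rw [← Real.rpow_natCast, ← Real.rpow_mul hTpos.le, ← Real.rpow_add hTpos]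
      have : 2 * κ + -κ * ((2 : ℕ) : ℝ) = 0 := by push_cast; ring
      rw [this, Real.rpow_zero]
    rw [hw, hσ, div_eq_div_iff (by positivity) (by norm_num)]
    have h2 : ((θ / 4) ^ 2 * T ^ (2 * κ)) * (4 * (H * T ^ (-κ)) ^ 2) =
        (θ / 4) ^ 2 * 4 * H ^ 2 * (T ^ (2 * κ) * (T ^ (-κ)) ^ 2) := by ring
    linear_combination h2 + (θ / 4) ^ 2 * 4 * H ^ 2 * h1
  have hmass : Real.sqrt 2 * Real.exp (-w ^ 2 / (4 * σ ^ 2)) ≤ θ / (1 + θ) := by
    rw [hexpo]; exact e3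
  have hXle : (X : ℝ) ≤ T ^ (lam + κ) := Nat.floor_le (by positivity)
  have hmass2 : (X : ℝ) ^ 4 * (Real.sqrt 2 * Real.exp (-w ^ 2 / (4 * σ ^ 2))) ≤ 1 := by
    rw [hexpo]
    have h2 : (X : ℝ) ^ 4 ≤ Real.exp (4 * (lam + κ) * Real.log T) := by
      calc (X : ℝ) ^ 4 ≤ (T ^ (lam + κ)) ^ 4 := by gcongr
        _ = Real.exp (4 * (lam + κ) * Real.log T) := by
          rw [Real.rpow_def_of_pos hTpos, ← Real.exp_nat_mul]
          congr 1
          push_cast; ring
    have h3 : Real.sqrt 2 ≤ Real.exp (Real.log T) := by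
      rw [Real.exp_log hTpos]
      have : Real.sqrt 2 ≤ 2 := by
        rw [Real.sqrt_le_left (by norm_num)]; norm_num
      linarith
    calc (X : ℝ) ^ 4 * (Real.sqrt 2 * Real.exp (-((θ / 4) ^ 2 * T ^ (2 * κ)) / 4)) ≤
        Real.exp (4 * (lam + κ) * Real.log T) * (Real.exp (Real.log T) *
          Real.exp (-((θ / 4) ^ 2 * T ^ (2 * κ)) / 4)) := by gcongr
      _ = Real.exp (4 * (lam + κ) * Real.log T + (Real.log T +
          -((θ / 4) ^ 2 * T ^ (2 * κ)) / 4)) := by rw [Real.exp_add, Real.exp_add]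
      _ ≤ 1 := by
        rw [Real.exp_le_one_iff]
        linarith
  -- the off-diagonal part is tiny
  have hX1 : 1 ≤ X := by
    rw [hX]
    apply Nat.le_floor
    rw [Nat.cast_one]
    exact Real.one_le_rpow hT1' (by positivity)
  have hXr1 : (1 : ℝ) ≤ X := by exact_mod_cast hX1
  have hX0 : (0 : ℝ) < X := by linarith
  have hXT : (X : ℝ) ≤ T := by
    calc (X : ℝ) ≤ T ^ (lam + κ) := hXle
      _ ≤ T ^ (1 : ℝ) := Real.rpow_le_rpow_of_exponent_le hT1' (by rw [hlam, hκ]; linarith)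
      _ = T := Real.rpow_one T
  have hlogX0 : 0 ≤ Real.log X := Real.log_nonneg hXr1
  have hlogX : Real.log X ≤ T := by
    have := Real.log_le_sub_one_of_pos hX0
    linarith
  have hratio : T ^ (2 * κ) ≤ σ ^ 2 / (X : ℝ) ^ 2 := by
    have h1 : T ^ κ ≤ σ / X := by
      rw [le_div_iff₀ hX0]
      calc T ^ κ * X ≤ T ^ κ * T ^ (lam + κ) := by gcongr
        _ = T ^ (κ + (lam + κ)) := by rw [← Real.rpow_add hTpos]
        _ ≤ T ^ (η0 + -κ) := Real.rpow_le_rpow_of_exponent_le hT1' (by rw [hlam, hκ]; linarith)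
        _ = T ^ η0 * T ^ (-κ) := by rw [Real.rpow_add hTpos]
        _ ≤ H * T ^ (-κ) := by gcongr
    calc T ^ (2 * κ) = (T ^ κ) ^ 2 := by
          rw [← Real.rpow_natCast, ← Real.rpow_mul hTpos.le]
          congr 1
          push_cast; ring
      _ ≤ (σ / X) ^ 2 := by gcongr
      _ = _ := by rw [div_pow]
  have hEE : ∀ u x : ℝ, ‖EE (bb a u) X σ x‖ ≤ m0 := by
    intro u x
    have h1 : ∀ n ∈ Finset.Icc 1 X, ‖bb a u n‖ ≤ Real.log X := by
      intro n hn
      refine (bb_le ha u X n hn).trans ?_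
      apply div_le_self hlogX0
      rw [Finset.mem_Icc] at hn
      have : (1 : ℝ) ≤ n := by exact_mod_cast hn.1
      exact Real.one_le_sqrt.mpr this
    refine (EE_pt (bb a u) X σ x (Real.log X) hlogX0 h1).trans ?_
    have h2 : Real.exp (-(σ ^ 2 / (X : ℝ) ^ 2) / 2) ≤ Real.exp (-(T ^ (2 * κ)) / 2) := by
      apply Real.exp_le_exp.mpr
      linarith
    have h3 : T ^ 4 = Real.exp (4 * Real.log T) := by
      rw [show (4 : ℝ) * Real.log T = ((4 : ℕ) : ℝ) * Real.log T by norm_num, Real.exp_nat_mul,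
        Real.exp_log hTpos]
    calc (X : ℝ) ^ 2 * (Real.log X ^ 2 * Real.exp (-(σ ^ 2 / (X : ℝ) ^ 2) / 2)) ≤
        T ^ 2 * (T ^ 2 * Real.exp (-(T ^ (2 * κ)) / 2)) := by gcongr
      _ = T ^ 4 * Real.exp (-(T ^ (2 * κ)) / 2) := by ring
      _ = Real.exp (4 * Real.log T + -(T ^ (2 * κ)) / 2) := by rw [h3, Real.exp_add]
      _ ≤ Real.exp (-(T ^ (2 * κ) / 4)) := by
        apply Real.exp_le_exp.mpr
        linarith
      _ ≤ m0 := e4
  have hint : ∫ x in (t - w)..(t + H + w), QE R a (μ * Real.log T) X σ x ≤ H := by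
    calc ∫ x in (t - w)..(t + H + w), QE R a (μ * Real.log T) X σ x ≤
        ∫ x in (t - w)..(t + H + w), (1 / 2 : ℝ) := by
          apply intervalIntegral.integral_mono_on (by linarith)
          · exact (QE_cont hR a _ X σ).intervalIntegrable _ _
          · exact intervalIntegrable_const
          · intro x _
            exact (QE_pt hR a _ X σ x m0 (fun u => hEE u x)).trans hm01
      _ = (t + H + w - (t - w)) * (1 / 2) := by
          rw [intervalIntegral.integral_const, smul_eq_mul]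
      _ ≤ H := by linarith
  -- application
  have hlogb : Real.log (t - 1) ≤ Real.log T + Real.log 2 := by
    rw [← Real.log_mul hTpos.ne' (by norm_num)]
    exact Real.log_le_log (by linarith) (by linarith)
  have hlogb2 : Real.log T ≤ Real.log (t - 1) + Real.log 2 := by
    rw [← Real.log_mul (by linarith) (by norm_num)]
    exact Real.log_le_log hTpos (by linarith)
  have hl2 : Real.log 2 ≤ 1 := by
    have := Real.log_two_lt_d9; linarith
  have hadd : t + H - t = H := by ring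
  have h := hm (t - 1) (by linarith) (Real.log T) (by rw [abs_le]; constructor <;> linarith)
    t (t + H) (by linarith) (by linarith) ?_ ?_ σ w X hσ0 hw0 ?_ hmass hmass2 ?_ ?_
  · rw [hadd] at h
    exact h
  · rw [hadd]
    calc (t - 1) ^ r ≤ (2 * T) ^ r := Real.rpow_le_rpow (by linarith) (by linarith) hr0.le
      _ ≤ T ^ η0 := e1
      _ ≤ H := hH1
  · intro s hs _
    obtain ⟨h1, h2, h3, h4, h5⟩ := hs
    linarith
  · rw [hadd]
  · have h1 : T ^ (lam + κ) ≤ (X : ℝ) + 1 := (Nat.lt_floor_add_one _).le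
    have h2 : (lam + κ) * Real.log T ≤ Real.log (X + 1) := by
      rw [← Real.log_rpow hTpos]
      exact Real.log_le_log (Real.rpow_pos_of_pos hTpos _) h1
    refine le_trans ?_ h2
    rw [div_le_iff₀ (by positivity)] at e2
    calc (lam + κ / 2) * Real.log (t - 1) ≤ (lam + κ / 2) * (Real.log T + Real.log 2) := by gcongr
      _ = (lam + κ / 2) * Real.log T + (lam + κ / 2) * Real.log 2 := by ring
      _ ≤ (lam + κ / 2) * Real.log T + Real.log T * (κ / 2) := by linarith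
      _ = (lam + κ) * Real.log T := by ring
  · rw [hadd]; exact hint

end Pool.Agent.H24R3.PairEvery
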