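import Pool.Agent.H295R2.Iso.B
import Pool.Agent.H345R2.SI.Count
import Pool.Agent.H820R3.PC.Comb

/-!
# Pairs of ordinates at bounded distance in every short interval
-/

open Complex Filter Topology Set
open scoped BigOperators

namespace Pool.Agent.H24R3.PairsShort

open H370 H344 H295SI H295Iso

/-- ordered pairs of zeros of `F` with ordinates in `(T, T + H]`, with multiplicity, with difference
of the ordinates times `log T / 2π` in `[α, β]` -/
noncomputable def NP (F : ℂ → ℂ) (T H α β : ℝ) : ℕ :=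
  ∑ᶠ s ∈ zset F T (T + H), ∑ᶠ s' ∈ {s' : ℂ | s' ∈ zset F T (T + H) ∧
    α ≤ (s.im - s'.im) * Real.log T / (2 * Real.pi) ∧
    (s.im - s'.im) * Real.log T / (2 * Real.pi) ≤ β}, mult F s * mult F s'

/-- the finite form of the lower bound -/
lemma NP_lower {F : ℂ → ℂ} (hF : GoodL F) (T H α β : ℝ) (hT : 1 < T) (A : Finset ℝ)
    (hA : ∀ x ∈ A, (1 / 2 + ((T + x : ℝ) : ℂ) * I : ℂ) ∈ zset F T (T + H) ∧
      mult F (1 / 2 + ((T + x : ℝ) : ℂ) * I : ℂ) = 1) :
    ∑ y ∈ A, (A.filter (fun x => 2 * Real.pi * α / Real.log T ≤ y - x ∧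
      y - x ≤ 2 * Real.pi * β / Real.log T)).card ≤ NP F T H α β := by
  classical
  have hlog : 0 < Real.log T := Real.log_pos hT
  have hpi := Real.pi_pos
  have hfinZ : (zset F T (T + H)).Finite := zset_finite hF T (T + H) hT.le
  set Z := hfinZ.toFinset with hZ
  have hN : NP F T H α β = ∑ s ∈ Z, ∑ s' ∈ Z.filter (fun s' =>
      α ≤ (s.im - s'.im) * Real.log T / (2 * Real.pi) ∧
      (s.im - s'.im) * Real.log T / (2 * Real.pi) ≤ β), mult F s * mult F s' := by
    unfold NP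
    rw [finsum_mem_eq_finite_toFinset_sum _ hfinZ]
    refine Finset.sum_congr rfl fun s _ => ?_
    have hfin : {s' : ℂ | s' ∈ zset F T (T + H) ∧
        α ≤ (s.im - s'.im) * Real.log T / (2 * Real.pi) ∧
        (s.im - s'.im) * Real.log T / (2 * Real.pi) ≤ β}.Finite :=
      hfinZ.subset fun _ h => h.1
    rw [finsum_mem_eq_finite_toFinset_sum _ hfin]
    refine Finset.sum_congr ?_ fun _ _ => rfl
    ext s'
    rw [Set.Finite.mem_toFinset, Finset.mem_filter, hZ, Set.Finite.mem_toFinset]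
    rfl
  rw [hN]
  set g : ℝ → ℂ := fun x => 1 / 2 + ((T + x : ℝ) : ℂ) * I with hg
  have him : ∀ x : ℝ, (g x).im = T + x := by intro x; simp [hg]
  have hinj : Function.Injective g := by
    intro x y hxy
    have := congrArg Complex.im hxy
    rw [him, him] at this
    linarith
  have hsub : A.image g ⊆ Z := by
    intro s hs
    obtain ⟨x, hx, rfl⟩ := Finset.mem_image.mp hs
    rw [hZ, Set.Finite.mem_toFinset]
    exact (hA x hx).1
  refine le_trans ?_ (Finset.sum_le_sum_of_subset hsub)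
  rw [Finset.sum_image fun x _ y _ h => hinj h]
  refine Finset.sum_le_sum fun y hy => ?_
  have hsub2 : (A.filter (fun x => 2 * Real.pi * α / Real.log T ≤ y - x ∧
      y - x ≤ 2 * Real.pi * β / Real.log T)).image g ⊆ Z.filter (fun s' =>
      α ≤ ((g y).im - s'.im) * Real.log T / (2 * Real.pi) ∧
      ((g y).im - s'.im) * Real.log T / (2 * Real.pi) ≤ β) := by
    intro s hs
    obtain ⟨x, hx, rfl⟩ := Finset.mem_image.mp hs
    obtain ⟨hx1, hx2, hx3⟩ := Finset.mem_filter.mp hx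
    have e : T + y - (T + x) = y - x := by ring
    refine Finset.mem_filter.mpr ⟨hsub (Finset.mem_image_of_mem g hx1), ?_, ?_⟩
    · rw [him, him, e, le_div_iff₀ (by positivity)]
      rw [div_le_iff₀ hlog] at hx2
      linarith
    · rw [him, him, e, div_le_iff₀ (by positivity)]
      rw [le_div_iff₀ hlog] at hx3
      linarith
  refine le_trans ?_ (Finset.sum_le_sum_of_subset hsub2)
  rw [Finset.sum_image fun x _ y _ h => hinj h, Finset.card_eq_sum_ones]
  refine Finset.sum_le_sum fun x hx => ?_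
  rw [(hA y hy).2, (hA x (Finset.mem_filter.mp hx).1).2]

/-- the shifted ordinates of the isolated zeros in `(T, T + H]` -/
theorem ordinates {F : ℂ → ℂ} (hF : GoodL F) {T H ρ w : ℝ} (hT : 1 ≤ T) (hw : 0 ≤ w) :
    ∃ A : Finset ℝ, A.card = isoN F T H ρ w ∧ (∀ x ∈ A, 0 < x ∧ x ≤ H) ∧
      (∀ x ∈ A, (1 / 2 + ((T + x : ℝ) : ℂ) * I : ℂ) ∈ zset F T (T + H) ∧
        mult F (1 / 2 + ((T + x : ℝ) : ℂ) * I : ℂ) = 1) ∧
      ∀ x ∈ A, ∀ z ∈ A, x < z → ρ < z - x := by
  classical
  have hfin : (isoSet F T H ρ w).Finite :=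
    (zset_finite hF T (T + H) hT).subset fun s hs => hs.1
  have hinj : Set.InjOn (fun s : ℂ => s.im - T) (isoSet F T H ρ w) := by
    intro s hs s' hs' h
    simp only at h
    exact Complex.ext (by rw [hs.2.1, hs'.2.1]) (by linarith)
  have hback : ∀ s : ℂ, s.re = 1 / 2 → (1 / 2 + ((T + (s.im - T) : ℝ) : ℂ) * I : ℂ) = s := by
    intro s hs
    apply Complex.ext
    · simp [hs]
    · simp
  refine ⟨hfin.toFinset.image (fun s : ℂ => s.im - T), ?_, ?_, ?_, ?_⟩
  · unfold isoN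
    rw [Finset.card_image_of_injOn, Set.ncard_eq_toFinset_card _ hfin]
    intro s hs s' hs' h
    exact hinj (by simpa using hs) (by simpa using hs') h
  · intro x hx
    obtain ⟨s, hs, rfl⟩ := Finset.mem_image.mp hx
    have hs := hfin.mem_toFinset.mp hs
    have h1 := hs.1.2.2.1
    have h2 := hs.1.2.2.2.1
    constructor
    · linarith
    · linarith
  · intro x hx
    obtain ⟨s, hs, rfl⟩ := Finset.mem_image.mp hx
    have hs := hfin.mem_toFinset.mp hs
    rw [hback s hs.2.1]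
    exact ⟨hs.1, hs.2.2.1⟩
  · intro x hx z hz hxz
    obtain ⟨s, hs, rfl⟩ := Finset.mem_image.mp hx
    obtain ⟨s', hs', rfl⟩ := Finset.mem_image.mp hz
    have hs := hfin.mem_toFinset.mp hs
    have hs' := hfin.mem_toFinset.mp hs'
    by_contra hcon
    push Not at hcon
    have hne : s' ≠ s := by
      rintro rfl
      exact lt_irrefl _ hxz
    have h1 := hs.2.2.2 s' hs'.1.2.2.2.2 hs'.1.1 hs'.1.2.1 hne ?_
    · rw [hs'.2.1, sub_self, abs_zero] at h1
      linarith
    · rw [abs_of_pos (by linarith)]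
      linarith

/-- the density of the isolated zeros -/
noncomputable def pd (h r : ℝ) : ℝ := 1 - (c0 h - 1) / KK (h * r) ^ 2

theorem pairs {F : ℂ → ℂ} (hF : GoodL F) {h r α β ε : ℝ} (hh : 0 < h) (hh1 : h ≤ 1)
    (hr0 : 0 < r) (hr : h * r ≤ 1 / 3) (hα : 0 < α) (hβ : 0 < β) (hε : 0 < ε) :
    ∃ T0 : ℝ, 10 ≤ T0 ∧ ∀ T : ℝ, T0 ≤ T → ∀ H : ℝ, T ^ h ≤ H → H ≤ T →
      (∑ k ∈ Finset.Icc ⌈α / r⌉₊ ⌊β * pd h r⌋₊, (pd h r - k / β) - ε) *
        (H / (2 * Real.pi) * Real.log T) ≤ (NP F T H α β : ℝ) := by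
  classical
  have hpi := Real.pi_pos
  set P := pd h r with hP
  set Kn := ⌊β * P⌋₊ with hKn
  set κ : ℝ := ε / (4 * (Kn + 1)) with hκ
  have hκ0 : 0 < κ := by positivity
  obtain ⟨T1, hT1, hiso⟩ := iso_short hF hh hh1 hr0.le hr hκ0
  obtain ⟨C, hC, hcnt⟩ := H370.SI.nn_short hF
  -- `η` for the counting function
  set η : ℝ := κ / (|P| + κ + 1) with hη
  have hη0 : 0 < η := by positivity
  have htop : Tendsto (fun T : ℝ => T ^ h) atTop atTop := tendsto_rpow_atTop hh
  have hlogtop := Real.tendsto_log_atTop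
  have hlittle : ∀ᶠ T : ℝ in atTop, (Real.log T) ^ 2 ≤ T ^ h := by
    have h1 := (isLittleO_log_rpow_atTop (show 0 < h / 2 by positivity)).bound
      (show (0 : ℝ) < 1 by norm_num)
    filter_upwards [h1, eventually_ge_atTop (1 : ℝ)] with T hT hT1
    have h2 : 0 ≤ Real.log T := Real.log_nonneg hT1
    have h3 : 0 ≤ T ^ (h / 2) := Real.rpow_nonneg (by linarith) _
    rw [Real.norm_of_nonneg h2, Real.norm_of_nonneg h3, one_mul] at hT
    have h4 : T ^ h = (T ^ (h / 2)) ^ 2 := by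
      rw [← Real.rpow_natCast, ← Real.rpow_mul (by linarith)]
      norm_num
    rw [h4]
    exact pow_le_pow_left₀ h2 hT 2
  obtain ⟨T2, hT2⟩ := hlittle.exists_forall_of_atTop
  obtain ⟨T3, hT3⟩ := (hlogtop.eventually_ge_atTop (2 * Real.pi * (2 * C) / η)).exists_forall_of_atTop
  obtain ⟨T4, hT4⟩ := (htop.eventually_ge_atTop
    (max 3 (2 * Real.pi * (4 * (Kn + 1) ^ 2 / ε)))).exists_forall_of_atTop
  obtain ⟨T5, hT5⟩ := (hlogtop.eventually_ge_atTop (1 : ℝ)).exists_forall_of_atTop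
  refine ⟨max (max T1 T2) (max (max T3 T4) T5), hT1.trans ((le_max_left _ _).trans (le_max_left _ _)),
    fun T hT H hH hHT => ?_⟩
  have hTT1 : T1 ≤ T := ((le_max_left _ _).trans (le_max_left _ _)).trans hT
  have hTT2 := hT2 T (((le_max_right _ _).trans (le_max_left _ _)).trans hT)
  have hTT3 := hT3 T (((le_max_left _ _).trans ((le_max_left _ _).trans (le_max_right _ _))).trans hT)
  have hTT4 := hT4 T (((le_max_right _ _).trans ((le_max_left _ _).trans (le_max_right _ _))).trans hT)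
  have hL1 := hT5 T (((le_max_right _ _).trans (le_max_right _ _)).trans hT)
  have hT10 : 10 ≤ T := hT1.trans hTT1
  have hL : 0 < Real.log T := by linarith
  have hH3 : 3 ≤ H := ((le_max_left _ _).trans hTT4).trans hH
  have hHK : 2 * Real.pi * (4 * (Kn + 1) ^ 2 / ε) ≤ H := ((le_max_right _ _).trans hTT4).trans hH
  have hH0 : 0 < H := by linarith
  set M : ℝ := H / (2 * Real.pi) * Real.log T with hM
  have hM0 : 0 < M := by positivity
  -- the counting function
  have hNN : (1 - η) * M ≤ (NN F T (T + H) : ℝ) := by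
    have h1 := (abs_le.mp (hcnt T hT10 T (T + H) le_rfl (by linarith) (by linarith))).1
    have e1 : T + H - T = H := by ring
    rw [e1] at h1
    have h2 : C * (H + (Real.log T) ^ 2) ≤ η * M := by
      have h3 : (Real.log T) ^ 2 ≤ H := hTT2.trans hH
      have h4 : C * (H + (Real.log T) ^ 2) ≤ C * (2 * H) :=
        mul_le_mul_of_nonneg_left (by linarith) hC.le
      refine h4.trans ?_
      rw [div_le_iff₀ hη0] at hTT3
      have h5 : (2 * C) * (2 * Real.pi) ≤ Real.log T * η := by linarith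
      have h6 : 2 * C ≤ Real.log T * η / (2 * Real.pi) := by
        rw [le_div_iff₀ (by positivity)]; exact h5
      calc C * (2 * H) = (2 * C) * H := by ring
        _ ≤ (Real.log T * η / (2 * Real.pi)) * H := mul_le_mul_of_nonneg_right h6 hH0.le
        _ = η * M := by rw [hM]; ring
    have e2 : H * Real.log T / (2 * Real.pi) = M := by rw [hM]; ring
    rw [e2] at h1
    linarith
  have hNN0 : (0 : ℝ) ≤ NN F T (T + H) := Nat.cast_nonneg _
  have h1 := hiso T hTT1 H hH hHT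
  have hw : 0 ≤ 4 * Real.pi / 5 / (h * Real.log T) := by positivity
  obtain ⟨A, hA1, hA2, hA3, hA4⟩ := ordinates hF (T := T) (H := H)
    (ρ := 2 * Real.pi * r / Real.log T) (by linarith) hw
  have hcard : (P - 2 * κ) * M ≤ (A.card : ℝ) := by
    have hPe : 1 - (c0 h - 1) / KK (h * r) ^ 2 - κ = P - κ := by rw [hP]; rfl
    rw [hPe] at h1
    by_cases hc : P - κ ≤ 0
    · have h2 : (P - 2 * κ) * M ≤ 0 := mul_nonpos_of_nonpos_of_nonneg (by linarith) hM0.le
      exact h2.trans (Nat.cast_nonneg _)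
    · push Not at hc
      rw [hA1]
      refine le_trans ?_ h1
      have h3 : (P - κ) * ((1 - η) * M) ≤ (P - κ) * (NN F T (T + H) : ℝ) :=
        mul_le_mul_of_nonneg_left hNN hc.le
      refine le_trans ?_ h3
      have h4 : (P - κ) * η ≤ κ := by
        rw [hη, mul_div_assoc', div_le_iff₀ (by positivity)]
        have h5 : P - κ ≤ |P| + κ + 1 := by linarith [le_abs_self P]
        nlinarith
      have : (P - κ) * ((1 - η) * M) - (P - 2 * κ) * M = (κ - (P - κ) * η) * M := by ring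
      have h6 : 0 ≤ (κ - (P - κ) * η) * M := mul_nonneg (by linarith) hM0.le
      linarith
  have g1 := NP_lower hF T H α β (by linarith) A hA3
  have g1' : ∑ y ∈ A, ((A.filter (fun x => 2 * Real.pi * α / Real.log T ≤ y - x ∧
      y - x ≤ 2 * Real.pi * β / Real.log T)).card : ℝ) ≤ (NP F T H α β : ℝ) := by exact_mod_cast g1
  have g2 := Pool.Agent.H820R3.PC.comb A H (2 * Real.pi * β / Real.log T)
    (2 * Real.pi * α / Real.log T) (2 * Real.pi * r / Real.log T) hH0.le (by positivity)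
    (by positivity) (by positivity) hA2 hA4 Kn
  refine le_trans ?_ (g2.trans g1')
  have e1 : 2 * Real.pi * α / Real.log T / (2 * Real.pi * r / Real.log T) = α / r := by
    field_simp
  have e2 : H / (2 * Real.pi * β / Real.log T) = M / β := by
    rw [hM]
    field_simp
  rw [e1, e2]
  have hq1 : 1 ≤ ⌈α / r⌉₊ := Nat.ceil_pos.mpr (div_pos hα hr0)
  have hKn0 : (0 : ℝ) ≤ Kn := Nat.cast_nonneg _
  have g3 : ∀ k ∈ Finset.Icc ⌈α / r⌉₊ Kn,
      (P - k / β) * M - (2 * κ * M + Kn) ≤ (A.card : ℝ) - k * (M / β + 1) := by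
    intro k hk
    have hkK : (k : ℝ) ≤ Kn := by exact_mod_cast (Finset.mem_Icc.mp hk).2
    have e3 : (k : ℝ) * (M / β + 1) = k / β * M + k := by field_simp
    rw [e3]
    nlinarith
  refine le_trans ?_ (Finset.sum_le_sum g3)
  have g9 : ∑ k ∈ Finset.Icc ⌈α / r⌉₊ Kn, ((P - (k : ℝ) / β) * M - (2 * κ * M + Kn)) =
      (∑ k ∈ Finset.Icc ⌈α / r⌉₊ Kn, (P - (k : ℝ) / β)) * M -
        ((Finset.Icc ⌈α / r⌉₊ Kn).card : ℝ) * (2 * κ * M + Kn) := by
    rw [Finset.sum_mul, Finset.sum_sub_distrib (fun k : ℕ => (P - (k : ℝ) / β) * M)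
      (fun _ => (2 * κ * M + Kn)), Finset.sum_const, nsmul_eq_mul]
  rw [g9]
  have hcc : ((Finset.Icc ⌈α / r⌉₊ Kn).card : ℝ) ≤ Kn := by
    rw [Nat.card_Icc]
    have : Kn + 1 - ⌈α / r⌉₊ ≤ Kn := by omega
    exact_mod_cast this
  have g4 : 0 ≤ 2 * κ * M + Kn := by positivity
  have g5 : ((Finset.Icc ⌈α / r⌉₊ Kn).card : ℝ) * (2 * κ * M + Kn) ≤ Kn * (2 * κ * M + Kn) :=
    mul_le_mul_of_nonneg_right hcc g4
  have g6 : (Kn : ℝ) * (2 * κ) ≤ ε / 2 := by
    rw [hκ]
    have : (Kn : ℝ) * (2 * (ε / (4 * (Kn + 1)))) = ε / 2 * (Kn / (Kn + 1)) := by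
      field_simp
      ring
    rw [this]
    have h7 : (Kn : ℝ) / (Kn + 1) ≤ 1 := by
      rw [div_le_one (by positivity)]; linarith
    have h8 : 0 < ε / 2 := by positivity
    nlinarith
  have g7 : (Kn : ℝ) * Kn ≤ ε / 2 * M := by
    have h7 : 4 * ((Kn : ℝ) + 1) ^ 2 / ε ≤ H / (2 * Real.pi) := by
      rw [le_div_iff₀ (by positivity)]; linarith
    have h8 : 4 * ((Kn : ℝ) + 1) ^ 2 / ε ≤ M := by
      rw [hM]
      have h9 : 0 ≤ H / (2 * Real.pi) := by positivity
      nlinarith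
    rw [div_le_iff₀ hε] at h8
    nlinarith
  have g8 : (Kn : ℝ) * (2 * κ * M + Kn) ≤ ε * M := by
    have : (Kn : ℝ) * (2 * κ * M + Kn) = (Kn * (2 * κ)) * M + Kn * Kn := by ring
    rw [this]
    have h9 : (Kn * (2 * κ)) * M ≤ ε / 2 * M := mul_le_mul_of_nonneg_right g6 hM0.le
    linarith
  rw [sub_mul]
  linarith

end Pool.Agent.H24R3.PairsShort
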