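import Pool.Agent.H24R3.PairsShort
import Pool.Agent.H344R2.Scale

/-!
# Pairs of ordinates at bounded distance in every short interval: consequences
-/

open Complex Filter Topology Set
open scoped BigOperators

namespace Pool.Agent.H24R3.PairsShort

open H370 H344 H295SI H295Iso

lemma one_term {F : ℂ → ℂ} (hF : GoodL F) {h r α β c' : ℝ} (hh : 0 < h) (hh1 : h ≤ 1)
    (hr0 : 0 < r) (hr : h * r ≤ 1 / 3) (hα : 0 < α) (hβ : 0 < β) (q : ℕ)
    (hq : ⌈α / r⌉₊ ≤ q) (hc0 : 0 ≤ c') (hc : c' < pd h r - q / β) :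
    ∃ T0 : ℝ, 10 ≤ T0 ∧ ∀ T : ℝ, T0 ≤ T → ∀ H : ℝ, T ^ h ≤ H → H ≤ T →
      c' * (H / (2 * Real.pi) * Real.log T) ≤ (NP F T H α β : ℝ) := by
  have hpi := Real.pi_pos
  set P := pd h r with hP
  obtain ⟨T0, hT0, hmain⟩ := pairs hF hh hh1 hr0 hr hα hβ
    (show 0 < P - q / β - c' by linarith)
  refine ⟨T0, hT0, fun T hT H hH hHT => ?_⟩
  have h1 := hmain T hT H hH hHT
  refine le_trans ?_ h1
  have hT10 : 10 ≤ T := hT0.trans hT
  have hH0 : 0 ≤ H := (Real.rpow_nonneg (by linarith) _).trans hH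
  have hL : 0 ≤ Real.log T := Real.log_nonneg (by linarith)
  apply mul_le_mul_of_nonneg_right _ (by positivity)
  have hqb : (q : ℝ) < β * P := by
    have h2 : (q : ℝ) / β < P := by linarith
    rw [div_lt_iff₀ hβ] at h2
    linarith
  have h0 : 0 ≤ β * P := (Nat.cast_nonneg q).trans hqb.le
  have h3 : P - q / β ≤ ∑ k ∈ Finset.Icc ⌈α / r⌉₊ ⌊β * P⌋₊, (P - k / β) := by
    refine Finset.single_le_sum (f := fun k : ℕ => P - k / β) ?_ ?_
    · intro k hk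
      have h1 : (k : ℝ) ≤ β * P := (Nat.le_floor_iff h0).mp (Finset.mem_Icc.mp hk).2
      have h2 : (k : ℝ) / β ≤ P := by rw [div_le_iff₀ hβ]; linarith
      linarith
    · exact Finset.mem_Icc.mpr ⟨hq, Nat.le_floor hqb.le⟩
  linarith

/-- continuity at `r = 0` -/
lemma pd_near_zero {h δ : ℝ} (hh : 0 < h) (hδ : 0 < δ) :
    ∃ r : ℝ, 0 < r ∧ h * r ≤ 1 / 3 ∧ 2 - c0 h - δ < pd h r := by
  set D := c0 h - 1 with hD
  set x : ℝ := min (1 / 3) (δ / (8 * (|D| + 1))) with hx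
  have hx0 : 0 < x := by positivity
  have hx1 : x ≤ 1 / 3 := min_le_left _ _
  have hx2 : x ≤ δ / (8 * (|D| + 1)) := min_le_right _ _
  rw [le_div_iff₀ (by positivity)] at hx2
  have e : h * (x / h) = x := by field_simp
  refine ⟨x / h, by positivity, by rw [e]; exact hx1, ?_⟩
  unfold pd
  rw [e, ← hD]
  have hc1 := cMTinv_le
  have hc2 := cMTinv_ge
  have h1 := KK_lower x
  have h3 := Real.pi_lt_d2
  have h4 := Real.pi_pos
  have h5 : (2 * Real.pi * x) ^ 2 / 2 * (cMTinv - 5 / 4) ≤ 2 * x ^ 2 := by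
    have h6 : Real.pi ^ 2 ≤ 10 := by nlinarith
    have h7 : cMTinv - 5 / 4 ≤ 0.08 := by norm_num at hc1 ⊢; linarith
    have h8 : (2 * Real.pi * x) ^ 2 / 2 = 2 * Real.pi ^ 2 * x ^ 2 := by ring
    rw [h8]
    calc 2 * Real.pi ^ 2 * x ^ 2 * (cMTinv - 5 / 4) ≤ 2 * Real.pi ^ 2 * x ^ 2 * 0.08 :=
          mul_le_mul_of_nonneg_left h7 (by positivity)
      _ ≤ 2 * 10 * x ^ 2 * 0.08 := by
          have : Real.pi ^ 2 * x ^ 2 ≤ 10 * x ^ 2 := mul_le_mul_of_nonneg_right h6 (sq_nonneg x)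
          norm_num at this ⊢
          linarith
      _ ≤ 2 * x ^ 2 := by norm_num; nlinarith [sq_nonneg x]
  have hr3 : x ^ 2 ≤ 1 / 9 := by nlinarith
  have h9 : 1 - 2 * x ^ 2 ≤ KK x := by linarith
  have h10 : 1 - 4 * x ^ 2 ≤ KK x ^ 2 := by
    have : (1 - 2 * x ^ 2) ^ 2 ≤ KK x ^ 2 := pow_le_pow_left₀ (by linarith) h9 2
    nlinarith [sq_nonneg (x ^ 2)]
  have h11 : 5 / 9 ≤ KK x ^ 2 := by linarith
  have h12 : 0 < KK x ^ 2 := by linarith
  have h13 : KK x ^ 2 ≤ 1 := by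
    have h14 := KK_le_one x
    have h15 : 0 ≤ KK x := by linarith
    nlinarith
  have h14 : D / KK x ^ 2 < D + δ := by
    rw [div_lt_iff₀ h12]
    set u := KK x ^ 2 with hu
    -- `D ≤ D u + |D| (1 - u)`
    have h15 : D ≤ D * u + |D| * (1 - u) := by
      have := mul_le_mul_of_nonneg_right (le_abs_self D) (show 0 ≤ 1 - u by linarith)
      linarith
    have h16 : |D| * (1 - u) ≤ |D| * (4 * x ^ 2) :=
      mul_le_mul_of_nonneg_left (by linarith) (abs_nonneg D)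
    have h17 : |D| * (4 * x ^ 2) < δ * u := by
      have h18 : |D| * x ≤ δ / 8 := by
        have := mul_pos hx0 (show (0 : ℝ) < 8 by norm_num)
        nlinarith
      have h19 : |D| * (4 * x ^ 2) = 4 * x * (|D| * x) := by ring
      have h20 : 4 * x * (|D| * x) ≤ 4 * x * (δ / 8) :=
        mul_le_mul_of_nonneg_left h18 (by positivity)
      have h21 : 4 * x * (δ / 8) ≤ δ / 6 := by nlinarith
      have h22 : δ * (5 / 9) ≤ δ * u := mul_le_mul_of_nonneg_left h11 hδ.le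
      rw [h19]
      linarith
    linarith
  linarith

lemma c0_one : c0 1 = cMTinv := by
  have h2 := H228SI.constS 1 one_pos le_rfl
  have h5 : H295SI.cc 1 = H370.cMTinv := by
    unfold H295SI.cc H370.cMTinv
    rfl
  rw [mul_one, h5] at h2
  unfold c0
  exact h2

/-- continuity at `h = 1` for `h r` fixed -/
lemma pd_near_one {x b : ℝ} (hb : b < 1 - (cMTinv - 1) / KK x ^ 2) :
    ∃ δ : ℝ, 0 < δ ∧ δ < 1 ∧ b < pd (1 - δ) (x / (1 - δ)) := by
  have hcont : ContinuousAt (fun h : ℝ => 1 - (c0 h - 1) / KK x ^ 2) 1 := by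
    have h1 := c0_cont (h := 1) one_pos
    exact continuousAt_const.sub ((h1.sub continuousAt_const).div_const _)
  have h1 : ∀ᶠ h in 𝓝 (1 : ℝ), b < 1 - (c0 h - 1) / KK x ^ 2 := by
    apply hcont.eventually (lt_mem_nhds _)
    simp only
    rw [c0_one]
    exact hb
  rw [Metric.eventually_nhds_iff] at h1
  obtain ⟨d, hd0, hd⟩ := h1
  have h3 : (0 : ℝ) < min (d / 2) (1 / 2) := by positivity
  have h4 : min (d / 2) (1 / 2) ≤ 1 / 2 := min_le_right _ _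
  refine ⟨min (d / 2) (1 / 2), h3, by linarith, ?_⟩
  set δ := min (d / 2) (1 / 2) with hδ
  have h5 := hd (y := 1 - δ) (by
    rw [Real.dist_eq, show 1 - δ - 1 = -δ by ring, abs_neg, abs_of_pos h3]
    exact lt_of_le_of_lt (min_le_left _ _) (by linarith))
  unfold pd
  have e : (1 - δ) * (x / (1 - δ)) = x := by
    have : (1 - δ) ≠ 0 := by linarith
    field_simp
  rw [e]
  exact h5

theorem part_two {F : ℂ → ℂ} (hF : GoodL F) {h β : ℝ} (hh : 0 < h) (hh1 : h ≤ 1)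
    (hc : c0 h < 2) (hβ : 1 / (2 - c0 h) < β) :
    ∃ α : ℝ, 0 < α ∧ ∃ c' : ℝ, 0 < c' ∧ ∃ T0 : ℝ, ∀ T : ℝ, T0 ≤ T → ∀ H : ℝ, T ^ h ≤ H →
      H ≤ T → c' * (H * Real.log T) ≤ (NP F T H α β : ℝ) := by
  have hpi := Real.pi_pos
  have hβ0 : 0 < β := lt_trans (by apply div_pos one_pos; linarith) hβ
  have h6 : 1 / β < 2 - c0 h := by
    rw [div_lt_iff₀ (by linarith)] at hβ
    rw [div_lt_iff₀ hβ0]
    linarith
  obtain ⟨r, hr0, hr1, hr2⟩ := pd_near_zero hh (δ := (2 - c0 h - 1 / β) / 2) (by linarith)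
  obtain ⟨T0, -, hT0⟩ := one_term hF (c' := (2 - c0 h - 1 / β) / 4) hh hh1 hr0 hr1 hr0 hβ0 1
    (by rw [div_self hr0.ne', Nat.ceil_one]) (by linarith) (by push_cast; linarith)
  refine ⟨r, hr0, (2 - c0 h - 1 / β) / 4 / (2 * Real.pi), by
    apply div_pos _ (by positivity); linarith, T0, fun T hT H hH hHT => ?_⟩
  calc (2 - c0 h - 1 / β) / 4 / (2 * Real.pi) * (H * Real.log T) =
      (2 - c0 h - 1 / β) / 4 * (H / (2 * Real.pi) * Real.log T) := by ring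
    _ ≤ _ := hT0 T hT H hH hHT

theorem part_three {F : ℂ → ℂ} (hF : GoodL F) {α β : ℝ} (hα : 0 < α)
    (hβ : 2 * (⌈3 * α⌉₊ : ℝ) ≤ β) :
    ∃ δ : ℝ, 0 < δ ∧ δ < 1 ∧ ∃ c' : ℝ, 0 < c' ∧ ∃ T0 : ℝ, ∀ T : ℝ, T0 ≤ T → ∀ H : ℝ,
      T ^ (1 - δ) ≤ H → H ≤ T → c' * (H * Real.log T) ≤ (NP F T H α β : ℝ) := by
  have hpi := Real.pi_pos
  obtain ⟨δ, hδ0, hδ1, hδ⟩ := pd_near_one (x := 1 / 3) half_lt_box
  have hh : 0 < 1 - δ := by linarith
  have hq1 : 1 ≤ ⌈3 * α⌉₊ := Nat.ceil_pos.mpr (by linarith)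
  have hq2 : (1 : ℝ) ≤ (⌈3 * α⌉₊ : ℝ) := by exact_mod_cast hq1
  have hβ0 : 0 < β := by linarith
  set P := pd (1 - δ) (1 / 3 / (1 - δ)) with hP
  have h5 : (⌈3 * α⌉₊ : ℝ) / β ≤ 1 / 2 := by
    rw [div_le_iff₀ hβ0]; linarith
  obtain ⟨T0, -, hT0⟩ := one_term hF (h := 1 - δ) (r := 1 / 3 / (1 - δ)) (α := α) (β := β)
    (c' := (P - 1 / 2) / 2) hh (by linarith) (by positivity) (by
      have : (1 - δ) * (1 / 3 / (1 - δ)) = 1 / 3 := by field_simp
      linarith) hα hβ0 ⌈3 * α⌉₊ (by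
      apply Nat.ceil_mono
      rw [div_div_eq_mul_div, div_le_iff₀ (by norm_num)]
      nlinarith) (by linarith) (by rw [← hP]; linarith)
  refine ⟨δ, hδ0, hδ1, (P - 1 / 2) / 2 / (2 * Real.pi), by
    apply div_pos _ (by positivity); linarith, T0, fun T hT H hH hHT => ?_⟩
  calc (P - 1 / 2) / 2 / (2 * Real.pi) * (H * Real.log T) =
      (P - 1 / 2) / 2 * (H / (2 * Real.pi) * Real.log T) := by ring
    _ ≤ _ := hT0 T hT H hH hHT

lemma p_sixth : 639 / 1000 < 1 - (cMTinv - 1) / KK (1 / 6) ^ 2 := by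
  have hc1 := cMTinv_le
  have hc2 := cMTinv_ge
  have h1 := KK_lower (1 / 6)
  have h2 := Real.pi_lt_d4
  have h3 := Real.pi_pos
  have h4 : (2 * Real.pi * (1 / 6)) ^ 2 ≤ 1.0967 := by nlinarith
  have h5 : (2 * Real.pi * (1 / 6)) ^ 2 / 2 * (cMTinv - 5 / 4) ≤ 1.0967 / 2 * 0.08 := by
    apply mul_le_mul
    · linarith
    · norm_num at hc1 ⊢; linarith
    · linarith
    · norm_num
  have h6 : 0.95613 ≤ KK (1 / 6) := by
    norm_num at h5 h1 ⊢
    linarith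
  have h7 : 0.9141845 ≤ KK (1 / 6) ^ 2 := by
    have : (0.95613 : ℝ) ^ 2 ≤ KK (1 / 6) ^ 2 := pow_le_pow_left₀ (by norm_num) h6 2
    norm_num at this ⊢
    linarith
  have h8 : 0 < KK (1 / 6) ^ 2 := by norm_num at h7; linarith
  have h9 : (cMTinv - 1) / KK (1 / 6) ^ 2 < 361 / 1000 := by
    rw [div_lt_iff₀ h8]
    norm_num at hc1 h7 ⊢
    linarith
  linarith

theorem part_four {F : ℂ → ℂ} (hF : GoodL F) :
    ∃ δ : ℝ, 0 < δ ∧ δ < 1 ∧ ∃ T0 : ℝ, ∀ T : ℝ, T0 ≤ T → ∀ H : ℝ, T ^ (1 - δ) ≤ H → H ≤ T →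
      1 / 100 * (H / (2 * Real.pi) * Real.log T) ≤ (NP F T H (1 / 6) (8 / 5) : ℝ) := by
  obtain ⟨δ, hδ0, hδ1, hδ⟩ := pd_near_one (x := 1 / 6) p_sixth
  have hh : 0 < 1 - δ := by linarith
  set P := pd (1 - δ) (1 / 6 / (1 - δ)) with hP
  obtain ⟨T0, -, hT0⟩ := one_term hF (h := 1 - δ) (r := 1 / 6 / (1 - δ)) (α := 1 / 6)
    (β := 8 / 5) (c' := 1 / 100) hh (by linarith) (by positivity) (by
      have : (1 - δ) * (1 / 6 / (1 - δ)) = 1 / 6 := by field_simp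
      linarith) (by norm_num) (by norm_num) 1 (by
      rw [Nat.ceil_le]
      have : (1 / 6 : ℝ) / (1 / 6 / (1 - δ)) = 1 - δ := by field_simp
      rw [this]
      push_cast
      linarith) (by norm_num) (by
      rw [← hP]
      norm_num
      linarith)
  exact ⟨δ, hδ0, hδ1, T0, fun T hT H hH hHT => hT0 T hT H hH hHT⟩

end Pool.Agent.H24R3.PairsShort
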