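import Mathlib

set_option autoImplicit false

namespace Pool.Agent.H24R3.PolyNorm

open Filter

/-- Infinite Ramsey theorem for pairs. -/
theorem ramsey {κ : Type*} [Finite κ] (col : ℕ → ℕ → κ) :
    ∃ g : ℕ → ℕ, StrictMono g ∧ ∃ k : κ, ∀ i j, i < j → col (g i) (g j) = k := by
  classical
  let U : Ultrafilter ℕ := hyperfilter ℕ
  have h1 : ∀ i, ∃ k : κ, ∀ᶠ j in (U : Filter ℕ), col i j = k := by
    intro i
    obtain ⟨k, hk⟩ := (U.map (col i)).eq_pure_of_finite
    refine ⟨k, ?_⟩
    have : ({k} : Set κ) ∈ U.map (col i) := by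
      rw [hk]; exact Set.mem_singleton _
    exact this
  choose K hK using h1
  have h2 : ∃ k : κ, ∀ᶠ i in (U : Filter ℕ), K i = k := by
    obtain ⟨k, hk⟩ := (U.map K).eq_pure_of_finite
    refine ⟨k, ?_⟩
    have : ({k} : Set κ) ∈ U.map K := by
      rw [hk]; exact Set.mem_singleton _
    exact this
  obtain ⟨k, hk⟩ := h2
  obtain ⟨g, hg1, hg2⟩ := exists_seq_of_forall_finset_exists (fun i => K i = k)
    (fun i j => i < j ∧ col i j = k) (by
      intro s hs
      have hgt : ∀ i ∈ s, ∀ᶠ j in (U : Filter ℕ), i < j ∧ col i j = k := by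
        intro i hi
        have ha : ∀ᶠ j in (U : Filter ℕ), i < j := by
          have : ∀ᶠ j in (Filter.cofinite : Filter ℕ), i < j := by
            rw [Nat.cofinite_eq_atTop]; exact Filter.eventually_gt_atTop i
          exact Filter.hyperfilter_le_cofinite this
        filter_upwards [ha, hK i] with j hj1 hj2
        exact ⟨hj1, by rw [hj2]; exact hs i hi⟩
      have hall : ∀ᶠ j in (U : Filter ℕ), ∀ i ∈ s, i < j ∧ col i j = k :=
        (Filter.eventually_all_finset s).2 hgt
      obtain ⟨y, hy⟩ := (hk.and hall).exists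
      exact ⟨y, hy.1, hy.2⟩)
  exact ⟨g, strictMono_nat_of_lt_succ (fun n => (hg2 n (n+1) (Nat.lt_succ_self n)).1), k,
    fun i j hij => (hg2 i j hij).2⟩

/-- Greedy choice avoiding finite sets depending on earlier choices. -/
theorem greedy {W : Type*} [Inhabited W] (C : ℕ → Set W) (hC : ∀ s, (C s).Infinite)
    (F : ℕ → (ℕ → W) → Set W) (hF : ∀ s b, (F s b).Finite) :
    ∃ b : ℕ → W, ∀ s, b s ∈ C s ∧ b s ∉ F s (fun i => if i < s then b i else default) := by
  classical
  have hex : ∀ s (p : ℕ → W), ∃ w, w ∈ C s ∧ w ∉ F s p := by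
    intro s p
    obtain ⟨w, hw1, hw2⟩ := ((hC s).sdiff (hF s p)).nonempty
    exact ⟨w, hw1, hw2⟩
  choose G hG1 hG2 using hex
  let b : ℕ → W := Nat.lt_wfRel.wf.fix (fun s rec => G s (fun i => if h : i < s then rec i h else default))
  have hb : ∀ s, b s = G s (fun i => if i < s then b i else default) := by
    intro s
    have := WellFounded.fix_eq Nat.lt_wfRel.wf
      (fun s (rec : (y : ℕ) → WellFoundedRelation.rel y s → W) =>
        G s (fun i => if h : i < s then rec i h else default)) s
    show WellFounded.fix _ _ _ = _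
    rw [this]
    congr 1
  refine ⟨b, fun s => ⟨?_, ?_⟩⟩
  · rw [hb s]; exact hG1 _ _
  · intro hmem
    apply hG2 s (fun i => if i < s then b i else default)
    rw [← hb s]; exact hmem

theorem relations (n m : ℕ) (a : Fin m → Fin n → ℝ) (J : Fin (n + 1) → Fin m) :
    ∃ lam : Fin (n + 1) → ℝ, (∑ l, lam l • a (J l) = 0) ∧ ∃ l, lam l ≠ 0 := by
  have h : ¬ LinearIndependent ℝ (fun l => a (J l)) := by
    intro hli
    have := hli.fintype_card_le_finrank
    simp at this
  exact Fintype.not_linearIndependent_iff.1 h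

theorem sets_exist (n m : ℕ) (hm : 0 < m) (a : Fin m → Fin n → ℝ) (t : ℕ → ℝ)
    (ht : Function.Injective t) :
    ∃ A : Fin (n + 1) → Fin m → Set ℝ,
      (∀ l j (c : ℝ) (pos : Bool), ∃ i, c + (if pos then t i else - t i) ∈ A l j) ∧
      (∀ x : Fin n → ℝ, ∃ l, ∀ j, (∑ k, a j k * x k) ∉ A l j) := by
  classical
  choose lam hlam1 hlam2 using relations n m a
  let S : Set ℝ := Set.range (fun p : (Fin (n + 1) → Fin m) × Fin (n + 1) => lam p.1 p.2)
  let K : Subfield ℝ := Subfield.closure S
  have hKc : Countable K := by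
    have h1 : Cardinal.mk K ≤ max (Cardinal.mk S) Cardinal.aleph0 :=
      Subfield.cardinalMk_closure_le_max S
    have h2 : Cardinal.mk S ≤ Cardinal.aleph0 := by
      rw [Cardinal.mk_le_aleph0_iff]
      exact (Set.countable_range _).to_subtype
    rw [← Cardinal.mk_le_aleph0_iff]
    exact h1.trans (max_le h2 le_rfl)
  let lamK : (Fin (n + 1) → Fin m) → Fin (n + 1) → K :=
    fun J l => ⟨lam J l, Subfield.subset_closure ⟨(J, l), rfl⟩⟩
  have hlamK : ∀ J l, lam J l ≠ 0 → lamK J l ≠ 0 := by
    intro J l h h0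
    apply h
    have := congrArg (fun z : K => (z : ℝ)) h0
    simpa [lamK] using this
  let W : Submodule K ℝ := Submodule.span K (Set.range t)
  have hWc : Countable W := by
    have hsurj : Function.Surjective
        (fun q : ℕ →₀ K => (⟨Finsupp.linearCombination K t q, by
          have : Finsupp.linearCombination K t q ∈ LinearMap.range (Finsupp.linearCombination K t) :=
            ⟨q, rfl⟩
          rwa [Finsupp.range_linearCombination] at this⟩ : W)) := by
      rintro ⟨w, hw⟩
      have hw' : w ∈ LinearMap.range (Finsupp.linearCombination K t) := by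
        rw [Finsupp.range_linearCombination]; exact hw
      obtain ⟨q, hq⟩ := hw'
      exact ⟨q, Subtype.ext hq⟩
    exact hsurj.countable
  obtain ⟨f, hf⟩ := LinearMap.exists_leftInverse_of_injective W.subtype W.ker_subtype
  have hfW : ∀ w : W, f (w : ℝ) = w := by
    intro w
    have := LinearMap.congr_fun hf w
    simpa using this
  let τ : ℕ → W := fun i => ⟨t i, Submodule.subset_span ⟨i, rfl⟩⟩
  have hτ : Function.Injective τ := by
    intro i j hij
    apply ht
    exact congrArg (fun z : W => (z : ℝ)) hij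
  have : Nonempty (Fin m) := ⟨⟨0, hm⟩⟩
  obtain ⟨r, hr⟩ := exists_surjective_nat (W × Bool × Fin (n + 1) × Fin m)
  let C : ℕ → Set W := fun s => Set.range (fun i => (r s).1 + (if (r s).2.1 then τ i else - τ i))
  have hC : ∀ s, (C s).Infinite := by
    intro s
    apply Set.infinite_range_of_injective
    intro i j hij
    apply hτ
    by_cases hb : (r s).2.1
    · simp only [hb, if_true] at hij
      exact add_left_cancel hij
    · simp only [hb] at hij
      have := add_left_cancel hij
      simpa using this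
  letI : Inhabited W := ⟨0⟩
  let F : ℕ → (ℕ → W) → Set W := fun s p =>
    Set.range (fun q : (Fin (n + 1) → Fin m) × Fin (n + 1) × (Fin (n + 1) → Fin (s + 1)) =>
      -((lamK q.1 q.2.1)⁻¹ • ∑ l ∈ Finset.univ.erase q.2.1, lamK q.1 l • p (q.2.2 l)))
  have hF : ∀ s p, (F s p).Finite := fun s p => Set.finite_range _
  obtain ⟨b, hb⟩ := greedy C hC F hF
  refine ⟨fun l j => {y | ∃ s, (r s).2.2 = (l, j) ∧ f y = b s}, ?_, ?_⟩
  · intro l j c pos
    obtain ⟨s, hs⟩ := hr (f c, pos, l, j)
    obtain ⟨i, hi⟩ := (hb s).1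
    refine ⟨i, s, ?_, ?_⟩
    · rw [hs]
    · rw [← hi]
      simp only [hs]
      rw [map_add]
      congr 1
      cases pos
      · simp only [Bool.false_eq_true, if_false, map_neg]
        congr 1
        exact hfW (τ i)
      · simp only [if_true]
        exact hfW (τ i)
  · intro x
    by_contra hcon
    push Not at hcon
    choose J hJ using hcon
    choose idx hidx1 hidx2 using hJ
    -- relation
    have hrel : ∑ l, lam J l * (∑ k, a (J l) k * x k) = 0 := by
      have h0 := hlam1 J
      have : ∑ l, lam J l * (∑ k, a (J l) k * x k)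
          = ∑ k, (∑ l, lam J l • a (J l)) k * x k := by
        simp only [Finset.sum_apply, Pi.smul_apply, smul_eq_mul, Finset.sum_mul, Finset.mul_sum]
        rw [Finset.sum_comm]
        refine Finset.sum_congr rfl (fun k _ => Finset.sum_congr rfl (fun l _ => by ring))
      rw [this, h0]
      simp
    have hrelK : ∑ l, lamK J l • b (idx l) = 0 := by
      have h1 : f (∑ l, lam J l * (∑ k, a (J l) k * x k)) = 0 := by rw [hrel, map_zero]
      rw [map_sum] at h1
      rw [← h1]
      refine Finset.sum_congr rfl (fun l _ => ?_)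
      rw [← hidx2 l, ← map_smul]
      rfl
    -- maximal index
    let L : Finset (Fin (n + 1)) := Finset.univ.filter (fun l => lam J l ≠ 0)
    have hLne : L.Nonempty := by
      obtain ⟨l, hl⟩ := hlam2 J
      exact ⟨l, by simp [L, hl]⟩
    obtain ⟨l0, hl0, hmax⟩ := L.exists_max_image idx hLne
    have hl0' : lam J l0 ≠ 0 := by simpa [L] using hl0
    set s := idx l0 with hs
    have hinj : ∀ l l', idx l = idx l' → l = l' := by
      intro l l' h
      have e1 := hidx1 l
      have e2 := hidx1 l'
      rw [h, e2] at e1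
      exact (congrArg Prod.fst e1).symm
    have hlt : ∀ l, lam J l ≠ 0 → l ≠ l0 → idx l < s := by
      intro l hl hne
      have h1 : idx l ≤ s := hmax l (by simp [L, hl])
      rcases lt_or_eq_of_le h1 with h2 | h2
      · exact h2
      · exact absurd (hinj l l0 h2) hne
    apply (hb s).2
    refine ⟨(J, l0, fun l => if h : idx l < s then ⟨idx l, by omega⟩ else ⟨s, by omega⟩), ?_⟩
    simp only
    have hsum : ∑ l ∈ Finset.univ.erase l0, lamK J l •
        (if ((if h : idx l < s then (⟨idx l, by omega⟩ : Fin (s + 1)) else ⟨s, by omega⟩ : Fin (s + 1)) : ℕ) < s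
          then b ((if h : idx l < s then (⟨idx l, by omega⟩ : Fin (s + 1)) else ⟨s, by omega⟩ : Fin (s + 1)) : ℕ)
          else default) = ∑ l ∈ Finset.univ.erase l0, lamK J l • b (idx l) := by
      refine Finset.sum_congr rfl (fun l hl => ?_)
      by_cases hz : lam J l = 0
      · have : lamK J l = 0 := by
          apply Subtype.ext
          simpa [lamK] using hz
        rw [this, zero_smul, zero_smul]
      · have hlt' := hlt l hz (Finset.ne_of_mem_erase hl)
        simp [hlt']
    rw [hsum]
    have hsplit : lamK J l0 • b s + ∑ l ∈ Finset.univ.erase l0, lamK J l • b (idx l) = 0 := by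
      rw [← hrelK, ← Finset.add_sum_erase Finset.univ _ (Finset.mem_univ l0)]
    have hne := hlamK J l0 hl0'
    have : ∑ l ∈ Finset.univ.erase l0, lamK J l • b (idx l) = -(lamK J l0 • b s) :=
      eq_neg_of_add_eq_zero_right hsplit
    rw [this, smul_neg, neg_neg, smul_smul, inv_mul_cancel₀ hne, one_smul]

theorem main (n m : ℕ) (a : Fin m → Fin n → ℝ)
    (hpos : ∀ x : Fin n → ℝ, x ≠ 0 → 0 < ⨆ i, |∑ j, a i j * x j|)
    (M : Set (Fin n → ℝ)) (hM : M.Infinite) :
    ∃ c : (Fin n → ℝ) → Fin (n + 1),
      ∀ f : (Fin n → ℝ) → (Fin n → ℝ),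
        (∀ x ∈ M, ∀ y ∈ M,
          (⨆ i, |∑ j, a i j * (f x j - f y j)|) =
            ⨆ i, |∑ j, a i j * (x j - y j)|) →
        ¬ ∃ k : Fin (n + 1), ∀ x ∈ M, c (f x) = k := by
  classical
  -- an injective sequence in M
  let p : ℕ → (Fin n → ℝ) := fun i => (hM.natEmbedding M i : Fin n → ℝ)
  have hpM : ∀ i, p i ∈ M := fun i => (hM.natEmbedding M i).2
  have hpinj : Function.Injective p := by
    intro i j hij
    exact (hM.natEmbedding M).injective (Subtype.ext hij)
  have hm : 0 < m := by
    by_contra h0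
    have hm0 : m = 0 := by omega
    subst hm0
    have hne : p 0 - p 1 ≠ 0 := by
      intro h
      have := hpinj (sub_eq_zero.1 h)
      omega
    have := hpos _ hne
    simp at this
  haveI : Nonempty (Fin m) := ⟨⟨0, hm⟩⟩
  let L : Fin m → (Fin n → ℝ) → ℝ := fun i x => ∑ j, a i j * x j
  have hLsub : ∀ i x y, L i x - L i y = ∑ j, a i j * (x j - y j) := by
    intro i x y
    simp only [L, ← Finset.sum_sub_distrib]
    refine Finset.sum_congr rfl (fun j _ => by ring)
  let N : (Fin n → ℝ) → (Fin n → ℝ) → ℝ := fun x y => ⨆ i, |∑ j, a i j * (x j - y j)|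
  have hNle : ∀ x y i, |L i x - L i y| ≤ N x y := by
    intro x y i
    rw [hLsub]
    exact le_ciSup (f := fun i => |∑ j, a i j * (x j - y j)|) (Set.finite_range _).bddAbove i
  have hNex : ∀ x y, ∃ i, N x y = |L i x - L i y| := by
    intro x y
    obtain ⟨i, hi⟩ := exists_eq_ciSup_of_finite (f := fun i => |∑ j, a i j * (x j - y j)|)
    exact ⟨i, by rw [hLsub]; exact hi.symm⟩
  have hNpos : ∀ x y, x ≠ y → 0 < N x y := by
    intro x y hxy
    exact hpos (x - y) (sub_ne_zero.2 hxy)
  -- signed functionals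
  let B : Fin m × Bool → (Fin n → ℝ) → ℝ := fun q x => if q.2 then L q.1 x else - L q.1 x
  have hBle : ∀ x y q, B q x - B q y ≤ N x y := by
    intro x y q
    have h1 := hNle x y q.1
    have h2 := abs_le.1 h1
    by_cases hq : q.2
    · simp only [B, hq, if_true]; linarith [h2.2]
    · simp only [B, hq]
      simp only [Bool.false_eq_true, if_false]
      linarith [h2.1]
  have hBex : ∀ x y, ∃ q, B q x - B q y = N x y := by
    intro x y
    obtain ⟨i, hi⟩ := hNex x y
    rcases abs_cases (L i x - L i y) with h | h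
    · exact ⟨(i, true), by simp only [B, if_true]; rw [hi, h.1]⟩
    · exact ⟨(i, false), by simp only [B, Bool.false_eq_true, if_false]; rw [hi, h.1]; ring⟩
  choose q hq using hBex
  obtain ⟨g, hg, k, hk⟩ := ramsey (fun i j => q (p j) (p i))
  let P : ℕ → (Fin n → ℝ) := fun i => p (g i)
  let t : ℕ → ℝ := fun i => B k (P i)
  have hdist : ∀ i j, i < j → N (P j) (P i) = t j - t i := by
    intro i j hij
    have h1 := hk i j hij
    have h2 := hq (p (g j)) (p (g i))
    rw [h1] at h2
    exact h2.symm
  have hPinj : Function.Injective P := hpinj.comp hg.injective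
  have htmono : StrictMono t := by
    apply strictMono_nat_of_lt_succ
    intro i
    have h1 := hdist i (i+1) (Nat.lt_succ_self i)
    have h2 := hNpos (P (i+1)) (P i) (fun h => by have := hPinj h; omega)
    linarith
  obtain ⟨A, hA1, hA2⟩ := sets_exist n m hm a t htmono.injective
  choose c hc using hA2
  refine ⟨c, ?_⟩
  rintro f hf ⟨col, hcol⟩
  let Q : ℕ → (Fin n → ℝ) := fun i => f (P i)
  have hQ : ∀ i j, i < j → N (Q j) (Q i) = t j - t i := by
    intro i j hij
    rw [← hdist i j hij]
    exact hf (P j) (hpM _) (P i) (hpM _)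
  -- norming functional occurring infinitely often
  obtain ⟨k', hk'⟩ := Finite.exists_infinite_fiber (fun i => q (Q i) (Q 0))
  have hlin : ∀ j, B k' (Q j) - B k' (Q 0) = t j - t 0 := by
    intro j
    have hinf : (Set.Infinite ((fun i => q (Q i) (Q 0)) ⁻¹' {k'})) := Set.infinite_coe_iff.1 hk'
    obtain ⟨i, hi1, hi2⟩ := hinf.exists_gt j
    have e1 : B k' (Q i) - B k' (Q 0) = N (Q i) (Q 0) := by
      have := hq (Q i) (Q 0)
      have h3 : q (Q i) (Q 0) = k' := hi1
      rw [h3] at this
      exact this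
    have e2 : N (Q i) (Q 0) = t i - t 0 := hQ 0 i (by omega)
    rcases Nat.eq_zero_or_pos j with h0 | h0
    · subst h0; simp
    · have e3 := hBle (Q i) (Q j) k'
      have e4 := hBle (Q j) (Q 0) k'
      rw [hQ j i hi2] at e3
      rw [hQ 0 j h0] at e4
      linarith
  obtain ⟨i, hi⟩ := hA1 col k'.1 (if k'.2 then B k' (Q 0) - t 0 else -(B k' (Q 0) - t 0)) k'.2
  have hval : (if k'.2 then B k' (Q 0) - t 0 else -(B k' (Q 0) - t 0)) +
      (if k'.2 then t i else - t i) = ∑ j, a k'.1 j * Q i j := by
    have h1 := hlin i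
    by_cases hb : k'.2
    · simp only [hb, if_true]
      simp only [B, hb, if_true, L] at h1 ⊢
      linarith
    · simp only [hb]
      simp only [B, hb, L] at h1 ⊢
      simp only [Bool.false_eq_true, if_false] at h1 ⊢
      linarith
  rw [hval] at hi
  have hcc : c (Q i) = col := hcol (P i) (hpM _)
  have := hc (Q i) k'.1
  rw [hcc] at this
  exact this hi

end Pool.Agent.H24R3.PolyNorm
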