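import Pool.Agent.H24R3.PairEvery

/-! Montgomery's theorem in every short interval: Lipschitz test functions. -/

open Complex Filter Topology Set MeasureTheory
open scoped BigOperators ComplexConjugate

namespace Pool.Agent.H24R3.PairEvery

open H370 H370.AS H370.A2 H295SI

theorem every_psi {F : ℂ → ℂ} (hF : GoodL F) {a : ℕ → ℂ}
    (han : ∀ n, ‖a n‖ = ArithmeticFunction.vonMangoldt n)
    (hld : ∀ s : ℂ, 1 < s.re → 1 ≤ s.im → deriv F s / F s = - ∑' n : ℕ, a n * (n : ℂ) ^ (-s))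
    (η0 μ ε : ℝ) (hη1 : η0 < 1) (hμ : 0 < μ) (hgap : μ < η0)
    (hε : 0 < ε) (ψ : ℝ → ℝ) (K : ℝ) (hlip : ∀ x y, |ψ x - ψ y| ≤ K * |x - y|)
    (hz : ∀ x, μ ≤ |x| → ψ x = 0) :
    ∃ T0 : ℝ, 10 ≤ T0 ∧ ∀ T : ℝ, T0 ≤ T → ∀ H : ℝ,
      T ^ η0 ≤ H → H ≤ T / 2 → ∀ t : ℝ, T ≤ t → t ≤ 2 * T →
        (|(NN F t (t + H) : ℝ) - H * Real.log T / (2 * Real.pi)| ≤
            ε * (H * Real.log T / (2 * Real.pi)) ∧
          |(∫ α in (-μ)..μ, ψ α * JN F t (t + H) (α * Real.log T)) -
            (H * Real.log T / (2 * Real.pi)) * (ψ 0 + ∫ α in (-μ)..μ, |α| * ψ α)| ≤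
            ε * (H * Real.log T / (2 * Real.pi))) := by
  have hK : 0 ≤ K := by
    have h1 := hlip 1 0
    have h2 := abs_nonneg (ψ 1 - ψ 0)
    simp at h1
    linarith
  have hψc : Continuous ψ := by
    have : LipschitzWith K.toNNReal ψ := by
      refine LipschitzWith.of_dist_le_mul fun x y => ?_
      rw [Real.dist_eq, Real.dist_eq, Real.coe_toNNReal _ hK]
      exact hlip x y
    exact this.continuous
  set φ : ℝ → ℝ := fun β => μ * ((ψ (μ * β) + ψ (-(μ * β))) / 2) with hφ
  set K2 : ℝ := K * μ ^ 2 + 1 with hK2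
  have hK20 : 0 < K2 := by positivity
  have hφlip : ∀ x y, |φ x - φ y| ≤ (K * μ ^ 2) * |x - y| := by
    intro x y
    have h1 := hlip (μ * x) (μ * y)
    have h2 := hlip (-(μ * x)) (-(μ * y))
    have e1 : |μ * x - μ * y| = μ * |x - y| := by
      rw [← mul_sub, abs_mul, abs_of_pos hμ]
    have e2 : |-(μ * x) - -(μ * y)| = μ * |x - y| := by
      rw [neg_sub_neg, ← mul_sub, abs_mul, abs_of_pos hμ, abs_sub_comm]
    rw [e1] at h1
    rw [e2] at h2
    have e3 : φ x - φ y = μ / 2 * ((ψ (μ * x) - ψ (μ * y)) + (ψ (-(μ * x)) - ψ (-(μ * y)))) := by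
      simp only [hφ]; ring
    rw [e3, abs_mul, abs_of_pos (by positivity : 0 < μ / 2)]
    calc μ / 2 * |(ψ (μ * x) - ψ (μ * y)) + (ψ (-(μ * x)) - ψ (-(μ * y)))| ≤
        μ / 2 * (|ψ (μ * x) - ψ (μ * y)| + |ψ (-(μ * x)) - ψ (-(μ * y))|) := by
          gcongr; exact abs_add_le _ _
      _ ≤ μ / 2 * (K * (μ * |x - y|) + K * (μ * |x - y|)) := by gcongr
      _ = _ := by ring
  have hφe : ∀ x, φ (-x) = φ x := by
    intro x
    simp only [hφ]
    rw [mul_neg, neg_neg]
    ring
  have hφz : ∀ x, 1 ≤ |x| → φ x = 0 := by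
    intro x hx
    simp only [hφ]
    have h1 : μ ≤ |μ * x| := by
      rw [abs_mul, abs_of_pos hμ]
      nlinarith
    rw [hz _ h1, hz (-(μ * x)) (by rw [abs_neg]; exact h1)]
    ring
  have hc1 := conv_add (by positivity) (by rw [hK2]; linarith : K * μ ^ 2 ≤ K2) hK20 hφlip hφe hφz
  have hc2 : Conv (fun β => (fun _ => (0 : ℝ)) β + K2 * hatf β) :=
    conv_add (K := 0) le_rfl hK20.le hK20 (by intro x y; simp) (by intro x; rfl) (by intro x _; rfl)
  set R1 : ℝ → ℝ := fun β => φ β + K2 * hatf β with hR1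
  set R2 : ℝ → ℝ := fun β => (fun _ => (0 : ℝ)) β + K2 * hatf β with hR2
  obtain ⟨T1, hT1, h1⟩ := every_pairs hc1 hF han hld η0 μ (ε / 2) hη1 hμ hgap (by positivity)
  obtain ⟨T2, hT2, h2⟩ := every_pairs hc2 hF han hld η0 μ (ε / 2) hη1 hμ hgap (by positivity)
  refine ⟨max T1 T2, hT1.trans (le_max_left _ _), fun T hT H hH1 hH2 t ht1 ht2 => ?_⟩
  have hTT1 : T1 ≤ T := (le_max_left _ _).trans hT
  have hTT2 : T2 ≤ T := (le_max_right _ _).trans hT
  have hT10 : 10 ≤ T := hT1.trans hTT1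
  have hTpos : 0 < T := by linarith
  have hLpos : 0 < Real.log T := Real.log_pos (by linarith)
  have hHpos : 0 < H := lt_of_lt_of_le (Real.rpow_pos_of_pos hTpos _) hH1
  have hM0 : 0 < H * Real.log T / (2 * Real.pi) := by positivity
  -- the constants
  have hconst : cR R1 μ - cR R2 μ = ψ 0 + ∫ α in (-μ)..μ, |α| * ψ α := by
    have hφc : Continuous φ := by simp only [hφ]; fun_prop
    have hhc : Continuous hatf := by unfold hatf; fun_prop
    have e1 : ∫ α in (0 : ℝ)..1, α * R1 α = (∫ α in (0 : ℝ)..1, α * φ α) +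
        ∫ α in (0 : ℝ)..1, α * (K2 * hatf α) := by
      have q1 : Continuous fun α : ℝ => α * φ α := continuous_id.mul hφc
      have q2 : Continuous fun α : ℝ => α * (K2 * hatf α) :=
        continuous_id.mul (continuous_const.mul hhc)
      rw [← intervalIntegral.integral_add (q1.intervalIntegrable _ _)
        (q2.intervalIntegrable _ _)]
      refine intervalIntegral.integral_congr fun α _ => ?_
      simp only [hR1]
      ring
    have e2 : ∫ α in (0 : ℝ)..1, α * R2 α = ∫ α in (0 : ℝ)..1, α * (K2 * hatf α) := by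
      refine intervalIntegral.integral_congr fun α _ => ?_
      simp only [hR2]
      ring
    have e3 : ∫ α in (-μ)..μ, |α| * ψ α = 2 * μ * ∫ α in (0 : ℝ)..1, α * φ α := by
      have h3 := int_even hψc continuous_abs (fun x => abs_neg x) μ
      have h4 : ∫ α in (-μ)..μ, |α| * ψ α = ∫ α in (-μ)..μ, ψ α * |α| :=
        intervalIntegral.integral_congr fun α _ => mul_comm _ _
      rw [h4, h3, mul_assoc, ← intervalIntegral.integral_const_mul (μ : ℝ)]
      congr 1
      refine intervalIntegral.integral_congr fun β hβ => ?_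
      rw [Set.uIcc_of_le zero_le_one] at hβ
      simp only [hφ]
      rw [abs_mul, abs_of_pos hμ, abs_of_nonneg hβ.1]
      ring
    have e4 : R1 0 - R2 0 = μ * ψ 0 := by
      simp only [hR1, hR2, hφ]
      rw [mul_zero, neg_zero]
      ring
    unfold cR
    rw [e1, e2, e3]
    have e5 : R1 0 = R2 0 + μ * ψ 0 := by linarith
    rw [e5]
    have e6 : (R2 0 + μ * ψ 0) / μ = R2 0 / μ + ψ 0 := by field_simp
    rw [e6]
    ring
  obtain ⟨g1, g2⟩ := h1 T hTT1 H hH1 hH2 t ht1 ht2
  obtain ⟨-, g3⟩ := h2 T hTT2 H hH1 hH2 t ht1 ht2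
  have hU : 1 ≤ t := by linarith
  have hJc := JJ_cont hF (U2 := t + H) hU
  have hkey : ∫ α in (-μ)..μ, ψ α * JN F t (t + H) (α * Real.log T) =
      PS R1 F t (t + H) (μ * Real.log T) - PS R2 F t (t + H) (μ * Real.log T) := by
    have hfc : Continuous fun α : ℝ => JN F t (t + H) (α * Real.log T) := by
      unfold JN
      exact (hJc.comp (by fun_prop)).div_const _
    have hfe : ∀ α : ℝ, JN F t (t + H) (-α * Real.log T) = JN F t (t + H) (α * Real.log T) := by
      intro α
      unfold JN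
      rw [neg_mul, JJ_even hF hU]
    rw [int_even hψc hfc hfe μ]
    have hi1 : IntervalIntegrable (fun α : ℝ => R1 α *
        JJ F t (t + H) (μ * Real.log T * α)) volume 0 1 :=
      ((H613SI.conv_cont hc1).mul (hJc.comp (by fun_prop))).intervalIntegrable _ _
    have hi2 : IntervalIntegrable (fun α : ℝ => R2 α *
        JJ F t (t + H) (μ * Real.log T * α)) volume 0 1 :=
      ((H613SI.conv_cont hc2).mul (hJc.comp (by fun_prop))).intervalIntegrable _ _
    unfold PS
    rw [← mul_sub, ← intervalIntegral.integral_sub hi1 hi2]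
    have h5 : (2 : ℝ) / Real.sqrt Real.pi = 2 * (1 / Real.sqrt Real.pi) := by ring
    rw [h5, mul_assoc, ← intervalIntegral.integral_const_mul (1 / Real.sqrt Real.pi)]
    congr 1
    refine intervalIntegral.integral_congr fun β _ => ?_
    simp only [hR1, hR2, hφ, JN]
    have h6 : μ * Real.log T * β = μ * β * Real.log T := by ring
    rw [h6]
    ring
  constructor
  · have : 0 ≤ ε / 2 * (H * Real.log T / (2 * Real.pi)) := by positivity
    linarith
  · rw [hkey, ← hconst]
    have h7 : PS R1 F t (t + H) (μ * Real.log T) - PS R2 F t (t + H) (μ * Real.log T) -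
        (H * Real.log T / (2 * Real.pi)) * (cR R1 μ - cR R2 μ) =
        (PS R1 F t (t + H) (μ * Real.log T) - (H * Real.log T / (2 * Real.pi)) * cR R1 μ) -
        (PS R2 F t (t + H) (μ * Real.log T) - (H * Real.log T / (2 * Real.pi)) * cR R2 μ) := by
      ring
    rw [h7]
    refine (abs_sub_le_add _ _).trans ?_
    linarith

end Pool.Agent.H24R3.PairEvery
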