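import Pool.Agent.H24R3.GapsShort2

/-!
# Tuples of zeros in boxes away from the diagonals, in every short interval
-/

open Complex Filter Topology Set
open scoped BigOperators

namespace Pool.Agent.H24R3.TupShort

open H370 H344 H295SI H295Iso Pool.Agent.H24R3.PairsShort Pool.Agent.H24R3.GapsShort

/-- `k`-tuples, `k = r + 1`, of distinct indices with ordinates in `(T, T + H]` and normalised
differences with the last one in the box -/
noncomputable def NK (r : ℕ) (T H : ℝ) (a b : Fin r → ℝ) : ℕ :=
  {j : Fin (r + 1) → ℕ | Function.Injective j ∧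
    (∀ i, 1 ≤ j i ∧ T < ord (j i) ∧ ord (j i) ≤ T + H) ∧
    ∀ i : Fin r, (ord (j i.castSucc) - ord (j (Fin.last r))) * (Real.log T / (2 * Real.pi)) ∈
      Set.Icc (a i) (b i)}.ncard

/-- many points have many neighbours to the right -/
lemma good_right (A : Finset ℝ) (H d a e : ℝ) (hH : 0 ≤ H) (hd : 0 < d) (he : 0 < e) (ha : 0 < a)
    (hA : ∀ x ∈ A, 0 < x ∧ x ≤ H) (hsep : ∀ x ∈ A, ∀ z ∈ A, x < z → e < z - x) (m : ℕ)
    (hm : 1 ≤ m) :
    (A.card : ℝ) - ((m : ℝ) + ⌈a / e⌉₊ - 1) * (H / d + 2) ≤
      ((A.filter (fun x => m ≤ (A.filter (fun z => a ≤ z - x ∧ z - x ≤ d)).card)).card : ℝ) := by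
  classical
  set g : ℝ → ℝ := fun x => H + d - x with hg
  have hginj : Function.Injective g := by
    intro x y hxy
    simp only [hg] at hxy
    linarith
  set S := A.image g with hS
  have hScard : S.card = A.card := Finset.card_image_of_injective _ hginj
  have hS1 : ∀ x ∈ S, 0 < x ∧ x ≤ H + d := by
    intro x hx
    obtain ⟨y, hy, rfl⟩ := Finset.mem_image.mp hx
    have := hA y hy
    simp only [hg]
    constructor <;> linarith
  have hS2 : ∀ x ∈ S, ∀ z ∈ S, x < z → e < z - x := by
    intro x hx z hz hxz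
    obtain ⟨y, hy, rfl⟩ := Finset.mem_image.mp hx
    obtain ⟨w, hw, rfl⟩ := Finset.mem_image.mp hz
    simp only [hg] at hxz ⊢
    have := hsep w hw y hy (by linarith)
    linarith
  set q := ⌈a / e⌉₊ with hq
  have hq1 : 1 ≤ q := Nat.ceil_pos.mpr (div_pos ha he)
  have h1 := Pool.Agent.H820R3.PC.few S (H + d) d hd hS1 (m + q - 1)
  have h2 : (S.filter (fun y => m + q - 1 ≤ Pool.Agent.H820R3.PC.cc S d y)).card +
      (S.filter (fun y => Pool.Agent.H820R3.PC.cc S d y < m + q - 1)).card = S.card := by
    have := Finset.card_filter_add_card_filter_not (s := S)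
      (p := fun y => m + q - 1 ≤ Pool.Agent.H820R3.PC.cc S d y)
    simpa only [not_le] using this
  -- the points with many neighbours
  have h3 : (S.filter (fun y => m + q - 1 ≤ Pool.Agent.H820R3.PC.cc S d y)).card ≤
      (A.filter (fun x => m ≤ (A.filter (fun z => a ≤ z - x ∧ z - x ≤ d)).card)).card := by
    rw [← Finset.card_image_of_injective (A.filter _) hginj]
    apply Finset.card_le_card
    intro y hy
    obtain ⟨hy1, hy2⟩ := Finset.mem_filter.mp hy
    obtain ⟨x, hx, rfl⟩ := Finset.mem_image.mp hy1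
    refine Finset.mem_image_of_mem g (Finset.mem_filter.mpr ⟨hx, ?_⟩)
    have h4 := Pool.Agent.H820R3.PC.near S a d e (g x) he ha hS2 hy1
    have h5 : (S.filter (fun z => a ≤ g x - z ∧ g x - z ≤ d)).card ≤
        (A.filter (fun z => a ≤ z - x ∧ z - x ≤ d)).card := by
      rw [← Finset.card_image_of_injective (A.filter _) hginj]
      apply Finset.card_le_card
      intro w hw
      obtain ⟨hw1, hw2, hw3⟩ := Finset.mem_filter.mp hw
      obtain ⟨z, hz, rfl⟩ := Finset.mem_image.mp hw1
      refine Finset.mem_image_of_mem g (Finset.mem_filter.mpr ⟨hz, ?_, ?_⟩)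
      · simp only [hg] at hw2
        linarith
      · simp only [hg] at hw3
        linarith
    omega
  have h6 : ((⌈(H + d) / d⌉₊ : ℕ) : ℝ) ≤ H / d + 2 := by
    have h7 := (Nat.ceil_lt_add_one (div_nonneg (by linarith : 0 ≤ H + d) hd.le)).le
    have h8 : (H + d) / d = H / d + 1 := by field_simp
    rw [h8] at h7 ⊢
    linarith
  have h9 : ((m + q - 1 : ℕ) : ℝ) = (m : ℝ) + q - 1 := by
    rw [Nat.cast_sub (by omega)]
    push_cast
    ring
  have h10 : ((S.filter (fun y => Pool.Agent.H820R3.PC.cc S d y < m + q - 1)).card : ℝ) ≤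
      ((m : ℝ) + q - 1) * (H / d + 2) := by
    have h11 : ((S.filter (fun y => Pool.Agent.H820R3.PC.cc S d y < m + q - 1)).card : ℝ) ≤
        ((m + q - 1 : ℕ) : ℝ) * ((⌈(H + d) / d⌉₊ : ℕ) : ℝ) := by exact_mod_cast h1
    rw [h9] at h11
    refine h11.trans (mul_le_mul_of_nonneg_left h6 ?_)
    have : (1 : ℝ) ≤ m := by exact_mod_cast hm
    have : (1 : ℝ) ≤ q := by exact_mod_cast hq1
    linarith
  have h12 : ((S.filter (fun y => m + q - 1 ≤ Pool.Agent.H820R3.PC.cc S d y)).card : ℝ) +
      ((S.filter (fun y => Pool.Agent.H820R3.PC.cc S d y < m + q - 1)).card : ℝ) = A.card := by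
    rw [← hScard]
    exact_mod_cast h2
  have h13 : ((S.filter (fun y => m + q - 1 ≤ Pool.Agent.H820R3.PC.cc S d y)).card : ℝ) ≤
      ((A.filter (fun x => m ≤ (A.filter (fun z => a ≤ z - x ∧ z - x ≤ d)).card)).card : ℝ) := by
    exact_mod_cast h3
  linarith

/-- the tuples -/
theorem tup_count (hRH : ∀ s : ℂ, riemannZeta s = 0 → 0 < s.re → s.re < 1 → s.re = 1 / 2)
    {T H w ρ α β : ℝ} (hT : 1 < T) (hw : 0 ≤ w) (hH : 0 ≤ H) (hρ : 0 < ρ) (hα : 0 < α)
    (hβ : 0 < β) (r : ℕ) (hr : 1 ≤ r) (a b : Fin r → ℝ) (ha : ∀ i, a i ≤ α) (hb : ∀ i, β ≤ b i) :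
    (r.factorial : ℝ) * ((H295Iso.isoN riemannZeta T H (2 * Real.pi * ρ / Real.log T) w : ℝ) -
      ((r : ℝ) + ⌈α / ρ⌉₊ - 1) * (H / (2 * Real.pi * β / Real.log T) + 2)) ≤
      (NK r T H a b : ℝ) := by
  classical
  have hpi := Real.pi_pos
  have hL : 0 < Real.log T := Real.log_pos hT
  set d := 2 * Real.pi * β / Real.log T with hd
  set a' := 2 * Real.pi * α / Real.log T with ha'
  set e := 2 * Real.pi * ρ / Real.log T with he
  have hd0 : 0 < d := by positivity
  have ha0 : 0 < a' := by positivity
  have he0 : 0 < e := by positivity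
  obtain ⟨A, hA1, hA2, hA3⟩ := ordinatesRH hRH (T := T) (H := H) (ρ := e) hT.le hw
  have hidx : ∀ x ∈ A, 1 ≤ NZ (T + x) ∧ ord (NZ (T + x)) = T + x ∧
      T + x + e < ord (NZ (T + x) + 1) ∧ ∀ t, t < T + x → NZ t < NZ (T + x) := by
    intro x hx
    obtain ⟨s, h1, h2, h3, h4⟩ := hA3 x hx
    have hx0 := (hA2 x hx).1
    exact idx_of (by linarith) s h1 h2 h3 he0.le h4
  have hinj : ∀ x ∈ A, ∀ y ∈ A, NZ (T + x) = NZ (T + y) → x = y := by
    intro x hx y hy hxy
    have h1 := (hidx x hx).2.1
    have h2 := (hidx y hy).2.1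
    rw [hxy, h2] at h1
    linarith
  have hsep : ∀ x ∈ A, ∀ z ∈ A, x < z → e < z - x := by
    intro x hx z hz hxz
    have h1 := (hidx z hz).2.2.2 (T + x) (by linarith)
    have h2 : ord (NZ (T + x) + 1) ≤ T + z := (ord_le_iff (by omega) _).mpr (by omega)
    linarith [(hidx x hx).2.2.1]
  have hgood := good_right A H d a' e hH hd0 he0 ha0 hA2 hsep r hr
  have e1 : a' / e = α / ρ := by
    rw [ha', he]
    field_simp
  rw [e1, hA1] at hgood
  set Sx : ℝ → Finset ℝ := fun x => A.filter (fun z => a' ≤ z - x ∧ z - x ≤ d) with hSx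
  set Good := A.filter (fun x => r ≤ (Sx x).card) with hGood
  -- choose embeddings
  have hemb : ∀ x : ℝ, ∃ f : Fin r → ℝ, x ∈ Good → Function.Injective f ∧ ∀ i, f i ∈ Sx x := by
    intro x
    by_cases hx : x ∈ Good
    · have h1 : r ≤ (Sx x).card := (Finset.mem_filter.mp hx).2
      obtain ⟨U, hU1, hU2⟩ := Finset.exists_subset_card_eq h1
      refine ⟨fun i => (U.equivFinOfCardEq hU2).symm i, fun _ => ⟨?_, ?_⟩⟩
      · intro i j hij
        exact (U.equivFinOfCardEq hU2).symm.injective (Subtype.ext hij)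
      · intro i
        exact hU1 ((U.equivFinOfCardEq hU2).symm i).2
    · exact ⟨fun _ => 0, fun h => absurd h hx⟩
  choose f hf using hemb
  have hfin : {j : Fin (r + 1) → ℕ | Function.Injective j ∧
      (∀ i, 1 ≤ j i ∧ T < ord (j i) ∧ ord (j i) ≤ T + H) ∧
      ∀ i : Fin r, (ord (j i.castSucc) - ord (j (Fin.last r))) * (Real.log T / (2 * Real.pi)) ∈
        Set.Icc (a i) (b i)}.Finite := by
    refine (Set.Finite.pi' (fun _ : Fin (r + 1) => idx_finite T H)).subset ?_
    intro j hj i
    exact hj.2.1 i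
  have hcard : Good.card * r.factorial ≤ NK r T H a b := by
    unfold NK
    rw [Set.ncard_eq_toFinset_card _ hfin]
    have h0 : Good.card * r.factorial =
        (Good ×ˢ (Finset.univ : Finset (Equiv.Perm (Fin r)))).card := by
      rw [Finset.card_product, Finset.card_univ, Fintype.card_perm, Fintype.card_fin]
    rw [h0]
    apply Finset.card_le_card_of_injOn
      (fun y : ℝ × Equiv.Perm (Fin r) =>
        (Fin.snoc (fun i : Fin r => NZ (T + f y.1 (y.2 i))) (NZ (T + y.1)) : Fin (r + 1) → ℕ))
    · intro y hy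
      rw [Finset.mem_coe, Finset.mem_product] at hy
      have hyG := hy.1
      obtain ⟨hf1, hf2⟩ := hf y.1 hyG
      have hyA : y.1 ∈ A := (Finset.mem_filter.mp hyG).1
      have hS : ∀ i, f y.1 i ∈ A ∧ a' ≤ f y.1 i - y.1 ∧ f y.1 i - y.1 ≤ d := by
        intro i
        have := Finset.mem_filter.mp (hf2 i)
        exact ⟨this.1, this.2.1, this.2.2⟩
      rw [Finset.mem_coe, Set.Finite.mem_toFinset]
      refine ⟨?_, ?_, ?_⟩
      · intro i j hij
        induction i using Fin.lastCases with
        | last =>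
          induction j using Fin.lastCases with
          | last => rfl
          | cast j =>
            simp only [Fin.snoc_last, Fin.snoc_castSucc] at hij
            have h1 := hinj _ hyA _ (hS (y.2 j)).1 hij
            have h2 := (hS (y.2 j)).2.1
            rw [← h1] at h2
            linarith
        | cast i =>
          induction j using Fin.lastCases with
          | last =>
            simp only [Fin.snoc_last, Fin.snoc_castSucc] at hij
            have h1 := hinj _ (hS (y.2 i)).1 _ hyA hij
            have h2 := (hS (y.2 i)).2.1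
            rw [h1] at h2
            linarith
          | cast j =>
            simp only [Fin.snoc_castSucc] at hij
            have h1 := hinj _ (hS (y.2 i)).1 _ (hS (y.2 j)).1 hij
            rw [y.2.injective (hf1 h1)]
      · intro i
        induction i using Fin.lastCases with
        | last =>
          simp only [Fin.snoc_last]
          have h1 := hidx y.1 hyA
          have h2 := hA2 y.1 hyA
          rw [h1.2.1]
          exact ⟨h1.1, by linarith, by linarith⟩
        | cast i =>
          simp only [Fin.snoc_castSucc]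
          have h1 := hidx _ (hS (y.2 i)).1
          have h2 := hA2 _ (hS (y.2 i)).1
          rw [h1.2.1]
          exact ⟨h1.1, by linarith, by linarith⟩
      · intro i
        simp only [Fin.snoc_last, Fin.snoc_castSucc]
        rw [(hidx _ (hS (y.2 i)).1).2.1, (hidx y.1 hyA).2.1]
        obtain ⟨-, h2, h3⟩ := hS (y.2 i)
        have e2 : T + f y.1 (y.2 i) - (T + y.1) = f y.1 (y.2 i) - y.1 := by ring
        rw [e2]
        constructor
        · refine (ha i).trans ?_
          rw [ha', div_le_iff₀ hL] at h2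
          rw [mul_div_assoc', le_div_iff₀ (by positivity)]
          linarith
        · refine le_trans ?_ (hb i)
          rw [hd, le_div_iff₀ hL] at h3
          rw [mul_div_assoc', div_le_iff₀ (by positivity)]
          linarith
    · intro y hy z hz hyz
      rw [Finset.mem_coe, Finset.mem_product] at hy hz
      have hyA : y.1 ∈ A := (Finset.mem_filter.mp hy.1).1
      have hzA : z.1 ∈ A := (Finset.mem_filter.mp hz.1).1
      have h1 : NZ (T + y.1) = NZ (T + z.1) := by
        have := congrFun hyz (Fin.last r)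
        simpa only [Fin.snoc_last] using this
      have h2 := hinj _ hyA _ hzA h1
      obtain ⟨hf1, hf2⟩ := hf y.1 hy.1
      have hS : ∀ i, f y.1 i ∈ A := fun i => (Finset.mem_filter.mp (hf2 i)).1
      have h3 : y.2 = z.2 := by
        apply Equiv.ext
        intro i
        have := congrFun hyz i.castSucc
        simp only [Fin.snoc_castSucc] at this
        rw [← h2] at this
        exact hf1 (hinj _ (hS _) _ (hS _) this)
      exact Prod.ext h2 h3
  have hcard' : (Good.card : ℝ) * r.factorial ≤ (NK r T H a b : ℝ) := by exact_mod_cast hcard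
  refine le_trans ?_ hcard'
  rw [mul_comm (Good.card : ℝ)]
  exact mul_le_mul_of_nonneg_left hgood (Nat.cast_nonneg _)

end Pool.Agent.H24R3.TupShort
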