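import Pool.Agent.H24R3.TupShort

/-!
# Tuples of zeros in boxes away from the diagonals: the asymptotic bounds
-/

open Complex Filter Topology Set
open scoped BigOperators

namespace Pool.Agent.H24R3.TupShort

open H370 H344 H295SI H295Iso Pool.Agent.H24R3.PairsShort Pool.Agent.H24R3.GapsShort

/-- the isolated zeros against the main term, which is larger than any constant -/
theorem iso_M {h r κ B : ℝ} (hh : 0 < h) (hh1 : h ≤ 1) (hr0 : 0 ≤ r) (hr : h * r ≤ 1 / 3)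
    (hκ0 : 0 < κ) :
    ∃ T0 : ℝ, 10 ≤ T0 ∧ ∀ T : ℝ, T0 ≤ T → ∀ H : ℝ, T ^ h ≤ H → H ≤ T →
      (pd h r - 2 * κ) * (H / (2 * Real.pi) * Real.log T) ≤
        (H295Iso.isoN riemannZeta T H (2 * Real.pi * r / Real.log T)
          (4 * Real.pi / 5 / (h * Real.log T)) : ℝ) ∧
      B ≤ H / (2 * Real.pi) * Real.log T := by
  have hpi := Real.pi_pos
  set P := pd h r with hP
  obtain ⟨T1, hT1, hiso⟩ := H295Iso.iso_short H370.good_zeta hh hh1 hr0 hr hκ0
  obtain ⟨C, hC, hcnt⟩ := H370.SI.nn_short H370.good_zeta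
  set η : ℝ := κ / (|P| + κ + 1) with hη
  have hη0 : 0 < η := by positivity
  have htop : Tendsto (fun T : ℝ => T ^ h) atTop atTop := tendsto_rpow_atTop hh
  have hlogtop := Real.tendsto_log_atTop
  have hlittle : ∀ᶠ T : ℝ in atTop, (Real.log T) ^ 2 ≤ T ^ h := by
    have h1 := (isLittleO_log_rpow_atTop (show 0 < h / 2 by positivity)).bound
      (show (0 : ℝ) < 1 by norm_num)
    filter_upwards [h1, eventually_ge_atTop (1 : ℝ)] with T hT hT1
    have h2 : 0 ≤ Real.log T := Real.log_nonneg hT1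
    have h3 : 0 ≤ T ^ (h / 2) := Real.rpow_nonneg (by linarith) _
    rw [Real.norm_of_nonneg h2, Real.norm_of_nonneg h3, one_mul] at hT
    have h4 : T ^ h = (T ^ (h / 2)) ^ 2 := by
      rw [← Real.rpow_natCast, ← Real.rpow_mul (by linarith)]
      norm_num
    rw [h4]
    exact pow_le_pow_left₀ h2 hT 2
  obtain ⟨T2, hT2⟩ := hlittle.exists_forall_of_atTop
  obtain ⟨T3, hT3⟩ := (hlogtop.eventually_ge_atTop (2 * Real.pi * (2 * C) / η)).exists_forall_of_atTop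
  obtain ⟨T4, hT4⟩ := (htop.eventually_ge_atTop
    (max 3 (2 * Real.pi * |B|))).exists_forall_of_atTop
  obtain ⟨T5, hT5⟩ := (hlogtop.eventually_ge_atTop (1 : ℝ)).exists_forall_of_atTop
  refine ⟨max (max T1 T2) (max (max T3 T4) T5), hT1.trans ((le_max_left _ _).trans (le_max_left _ _)),
    fun T hT H hH hHT => ?_⟩
  have hTT1 : T1 ≤ T := ((le_max_left _ _).trans (le_max_left _ _)).trans hT
  have hTT2 := hT2 T (((le_max_right _ _).trans (le_max_left _ _)).trans hT)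
  have hTT3 := hT3 T (((le_max_left _ _).trans ((le_max_left _ _).trans (le_max_right _ _))).trans hT)
  have hTT4 := hT4 T (((le_max_right _ _).trans ((le_max_left _ _).trans (le_max_right _ _))).trans hT)
  have hL1 := hT5 T (((le_max_right _ _).trans (le_max_right _ _)).trans hT)
  have hT10 : 10 ≤ T := hT1.trans hTT1
  have hL : 0 < Real.log T := by linarith
  have hH3 : 3 ≤ H := ((le_max_left _ _).trans hTT4).trans hH
  have hHK : 2 * Real.pi * |B| ≤ H := ((le_max_right _ _).trans hTT4).trans hH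
  have hH0 : 0 < H := by linarith
  set M : ℝ := H / (2 * Real.pi) * Real.log T with hM
  have hM0 : 0 < M := by positivity
  have hNN : (1 - η) * M ≤ (NN riemannZeta T (T + H) : ℝ) := by
    have h1 := (abs_le.mp (hcnt T hT10 T (T + H) le_rfl (by linarith) (by linarith))).1
    have e1 : T + H - T = H := by ring
    rw [e1] at h1
    have h2 : C * (H + (Real.log T) ^ 2) ≤ η * M := by
      have h3 : (Real.log T) ^ 2 ≤ H := hTT2.trans hH
      have h4 : C * (H + (Real.log T) ^ 2) ≤ C * (2 * H) :=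
        mul_le_mul_of_nonneg_left (by linarith) hC.le
      refine h4.trans ?_
      rw [div_le_iff₀ hη0] at hTT3
      have h5 : (2 * C) * (2 * Real.pi) ≤ Real.log T * η := by linarith
      have h6 : 2 * C ≤ Real.log T * η / (2 * Real.pi) := by
        rw [le_div_iff₀ (by positivity)]; exact h5
      calc C * (2 * H) = (2 * C) * H := by ring
        _ ≤ (Real.log T * η / (2 * Real.pi)) * H := mul_le_mul_of_nonneg_right h6 hH0.le
        _ = η * M := by rw [hM]; ring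
    have e2 : H * Real.log T / (2 * Real.pi) = M := by rw [hM]; ring
    rw [e2] at h1
    linarith
  have h1 := hiso T hTT1 H hH hHT
  constructor
  · have hPe : 1 - (c0 h - 1) / KK (h * r) ^ 2 - κ = P - κ := by rw [hP]; rfl
    rw [hPe] at h1
    by_cases hc : P - κ ≤ 0
    · have h2 : (P - 2 * κ) * M ≤ 0 := mul_nonpos_of_nonpos_of_nonneg (by linarith) hM0.le
      exact h2.trans (Nat.cast_nonneg _)
    · push Not at hc
      refine le_trans ?_ h1
      have h3 : (P - κ) * ((1 - η) * M) ≤ (P - κ) * (NN riemannZeta T (T + H) : ℝ) :=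
        mul_le_mul_of_nonneg_left hNN hc.le
      refine le_trans ?_ h3
      have h4 : (P - κ) * η ≤ κ := by
        rw [hη, mul_div_assoc', div_le_iff₀ (by positivity)]
        have h5 : P - κ ≤ |P| + κ + 1 := by linarith [le_abs_self P]
        nlinarith
      have : (P - κ) * ((1 - η) * M) - (P - 2 * κ) * M = (κ - (P - κ) * η) * M := by ring
      have h6 : 0 ≤ (κ - (P - κ) * η) * M := mul_nonneg (by linarith) hM0.le
      linarith
  · have h2 : |B| ≤ H / (2 * Real.pi) := by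
      rw [le_div_iff₀ (by positivity)]; linarith
    have h3 : H / (2 * Real.pi) ≤ M := by
      rw [hM]
      have : 0 ≤ H / (2 * Real.pi) := by positivity
      nlinarith
    exact (le_abs_self B).trans (h2.trans h3)

theorem tuples (hRH : ∀ s : ℂ, riemannZeta s = 0 → 0 < s.re → s.re < 1 → s.re = 1 / 2)
    {h ρ α β ε : ℝ} (hh : 0 < h) (hh1 : h ≤ 1) (hρ : 0 < ρ) (hhρ : h * ρ ≤ 1 / 3) (hα : 0 < α)
    (hβ : 0 < β) (hε : 0 < ε) (r : ℕ) (hr : 1 ≤ r) :
    ∃ T0 : ℝ, 10 ≤ T0 ∧ ∀ T : ℝ, T0 ≤ T → ∀ H : ℝ, T ^ h ≤ H → H ≤ T →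
      ∀ a b : Fin r → ℝ, (∀ i, a i ≤ α) → (∀ i, β ≤ b i) →
      (r.factorial : ℝ) * (pd h ρ - ((r : ℝ) + ⌈α / ρ⌉₊ - 1) / β - ε) *
        (H / (2 * Real.pi) * Real.log T) ≤ (NK r T H a b : ℝ) := by
  have hpi := Real.pi_pos
  set K0 : ℝ := (r : ℝ) + ⌈α / ρ⌉₊ - 1 with hK0
  have hK00 : 0 ≤ K0 := by
    have h1 : (1 : ℝ) ≤ r := by exact_mod_cast hr
    have h2 : (0 : ℝ) ≤ (⌈α / ρ⌉₊ : ℝ) := Nat.cast_nonneg _
    rw [hK0]; linarith
  obtain ⟨T0, hT0, hmain⟩ := iso_M (κ := ε / 4) (B := 4 * K0 / ε) hh hh1 hρ.le hhρ (by positivity)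
  refine ⟨T0, hT0, fun T hT H hH hHT a b ha hb => ?_⟩
  obtain ⟨h1, h2⟩ := hmain T hT H hH hHT
  have hT10 : 10 ≤ T := hT0.trans hT
  have hL : 0 < Real.log T := Real.log_pos (by linarith)
  have hH0 : 0 < H := lt_of_lt_of_le (Real.rpow_pos_of_pos (by linarith) _) hH
  have hw : 0 ≤ 4 * Real.pi / 5 / (h * Real.log T) := by positivity
  have h3 := tup_count hRH (T := T) (H := H) (ρ := ρ) (α := α) (β := β) (by linarith) hw hH0.le
    hρ hα hβ r hr a b ha hb
  refine le_trans ?_ h3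
  rw [mul_assoc]
  apply mul_le_mul_of_nonneg_left _ (Nat.cast_nonneg _)
  set M : ℝ := H / (2 * Real.pi) * Real.log T with hM
  have e2 : H / (2 * Real.pi * β / Real.log T) = M / β := by
    rw [hM]
    field_simp
  rw [e2, ← hK0]
  have h4 : 2 * K0 ≤ ε / 2 * M := by
    rw [div_le_iff₀ hε] at h2
    linarith
  have h5 : (pd h ρ - K0 / β - ε) * M =
      (pd h ρ - 2 * (ε / 4)) * M - K0 * (M / β) - ε / 2 * M := by
    field_simp
    ring
  rw [h5]
  linarith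

/-- long boxes near `h = 1` -/
theorem tuples_one (hRH : ∀ s : ℂ, riemannZeta s = 0 → 0 < s.re → s.re < 1 → s.re = 1 / 2)
    {α β : ℝ} (hα : 0 < α) (r : ℕ) (hr : 1 ≤ r) (hβ : 2 * ((r : ℝ) + ⌈3 * α⌉₊ - 1) ≤ β) :
    ∃ δ κ : ℝ, 0 < δ ∧ δ < 1 ∧ 0 < κ ∧ ∃ T0 : ℝ, 10 ≤ T0 ∧ ∀ T : ℝ, T0 ≤ T → ∀ H : ℝ,
      T ^ (1 - δ) ≤ H → H ≤ T → ∀ a b : Fin r → ℝ, (∀ i, a i ≤ α) → (∀ i, β ≤ b i) →
        κ * (H / (2 * Real.pi) * Real.log T) ≤ (NK r T H a b : ℝ) := by
  have hpi := Real.pi_pos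
  obtain ⟨δ, hδ0, hδ1, hδ⟩ := pd_near_one (x := 1 / 3) half_lt_box
  have hh : 0 < 1 - δ := by linarith
  have hq1 : 1 ≤ ⌈3 * α⌉₊ := Nat.ceil_pos.mpr (by linarith)
  have hq2 : (1 : ℝ) ≤ (⌈3 * α⌉₊ : ℝ) := by exact_mod_cast hq1
  have hr2 : (1 : ℝ) ≤ r := by exact_mod_cast hr
  have hβ0 : 0 < β := by linarith
  set P := pd (1 - δ) (1 / 3 / (1 - δ)) with hP
  have hceil : ⌈α / (1 / 3 / (1 - δ))⌉₊ ≤ ⌈3 * α⌉₊ := by
    apply Nat.ceil_mono
    rw [div_div_eq_mul_div, div_le_iff₀ (by norm_num)]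
    nlinarith
  have hceil' : (⌈α / (1 / 3 / (1 - δ))⌉₊ : ℝ) ≤ (⌈3 * α⌉₊ : ℝ) := by exact_mod_cast hceil
  have h5 : ((r : ℝ) + ⌈α / (1 / 3 / (1 - δ))⌉₊ - 1) / β ≤ 1 / 2 := by
    rw [div_le_iff₀ hβ0]; linarith
  obtain ⟨T0, hT0, hmain⟩ := tuples hRH (h := 1 - δ) (ρ := 1 / 3 / (1 - δ)) (α := α) (β := β)
    (ε := (P - 1 / 2) / 2) hh (by linarith) (by positivity) (by
      have : (1 - δ) * (1 / 3 / (1 - δ)) = 1 / 3 := by field_simp
      linarith) hα hβ0 (by linarith) r hr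
  refine ⟨δ, (P - 1 / 2) / 2, hδ0, hδ1, by linarith, T0, hT0, fun T hT H hH hHT a b ha hb => ?_⟩
  refine le_trans ?_ (hmain T hT H hH hHT a b ha hb)
  have hT10 : 10 ≤ T := hT0.trans hT
  have hL : 0 ≤ Real.log T := Real.log_nonneg (by linarith)
  have hH0 : 0 ≤ H := (Real.rpow_nonneg (by linarith) _).trans hH
  apply mul_le_mul_of_nonneg_right _ (by positivity)
  have hfac : (1 : ℝ) ≤ (r.factorial : ℝ) := by
    exact_mod_cast Nat.factorial_pos r
  have h6 : (P - 1 / 2) / 2 ≤ P - ((r : ℝ) + ⌈α / (1 / 3 / (1 - δ))⌉₊ - 1) / β -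
      (P - 1 / 2) / 2 := by linarith
  have h7 : 0 < (P - 1 / 2) / 2 := by linarith
  rw [← hP]
  nlinarith

end Pool.Agent.H24R3.TupShort
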