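import Pool.Agent.H24R3.TupShort2

/-!
# Tuples of zeros in boxes away from the diagonals: ordinates in `(0, T]`
-/

open Complex Filter Topology Set
open scoped BigOperators

namespace Pool.Agent.H24R3.TupShort

open H370 H344 H295SI H295Iso Pool.Agent.H24R3.PairsShort Pool.Agent.H24R3.GapsShort

/-- `k`-tuples, `k = r + 1`, of distinct indices with ordinates in `(0, T]` and normalised
differences with the last one in the box -/
noncomputable def Nk (r : ℕ) (T : ℝ) (a b : Fin r → ℝ) : ℕ :=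
  {j : Fin (r + 1) → ℕ | Function.Injective j ∧ (∀ i, 1 ≤ j i ∧ ord (j i) ≤ T) ∧
    ∀ i : Fin r, (ord (j i.castSucc) - ord (j (Fin.last r))) * (Real.log T / (2 * Real.pi)) ∈
      Set.Icc (a i) (b i)}.ncard

lemma idx0_finite (T : ℝ) : {n : ℕ | 1 ≤ n ∧ ord n ≤ T}.Finite := by
  refine (Finset.finite_toSet (Finset.Icc 1 (NZ T))).subset ?_
  rintro n ⟨h1, h2⟩
  rw [Finset.coe_Icc]
  exact ⟨h1, (ord_le_iff h1 T).mp h2⟩

lemma NK_le_Nk (r : ℕ) {T α β' : ℝ} (a b : Fin r → ℝ) (hT : 2 < T) (hα : 0 ≤ α) (hβ' : 0 ≤ β')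
    (ha : ∀ i, a i ≤ α) (hb : ∀ i, β' * Real.log T ≤ b i * Real.log (T / 2)) :
    NK r (T / 2) (T / 2) (fun _ => α) (fun _ => β') ≤ Nk r T a b := by
  have hpi := Real.pi_pos
  have hL' : 0 < Real.log (T / 2) := Real.log_pos (by linarith)
  have hLL : Real.log (T / 2) ≤ Real.log T := Real.log_le_log (by linarith) (by linarith)
  unfold NK Nk
  apply Set.ncard_le_ncard
  · rintro j ⟨h1, h2, h3⟩
    refine ⟨h1, fun i => ⟨(h2 i).1, by have := (h2 i).2.2; linarith⟩, fun i => ?_⟩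
    obtain ⟨h4, h5⟩ := h3 i
    set D := ord (j i.castSucc) - ord (j (Fin.last r)) with hD
    have hmul : D * (Real.log T / (2 * Real.pi)) =
        D * (Real.log (T / 2) / (2 * Real.pi)) * (Real.log T / Real.log (T / 2)) := by
      field_simp
    have hlam : 1 ≤ Real.log T / Real.log (T / 2) := by
      rw [le_div_iff₀ hL']; linarith
    have hD0 : 0 ≤ D * (Real.log (T / 2) / (2 * Real.pi)) := hα.trans h4
    rw [hmul]
    constructor
    · calc a i ≤ α := ha i
        _ ≤ D * (Real.log (T / 2) / (2 * Real.pi)) := h4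
        _ = D * (Real.log (T / 2) / (2 * Real.pi)) * 1 := (mul_one _).symm
        _ ≤ _ := mul_le_mul_of_nonneg_left hlam hD0
    · have h6 : D * (Real.log (T / 2) / (2 * Real.pi)) * (Real.log T / Real.log (T / 2)) ≤
          β' * (Real.log T / Real.log (T / 2)) :=
        mul_le_mul_of_nonneg_right h5 (by linarith)
      refine h6.trans ?_
      rw [mul_div_assoc', div_le_iff₀ hL']
      exact hb i
  · refine (Set.Finite.pi' (fun _ : Fin (r + 1) => idx0_finite T)).subset ?_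
    intro j hj i
    exact hj.2.1 i

theorem tuples_all (hRH : ∀ s : ℂ, riemannZeta s = 0 → 0 < s.re → s.re < 1 → s.re = 1 / 2)
    {α β : ℝ} (hα : 0 < α) (r : ℕ) (hr : 1 ≤ r) (hβ : 2 * ((r : ℝ) + ⌈3 * α⌉₊ - 1) < β) :
    ∃ κ : ℝ, 0 < κ ∧ ∃ T0 : ℝ, ∀ T : ℝ, T0 ≤ T →
      ∀ a b : Fin r → ℝ, (∀ i, a i ≤ α) → (∀ i, β ≤ b i) →
        κ * (T / (2 * Real.pi) * Real.log T) ≤ (Nk r T a b : ℝ) := by
  have hpi := Real.pi_pos
  set B0 : ℝ := 2 * ((r : ℝ) + ⌈3 * α⌉₊ - 1) with hB0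
  have hB00 : 0 < B0 := by
    have h1 : (1 : ℝ) ≤ r := by exact_mod_cast hr
    have h2 : (1 : ℝ) ≤ (⌈3 * α⌉₊ : ℝ) := by
      exact_mod_cast (Nat.ceil_pos.mpr (by linarith : 0 < 3 * α))
    rw [hB0]; linarith
  obtain ⟨δ, κ, hδ0, hδ1, hκ, T0, hT0, hmain⟩ := tuples_one hRH hα (β := B0) r hr le_rfl
  obtain ⟨T1, hT1⟩ := (Real.tendsto_log_atTop.eventually_ge_atTop
    (max (2 * Real.log 2) (β * Real.log 2 / (β - B0)))).exists_forall_of_atTop
  refine ⟨κ / 4, by positivity, max (2 * T0) T1, fun T hT a b ha hb => ?_⟩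
  have hTT0 : T0 ≤ T / 2 := by
    have := (le_max_left (2 * T0) T1).trans hT
    linarith
  have hTT1 := hT1 T ((le_max_right _ _).trans hT)
  have hl2 : 2 * Real.log 2 ≤ Real.log T := (le_max_left _ _).trans hTT1
  have hl3 : β * Real.log 2 / (β - B0) ≤ Real.log T := (le_max_right _ _).trans hTT1
  have hTpos : 20 ≤ T := by linarith
  have hlogd : Real.log (T / 2) = Real.log T - Real.log 2 :=
    Real.log_div (by linarith) (by norm_num)
  have hrp : (T / 2) ^ (1 - δ) ≤ T / 2 := by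
    calc (T / 2) ^ (1 - δ) ≤ (T / 2) ^ (1 : ℝ) :=
          Real.rpow_le_rpow_of_exponent_le (by linarith) (by linarith)
      _ = T / 2 := Real.rpow_one _
  have h1 := hmain (T / 2) hTT0 (T / 2) hrp le_rfl (fun _ => α) (fun _ => B0)
    (fun _ => le_rfl) (fun _ => le_rfl)
  have h2 := NK_le_Nk r (T := T) (α := α) (β' := B0) a b (by linarith) hα.le hB00.le ha (by
    intro i
    rw [hlogd]
    rw [div_le_iff₀ (by linarith)] at hl3
    have h3 : β * (Real.log T - Real.log 2) ≤ b i * (Real.log T - Real.log 2) := by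
      apply mul_le_mul_of_nonneg_right (hb i)
      have : 0 < Real.log 2 := Real.log_pos (by norm_num)
      linarith
    nlinarith)
  have h3 : (NK r (T / 2) (T / 2) (fun _ => α) (fun _ => B0) : ℝ) ≤ (Nk r T a b : ℝ) := by
    exact_mod_cast h2
  refine le_trans ?_ (h1.trans h3)
  rw [hlogd]
  have h4 : Real.log T / 2 ≤ Real.log T - Real.log 2 := by linarith
  have h5 : 0 ≤ κ * (T / 2 / (2 * Real.pi)) := by positivity
  calc κ / 4 * (T / (2 * Real.pi) * Real.log T) =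
      κ * (T / 2 / (2 * Real.pi)) * (Real.log T / 2) := by ring
    _ ≤ κ * (T / 2 / (2 * Real.pi)) * (Real.log T - Real.log 2) :=
      mul_le_mul_of_nonneg_left h4 h5
    _ = _ := by ring

end Pool.Agent.H24R3.TupShort
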